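import Pool.Agent.H53.HB.Kern

/-!
# The exact indices for a factorization in the hyperelliptic mapping class group
-/

namespace Pool.Agent.H53.HB

open Module

lemma idx_rep (m P M : ℕ) (l : List (Fin m → ℝ)) (hl : (l.map (tv (ch m) (ch_alt m))).prod = 1)
    (hP : P ≤ posIdx (word (ch m) (pos l)).q) (hM : M ≤ negIdx (word (ch m) (pos l)).q)
    (u : List (Fin m → ℝ)) (k : ℕ) :
    posIdx (word (ch m) (pos u)).q + k * P ≤
        posIdx (word (ch m) (pos (u ++ (List.replicate k l).flatten))).q ∧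
      negIdx (word (ch m) (pos u)).q + k * M ≤
        negIdx (word (ch m) (pos (u ++ (List.replicate k l).flatten))).q := by
  induction k generalizing u with
  | zero =>
    rw [List.replicate_zero, List.flatten_nil, List.append_nil]
    simp
  | succ k ih =>
    have h1 := ih (u ++ l)
    have h2 := word_split (ch m) (ch_alt m) (pos u) [] l hl
    have h3 : u ++ (List.replicate (k + 1) l).flatten =
        u ++ l ++ (List.replicate k l).flatten := by
      rw [List.replicate_succ, List.flatten_cons, List.append_assoc]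
    have h4 : pos u ++ l.map (fun v => (true, v)) ++ [] = pos (u ++ l) := by
      rw [List.append_nil]
      exact (List.map_append).symm
    rw [h4, List.append_nil] at h2
    rw [h3]
    constructor
    · calc posIdx (word (ch m) (pos u)).q + (k + 1) * P
          = posIdx (word (ch m) (pos u)).q + P + k * P := by ring
        _ ≤ posIdx (word (ch m) (pos (u ++ l))).q + k * P := by
          refine Nat.add_le_add_right (le_trans ?_ h2.1) _
          exact Nat.add_le_add_left hP _
        _ ≤ _ := h1.1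
    · calc negIdx (word (ch m) (pos u)).q + (k + 1) * M
          = negIdx (word (ch m) (pos u)).q + M + k * M := by ring
        _ ≤ negIdx (word (ch m) (pos (u ++ l))).q + k * M := by
          refine Nat.add_le_add_right (le_trans ?_ h2.2) _
          exact Nat.add_le_add_left hM _
        _ ≤ _ := h1.2

lemma prod_rep {G : Type} [Monoid G] {α : Type} (f : α → G) (l : List α) (k : ℕ) :
    (((List.replicate k l).flatten).map f).prod = ((l.map f).prod) ^ k := by
  induction k with
  | zero => simp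
  | succ k ih =>
    rw [List.replicate_succ, List.flatten_cons, List.map_append, List.prod_append, ih, pow_succ']

lemma length_rep {α : Type} (l : List α) (k : ℕ) :
    ((List.replicate k l).flatten).length = k * l.length := by
  rw [List.length_flatten]
  simp

lemma gen0_red (m : ℕ) (s : ℕ) (x : Braid m) :
    Commute (gen (ch m) (ch_alt m) 0 ^ s) (psi m x) := by
  have h : Commute (gen (ch m) (ch_alt m) 0) (psi m x) := gen0_psi m x
  exact h.pow_left s

theorem closed_bounds (g : ℕ) (F : List (Braid (2 * g + 1) × ℕ)) (hF : ∀ p ∈ F, p.2 < g)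
    (hx : fprod (2 * g + 1) F ∈ hyp (2 * g + 1) g) :
    ∃ P M : ℤ, Even M ∧ (4 * g + 2) * M = g * (P + M) ∧
      P + M = Multiplicative.toAdd (deg (2 * g + 1) (fprod (2 * g + 1) F)) ∧
      (posIdx (word (ch (2 * g + 1)) (pos (ex (2 * g + 1) F))).q : ℤ) ≤ red F + P ∧
      (negIdx (word (ch (2 * g + 1)) (pos (ex (2 * g + 1) F))).q : ℤ) ≤ M := by
  obtain ⟨⟨a, b, h1, h2⟩, -⟩ := ok_of_mem g _ hx
  have hF' : ∀ p ∈ F, 2 * p.2 ≤ 2 * g + 1 := fun p hp => by
    have := hF p hp
    omega
  obtain ⟨hl1, hl2⟩ := length_ex (2 * g + 1) (by omega) F hF'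
  obtain ⟨hz1, hz2⟩ := std_odd g
  obtain ⟨hw1, hw2⟩ := std_even (2 * g + 1) g (by omega)
  set Z := blk (2 * g + 1) (2 * g + 1) (2 * g + 2) with hZ
  set W := blk (2 * g + 1) (2 * g) (4 * g + 2) with hW
  have hZt : (Z.map (tv (ch (2 * g + 1)) (ch_alt _))).prod = 1 := tv_blk_odd g
  have hWt : (W.map (tv (ch (2 * g + 1)) (ch_alt _))).prod = 1 :=
    tv_blk_even (2 * g + 1) g (by omega)
  have hZg : (Z.map (gen (ch (2 * g + 1)) (ch_alt _))).prod =
      psi (2 * g + 1) (tw (2 * g + 1) (2 * g + 1)) := gen_blk_odd g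
  have hWg : (W.map (gen (ch (2 * g + 1)) (ch_alt _))).prod =
      psi (2 * g + 1) (tw (2 * g + 1) (2 * g) ^ 2) := gen_blk_even (2 * g + 1) g (by omega)
  have hZl : Z.length = (2 * g + 2) * (2 * g + 1) := length_blk _ _ _
  have hWl : W.length = (4 * g + 2) * (2 * g) := length_blk _ _ _
  obtain ⟨c, hc⟩ : ∃ c : ℕ, 0 ≤ a + c := ⟨(-a).toNat, by omega⟩
  obtain ⟨d, hd⟩ : ∃ d : ℕ, 0 ≤ b + d := ⟨(-b).toNat, by omega⟩
  obtain ⟨a', ha'⟩ := Int.eq_ofNat_of_zero_le hc
  obtain ⟨b', hb'⟩ := Int.eq_ofNat_of_zero_le hd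
  -- the two words
  have hsg : sg (ch (2 * g + 1)) (pos (ex (2 * g + 1) F ++ (List.replicate c Z).flatten ++
      (List.replicate d W).flatten)) = sg (ch (2 * g + 1)) (pos (List.replicate (red F) 0 ++
        (List.replicate a' Z).flatten ++ (List.replicate b' W).flatten)) := by
    refine sg_eq_of_prod_eq _ (ch_alt _) _ _ ?_
    rw [List.map_append, List.map_append, List.prod_append, List.prod_append, prod_rep, prod_rep,
      hZg, hWg, gen_ex _ (by omega) F hF', h1, List.map_append, List.map_append,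
      List.prod_append, List.prod_append, prod_rep, prod_rep, hZg, hWg, List.map_replicate,
      List.prod_replicate]
    have hcw : Commute (psi (2 * g + 1) (tw (2 * g + 1) (2 * g + 1)))
        (psi (2 * g + 1) (tw (2 * g + 1) (2 * g) ^ 2)) :=
      psi_central _ _ (rho_tw_odd g) _
    have h0z := gen0_red (2 * g + 1) (red F) (tw (2 * g + 1) (2 * g + 1))
    have h0w := gen0_red (2 * g + 1) (red F) (tw (2 * g + 1) (2 * g) ^ 2)
    set z := psi (2 * g + 1) (tw (2 * g + 1) (2 * g + 1))
    set w := psi (2 * g + 1) (tw (2 * g + 1) (2 * g) ^ 2)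
    set o := gen (ch (2 * g + 1)) (ch_alt (2 * g + 1)) 0 ^ red F
    have e1 : z ^ a * w ^ b * o = o * (z ^ a * w ^ b) :=
      ((h0z.zpow_right a).mul_right (h0w.zpow_right b)).eq.symm
    rw [e1, ← zpow_natCast z c, ← zpow_natCast w d, ← zpow_natCast z a', ← zpow_natCast w b']
    have e2 : (a' : ℤ) = a + c := ha'.symm
    have e3 : (b' : ℤ) = b + d := hb'.symm
    rw [e2, e3, zpow_add, zpow_add]
    have e4 := (hcw.zpow_zpow (c : ℤ) b).eq
    simp only [mul_assoc]
    congr 2
    rw [← mul_assoc, ← e4, mul_assoc]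
  unfold sg at hsg
  -- lower bounds
  have l1 := idx_rep (2 * g + 1) _ _ Z hZt hz1 hz2 (ex (2 * g + 1) F) c
  have l2 := idx_rep (2 * g + 1) _ _ W hWt hw1 hw2
    (ex (2 * g + 1) F ++ (List.replicate c Z).flatten) d
  have r0 := idx_replicate (2 * g + 1) (red F) []
  have r1 := idx_rep (2 * g + 1) _ _ Z hZt hz1 hz2 (List.replicate (red F) 0) a'
  have r2 := idx_rep (2 * g + 1) _ _ W hWt hw1 hw2
    (List.replicate (red F) 0 ++ (List.replicate a' Z).flatten) b'
  rw [List.append_nil] at r0
  -- upper bounds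
  have u1 : posIdx (word (ch (2 * g + 1)) (pos (ex (2 * g + 1) F ++ (List.replicate c Z).flatten ++
      (List.replicate d W).flatten))).q +
      negIdx (word (ch (2 * g + 1)) (pos (ex (2 * g + 1) F ++ (List.replicate c Z).flatten ++
      (List.replicate d W).flatten))).q ≤ (ex (2 * g + 1) F).length + c * Z.length +
        d * W.length := by
    have h := posIdx_add_negIdx_le (word (ch (2 * g + 1)) (pos (ex (2 * g + 1) F ++
      (List.replicate c Z).flatten ++ (List.replicate d W).flatten))).q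
    rw [finrank_word, List.length_map, List.length_append, List.length_append, length_rep,
      length_rep] at h
    exact h
  have u2 : posIdx (word (ch (2 * g + 1)) (pos (List.replicate (red F) 0 ++
        (List.replicate a' Z).flatten ++ (List.replicate b' W).flatten))).q +
      negIdx (word (ch (2 * g + 1)) (pos (List.replicate (red F) 0 ++
        (List.replicate a' Z).flatten ++ (List.replicate b' W).flatten))).q ≤
        red F + a' * Z.length + b' * W.length := by
    have h := posIdx_add_negIdx_le (word (ch (2 * g + 1)) (pos (List.replicate (red F) 0 ++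
        (List.replicate a' Z).flatten ++ (List.replicate b' W).flatten))).q
    rw [finrank_word, List.length_map, List.length_append, List.length_append, length_rep,
      length_rep, List.length_replicate] at h
    exact h
  -- integers
  refine ⟨a * (3 * g ^ 2 + 5 * g + 2) + b * (6 * g ^ 2 + 4 * g), a * (g ^ 2 + g) + b * (2 * g ^ 2),
    ?_, by ring, by rw [h2]; ring, ?_, ?_⟩
  · have h3 : Even ((g : ℤ) ^ 2 + g) := by
      have : (g : ℤ) ^ 2 + g = g * (g + 1) := by ring
      rw [this]
      exact Int.even_mul_succ_self _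
    exact (h3.mul_left a).add (Even.mul_left (even_two_mul _) b)
  · have k1 : (a' : ℤ) = a + c := ha'.symm
    have k2 : (b' : ℤ) = b + d := hb'.symm
    zify at l1 l2 r0 r1 r2 u1 u2 hZl hWl
    rw [hZl, hWl] at u1 u2
    rw [k1, k2] at u2
    rw [k1] at r1
    rw [k2] at r2
    rw [hl1, h2] at u1
    obtain ⟨l1a, l1b⟩ := l1
    obtain ⟨l2a, l2b⟩ := l2
    obtain ⟨r1a, r1b⟩ := r1
    obtain ⟨r2a, r2b⟩ := r2
    obtain ⟨r0a, r0b⟩ := r0
    have n0 : (0 : ℤ) ≤ posIdx (word (ch (2 * g + 1)) (pos ([] : List (Fin (2 * g + 1) → ℝ)))).q :=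
      Int.natCast_nonneg _
    have n1 : (0 : ℤ) ≤ negIdx (word (ch (2 * g + 1)) (pos (List.replicate (red F) 0))).q :=
      Int.natCast_nonneg _
    nlinarith
  · have k1 : (a' : ℤ) = a + c := ha'.symm
    have k2 : (b' : ℤ) = b + d := hb'.symm
    zify at l1 l2 r0 r1 r2 u1 u2 hZl hWl
    rw [hZl, hWl] at u1 u2
    rw [k1, k2] at u2
    rw [k1] at r1
    rw [k2] at r2
    rw [hl1, h2] at u1
    obtain ⟨l1a, l1b⟩ := l1
    obtain ⟨l2a, l2b⟩ := l2
    obtain ⟨r1a, r1b⟩ := r1
    obtain ⟨r2a, r2b⟩ := r2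
    obtain ⟨r0a, r0b⟩ := r0
    have n0 : (0 : ℤ) ≤ posIdx (word (ch (2 * g + 1)) (pos ([] : List (Fin (2 * g + 1) → ℝ)))).q :=
      Int.natCast_nonneg _
    have n1 : (0 : ℤ) ≤ negIdx (word (ch (2 * g + 1)) (pos (List.replicate (red F) 0))).q :=
      Int.natCast_nonneg _
    nlinarith

/-- the indices of a factorization in the hyperelliptic mapping class group -/
theorem closed_idx (g : ℕ) (hg : 0 < g) (F : List (Braid (2 * g + 1) × ℕ)) (hF : ∀ p ∈ F, p.2 < g)
    (hx : fprod (2 * g + 1) F ∈ hyp (2 * g + 1) g) (hfull : Full (2 * g + 1) F) :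
    ∃ P M : ℤ, Even M ∧ (4 * g + 2) * M = g * (P + M) ∧
      (posIdx (fun x : Ker (2 * g + 1) (vc (2 * g + 1) F) =>
          (word (ch (2 * g + 1)) (vc (2 * g + 1) F)).q x.1) : ℤ) + 2 * g +
          sm (fun h => 6 * h ^ 2 + 4 * h) F = P + red F ∧
      (negIdx (fun x : Ker (2 * g + 1) (vc (2 * g + 1) F) =>
          (word (ch (2 * g + 1)) (vc (2 * g + 1) F)).q x.1) : ℤ) + 2 * g +
          sm (fun h => 2 * h ^ 2) F = M ∧
      2 * g + (sm (fun h => 6 * h ^ 2 + 4 * h) F : ℤ) ≤ P ∧
      P + M = irr F + sm (fun h => 2 * h * (4 * h + 2)) F := by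
  obtain ⟨P, M, h0, h1, h2, h3, h4⟩ := closed_bounds g F hF hx
  have h5 := main_idxR (2 * g + 1) g P M (by omega) (by omega) (rank_odd g) F
    (fun p hp => by have := hF p hp; omega) hfull (ok_of_mem g _ hx).2 h2 h3 h4
  exact ⟨P, M, h0, h1, h5⟩

end Pool.Agent.H53.HB
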