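import Pool.Agent.H53.HB.Fine

/-!
# The intersection form in coordinates
-/

namespace Pool.Agent.H53.HB

open Module

lemma form_cons (m : ℕ) (p : Braid m × ℕ) (F : List (Braid m × ℕ))
    (x : Fin (p :: F).length → ℝ) :
    form m (p :: F) x = form m F (fun i => x i.succ) - x 0 ^ 2 -
      x 0 * ch m (cyc m p) (∑ i, x (Fin.succ i) • cyc m (F.get i)) := by
  unfold form
  have h1 : ∀ f : Fin (F.length + 1) → ℝ, ∑ i, f i = f 0 + ∑ i : Fin F.length, f i.succ :=
    fun f => Fin.sum_univ_succ f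
  have h2 : (∑ i : Fin (p :: F).length, x i ^ 2) = x 0 ^ 2 + ∑ i : Fin F.length, x i.succ ^ 2 :=
    h1 _
  have h3 : (∑ i : Fin (p :: F).length, ∑ j : Fin (p :: F).length, if i < j then
        ch m (cyc m ((p :: F).get i)) (cyc m ((p :: F).get j)) * x i * x j else 0) =
      (∑ j : Fin F.length, ch m (cyc m p) (cyc m (F.get j)) * x 0 * x j.succ) +
        ∑ i : Fin F.length, ∑ j : Fin F.length, if i < j then
          ch m (cyc m (F.get i)) (cyc m (F.get j)) * x i.succ * x j.succ else 0 := by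
    refine (h1 _).trans ?_
    congr 1
    · refine (h1 _).trans ?_
      rw [if_neg (lt_irrefl _), zero_add]
      refine Finset.sum_congr rfl (fun j _ => ?_)
      rw [if_pos (Fin.succ_pos j)]
      rfl
    · refine Finset.sum_congr rfl (fun i _ => ?_)
      refine (h1 _).trans ?_
      rw [if_neg (by exact Fin.not_lt_zero _), zero_add]
      refine Finset.sum_congr rfl (fun j _ => ?_)
      by_cases hij : i < j
      · rw [if_pos hij, if_pos (Fin.succ_lt_succ_iff.2 hij)]
        rfl
      · rw [if_neg hij, if_neg (by rw [Fin.succ_lt_succ_iff]; exact hij)]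
  rw [h2, h3, map_sum, Finset.mul_sum]
  have h4 : ∀ i : Fin F.length, x 0 * ch m (cyc m p) (x i.succ • cyc m (F.get i)) =
      ch m (cyc m p) (cyc m (F.get i)) * x 0 * x i.succ := by
    intro i
    rw [map_smul, smul_eq_mul]
    ring
  rw [Finset.sum_congr rfl (fun i _ => h4 i)]
  ring

theorem exists_coord (m : ℕ) (F : List (Braid m × ℕ)) :
    ∃ e : (word (ch m) (vc m F)).E ≃ₗ[ℝ] (Fin F.length → ℝ),
      (∀ x, (word (ch m) (vc m F)).q x = -form m F (e x)) ∧
        ∀ x, (word (ch m) (vc m F)).V x = ∑ i, e x i • cyc m (F.get i) := by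
  induction F with
  | nil =>
    let e : PUnit ≃ₗ[ℝ] (Fin 0 → ℝ) :=
      { toFun := fun _ i => i.elim0
        map_add' := fun _ _ => by ext i; exact i.elim0
        map_smul' := fun _ _ => by ext i; exact i.elim0
        invFun := fun _ => PUnit.unit
        left_inv := fun _ => rfl
        right_inv := fun _ => by ext i; exact i.elim0 }
    refine ⟨e, fun x => ?_, fun x => ?_⟩
    · change (0 : ℝ) = -form m [] (e x)
      unfold form
      have h1 : ∀ f : Fin (([] : List (Braid m × ℕ)).length) → ℝ, ∑ i, f i = 0 := fun f =>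
        Finset.sum_of_isEmpty (ι := Fin 0) _
      rw [h1, h1, neg_zero, sub_zero, neg_zero]
    · change (0 : Fin m → ℝ) = _
      exact (Finset.sum_of_isEmpty (ι := Fin 0) _).symm
  | cons p F ih =>
    obtain ⟨e, hq, hV⟩ := ih
    let e' : (ℝ × (word (ch m) (vc m F)).E) ≃ₗ[ℝ] (Fin (F.length + 1) → ℝ) :=
      (LinearEquiv.prodCongr (LinearEquiv.refl ℝ ℝ) e).trans
        (Fin.consLinearEquiv ℝ (fun _ : Fin (F.length + 1) => ℝ))
    have h0 : ∀ x0 x, e' (x0, x) 0 = x0 := fun _ _ => rfl
    have hs : ∀ x0 x (i : Fin F.length), e' (x0, x) i.succ = e x i := fun _ _ _ => rfl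
    refine ⟨e', ?_, ?_⟩
    · rintro ⟨x0, x⟩
      have h1 : (word (ch m) (vc m (p :: F))).q (x0, x) =
          (Dat.mul (ch m) (Dat.single (sgn true) (cyc m p)) (word (ch m) (vc m F))).q (x0, x) := rfl
      have h2 := form_cons m p F (e' (x0, x))
      have h3 : form m F (fun i => e' (x0, x) i.succ) = form m F (e x) := rfl
      have h4 : ch m (cyc m p) (∑ i : Fin F.length, e' (x0, x) i.succ • cyc m (F.get i)) =
          ch m (cyc m p) (∑ i : Fin F.length, e x i • cyc m (F.get i)) := rfl
      have h5 : e' (x0, x) (0 : Fin (F.length + 1)) = x0 := rfl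
      refine h1.trans ?_
      refine Eq.trans ?_ (congrArg Neg.neg h2).symm
      rw [Dat.mul_q, Dat.single_q, Dat.single_V, hq x, hV x]
      refine Eq.trans ?_ (congrArg Neg.neg (congrArg₂ (fun a b => a - b)
        (congrArg₂ (fun a b : ℝ => a - b ^ 2) h3.symm h5.symm)
        (congrArg₂ (fun a b : ℝ => a * b) h5.symm h4.symm)))
      rw [map_smul, LinearMap.smul_apply, smul_eq_mul, sgn, if_pos rfl]
      ring
    · rintro ⟨x0, x⟩
      have h1 : (word (ch m) (vc m (p :: F))).V (x0, x) =
          (Dat.mul (ch m) (Dat.single (sgn true) (cyc m p)) (word (ch m) (vc m F))).V (x0, x) := rfl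
      refine h1.trans ?_
      rw [Dat.mul_V, Dat.single_V, hV x]
      exact (Fin.sum_univ_succ (fun i : Fin (F.length + 1) =>
        e' (x0, x) i • cyc m ((p :: F).get i))).symm

lemma mem_lat (m : ℕ) (F : List (Braid m × ℕ)) (x : Fin F.length → ℝ) :
    x ∈ lat m F ↔ ∀ u, ch m u (∑ i, x i • cyc m (F.get i)) = 0 := by
  unfold lat
  rw [LinearMap.mem_ker]
  constructor
  · intro h u
    have := congrArg (fun f => f u) h
    simpa [Fintype.linearCombination_apply] using this
  · intro h
    refine LinearMap.ext fun u => ?_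
    simpa [Fintype.linearCombination_apply] using h u

theorem exists_coord_lat (m : ℕ) (F : List (Braid m × ℕ)) :
    ∃ e : Ker m (vc m F) ≃ₗ[ℝ] lat m F,
      ∀ x, form m F (e x).1 = -(word (ch m) (vc m F)).q x.1 := by
  obtain ⟨e, hq, hV⟩ := exists_coord m F
  have h : (Ker m (vc m F)).map (e : (word (ch m) (vc m F)).E →ₗ[ℝ] (Fin F.length → ℝ)) =
      lat m F := by
    ext y
    rw [Submodule.mem_map_equiv, mem_Ker, mem_lat]
    rw [hV]
    simp
  refine ⟨e.ofSubmodules _ _ h, fun x => ?_⟩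
  have h1 : ((e.ofSubmodules _ _ h) x).1 = e x.1 := rfl
  rw [h1]
  have h2 := hq x.1
  linarith

theorem wPlus_eq (m : ℕ) (F : List (Braid m × ℕ)) : wPlus m F = bPlus m F := by
  obtain ⟨e, he⟩ := exists_coord_lat m F
  unfold wPlus bPlus negIdx
  congr 1
  exact posIdx_congr e _ _ he

theorem wMinus_eq (m : ℕ) (F : List (Braid m × ℕ)) : wMinus m F = bMinus m F := by
  obtain ⟨e, he⟩ := exists_coord_lat m F
  unfold wMinus bMinus negIdx
  congr 1
  refine posIdx_congr e _ _ (fun x => ?_)
  change -form m F (e x).1 = _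
  rw [he, neg_neg]

theorem chi_eq (m : ℕ) (F : List (Braid m × ℕ)) : wchi m F = chi m F := by
  unfold wchi chi
  rw [wPlus_eq, wMinus_eq]

theorem sigma_eq (m : ℕ) (F : List (Braid m × ℕ)) : wsig m F = sigma m F := by
  unfold wsig sigma
  rw [wPlus_eq, wMinus_eq]

/-- the strict inequality for hyperelliptic Lefschetz fibrations -/
theorem main (k : Kind) (g m : ℕ) (hg : 2 ≤ g) (F : List (Braid m × ℕ)) (hF : ∀ p ∈ F, p.2 < g)
    (hx : Closes k g m (fprod m F)) (hfull : Full m F) (b : ℤ) (hb : b ≤ maxBlow k) :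
    3 * (sigma m F + b) < chi m F - b ∨
      (minGenus k b ≤ g ∧ 5 ≤ bPlus m F ∧ 5 ≤ red F) := by
  rcases lt_or_ge (3 * (sigma m F + b)) (chi m F - b) with h | h
  · exact Or.inl h
  · right
    rw [← chi_eq, ← sigma_eq] at h
    rw [← wPlus_eq]
    cases k with
    | invariant =>
      obtain ⟨rfl, hx⟩ := hx
      have hb' : b ≤ 1 := hb
      exact (even_case g hg F hF hx hfull).2 (by linarith)
    | swapped =>
      obtain ⟨rfl, hx⟩ := hx
      obtain ⟨h1, h2, h3⟩ := (odd_case g hg F hF hx hfull).2 b hb h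
      refine ⟨?_, h3⟩
      change (if b ≤ 2 then 21 else 18) ≤ g
      split_ifs with h4
      · exact h2 h4
      · exact h1
    | closed =>
      obtain ⟨rfl, hx⟩ := hx
      exact (closed_case g hg F hF hx hfull).2 b hb h

end Pool.Agent.H53.HB
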