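import Pool.Agent.H53.HB.FDefs

/-!
# The numbers of positive and of negative eigenvalues

Sketch. `sin (π a / k) > 0`, so the sign of `mu r k a b` is the sign of
`sin (π a / k) + cos (π b / (r+1))`. For `r = 2 h`, `k = 4 h + 2`: `cos (π b / (2 h + 1)) =
-sin (π (2 b - (2 h + 1)) / (4 h + 2))`. For `b ≤ h` every `a` is positive (`4 h + 1` each). For
`b = h + 1 + i`, `0 ≤ i < h`, put `o = 2 i + 1`: negative for `a < o` and for `4 h + 2 - a < o`
(`4 i` values), positive for `o < a < 4 h + 2 - o` (`4 h - 4 i - 1` values). Totals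
`6 h^2 + 2 h` and `2 h^2 - 2 h`. For `r = 2 g + 1`, `k = 2 g + 2`: `cos (π b / (2 g + 2)) =
-sin (π (b - (g + 1)) / (2 g + 2))`; for `b ≤ g + 1` every `a` is positive (`2 g + 1` each), for
`b = g + 1 + i`, `1 ≤ i ≤ g`: negative for `a < i` and for `2 g + 2 - a < i` (`2 (i - 1)` values),
positive for `i < a < 2 g + 2 - i` (`2 g + 1 - 2 i` values). Totals `3 g^2 + 3 g + 1` and `g^2 - g`.
-/

namespace Pool.Agent.H53.HB

open Finset Real

private theorem sc_eq (x y : ℝ) :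
    sin x + cos y = 2 * sin ((x - y + π / 2) / 2) * cos ((x + y - π / 2) / 2) := by
  have h1 : cos y = - sin (y - π / 2) := by rw [Real.sin_sub_pi_div_two, neg_neg]
  rw [h1, ← sub_eq_add_neg, Real.sin_sub_sin]
  congr 3 <;> ring

private theorem sc_pos {x y : ℝ} (hx0 : 0 < x) (hx : x < π) (hy0 : 0 < y) (hy : y < π)
    (h1 : y < x + π / 2) (h2 : x + y < 3 * π / 2) : 0 < sin x + cos y := by
  rw [sc_eq]
  have g1 : 0 < sin ((x - y + π / 2) / 2) := Real.sin_pos_of_pos_of_lt_pi (by linarith) (by linarith)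
  have g2 : 0 < cos ((x + y - π / 2) / 2) :=
    Real.cos_pos_of_mem_Ioo ⟨by linarith, by linarith⟩
  positivity

private theorem sc_neg {x y : ℝ} (hx0 : 0 < x) (hx : x < π) (hy0 : 0 < y) (hy : y < π)
    (h : x + π / 2 < y ∨ 3 * π / 2 < x + y) : sin x + cos y < 0 := by
  rw [sc_eq, mul_assoc]
  have hπ := Real.pi_pos
  rcases h with h | h
  · have g1 : sin ((x - y + π / 2) / 2) < 0 :=
      Real.sin_neg_of_neg_of_neg_pi_lt (by linarith) (by linarith)
    have g2 : 0 < cos ((x + y - π / 2) / 2) :=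
      Real.cos_pos_of_mem_Ioo ⟨by linarith, by linarith⟩
    nlinarith [mul_pos (neg_pos.2 g1) g2]
  · have g1 : 0 < sin ((x - y + π / 2) / 2) :=
      Real.sin_pos_of_pos_of_lt_pi (by linarith) (by linarith)
    have g2 : cos ((x + y - π / 2) / 2) < 0 :=
      Real.cos_neg_of_pi_div_two_lt_of_lt (by linarith) (by linarith)
    nlinarith [mul_pos g1 (neg_pos.2 g2)]

private theorem mu_eq {r k a b : ℕ} (h : sin (π * a / k) ≠ 0) :
    mu r k a b = (sin (π * a / k) + cos (π * b / (r + 1))) / sin (π * a / k) := by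
  rw [mu, add_div, div_self h]

private theorem even_sign {h a b : ℕ} (ha : 1 ≤ a) (ha' : a < 4 * h + 2) (hb : 1 ≤ b)
    (hb' : b ≤ 2 * h) :
    ((2 * b < a + 2 * h + 1 ∧ a + 2 * b < 6 * h + 3) → 0 < mu (2 * h) (4 * h + 2) a b) ∧
      ((a + 2 * h + 1 < 2 * b ∨ 6 * h + 3 < a + 2 * b) → mu (2 * h) (4 * h + 2) a b < 0) := by
  obtain ⟨t, ht⟩ : ∃ t : ℝ, t = π / (4 * h + 2) := ⟨_, rfl⟩
  have ht0 : 0 < t := by rw [ht]; exact div_pos Real.pi_pos (by positivity)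
  have hπ : π = (4 * h + 2) * t := by rw [ht]; field_simp
  have hx : π * a / ((4 * h + 2 : ℕ) : ℝ) = a * t := by
    rw [ht]; push_cast; field_simp
  have hy : π * b / (((2 * h : ℕ) : ℝ) + 1) = 2 * b * t := by
    rw [ht]; push_cast; field_simp; ring
  have aR : (1 : ℝ) ≤ a := by exact_mod_cast ha
  have aR' : (a : ℝ) < 4 * h + 2 := by exact_mod_cast ha'
  have bR : (1 : ℝ) ≤ b := by exact_mod_cast hb
  have bR' : (b : ℝ) ≤ 2 * h := by exact_mod_cast hb'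
  have hx0 : 0 < (a : ℝ) * t := mul_pos (by linarith) ht0
  have hx1 : (a : ℝ) * t < π := by rw [hπ]; exact mul_lt_mul_of_pos_right aR' ht0
  have hy0 : 0 < 2 * (b : ℝ) * t := mul_pos (by linarith) ht0
  have hy1 : 2 * (b : ℝ) * t < π := by rw [hπ]; exact mul_lt_mul_of_pos_right (by linarith) ht0
  have hs : 0 < sin (a * t) := Real.sin_pos_of_pos_of_lt_pi hx0 hx1
  have hmu : mu (2 * h) (4 * h + 2) a b = (sin (a * t) + cos (2 * b * t)) / sin (a * t) := by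
    rw [mu_eq (by rw [hx]; exact hs.ne'), hx, hy]
  rw [hmu]
  refine ⟨fun hh => div_pos (sc_pos hx0 hx1 hy0 hy1 ?_ ?_) hs, fun hh =>
    div_neg_of_neg_of_pos (sc_neg hx0 hx1 hy0 hy1 ?_) hs⟩
  · have h1 : (2 * b : ℝ) < a + 2 * h + 1 := by exact_mod_cast hh.1
    have := mul_lt_mul_of_pos_right h1 ht0
    rw [hπ]; linarith
  · have h1 : (a + 2 * b : ℝ) < 6 * h + 3 := by exact_mod_cast hh.2
    have := mul_lt_mul_of_pos_right h1 ht0
    rw [hπ]; linarith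
  · rcases hh with hh | hh
    · left
      have h1 : (a + 2 * h + 1 : ℝ) < 2 * b := by exact_mod_cast hh
      have := mul_lt_mul_of_pos_right h1 ht0
      rw [hπ]; linarith
    · right
      have h1 : (6 * h + 3 : ℝ) < a + 2 * b := by exact_mod_cast hh
      have := mul_lt_mul_of_pos_right h1 ht0
      rw [hπ]; linarith

private theorem odd_sign {g a b : ℕ} (ha : 1 ≤ a) (ha' : a < 2 * g + 2) (hb : 1 ≤ b)
    (hb' : b ≤ 2 * g + 1) :
    ((b < a + g + 1 ∧ a + b < 3 * g + 3) → 0 < mu (2 * g + 1) (2 * g + 2) a b) ∧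
      ((a + g + 1 < b ∨ 3 * g + 3 < a + b) → mu (2 * g + 1) (2 * g + 2) a b < 0) := by
  obtain ⟨t, ht⟩ : ∃ t : ℝ, t = π / (2 * g + 2) := ⟨_, rfl⟩
  have ht0 : 0 < t := by rw [ht]; exact div_pos Real.pi_pos (by positivity)
  have hπ : π = (2 * g + 2) * t := by rw [ht]; field_simp
  have hx : π * a / ((2 * g + 2 : ℕ) : ℝ) = a * t := by
    rw [ht]; push_cast; field_simp
  have hy : π * b / (((2 * g + 1 : ℕ) : ℝ) + 1) = b * t := by
    rw [ht]; push_cast; field_simp; ring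
  have aR : (1 : ℝ) ≤ a := by exact_mod_cast ha
  have aR' : (a : ℝ) < 2 * g + 2 := by exact_mod_cast ha'
  have bR : (1 : ℝ) ≤ b := by exact_mod_cast hb
  have bR' : (b : ℝ) ≤ 2 * g + 1 := by exact_mod_cast hb'
  have hx0 : 0 < (a : ℝ) * t := mul_pos (by linarith) ht0
  have hx1 : (a : ℝ) * t < π := by rw [hπ]; exact mul_lt_mul_of_pos_right aR' ht0
  have hy0 : 0 < (b : ℝ) * t := mul_pos (by linarith) ht0
  have hy1 : (b : ℝ) * t < π := by rw [hπ]; exact mul_lt_mul_of_pos_right (by linarith) ht0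
  have hs : 0 < sin (a * t) := Real.sin_pos_of_pos_of_lt_pi hx0 hx1
  have hmu : mu (2 * g + 1) (2 * g + 2) a b = (sin (a * t) + cos (b * t)) / sin (a * t) := by
    rw [mu_eq (by rw [hx]; exact hs.ne'), hx, hy]
  rw [hmu]
  refine ⟨fun hh => div_pos (sc_pos hx0 hx1 hy0 hy1 ?_ ?_) hs, fun hh =>
    div_neg_of_neg_of_pos (sc_neg hx0 hx1 hy0 hy1 ?_) hs⟩
  · have h1 : (b : ℝ) < a + g + 1 := by exact_mod_cast hh.1
    have := mul_lt_mul_of_pos_right h1 ht0
    rw [hπ]; linarith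
  · have h1 : (a + b : ℝ) < 3 * g + 3 := by exact_mod_cast hh.2
    have := mul_lt_mul_of_pos_right h1 ht0
    rw [hπ]; linarith
  · rcases hh with hh | hh
    · left
      have h1 : (a + g + 1 : ℝ) < b := by exact_mod_cast hh
      have := mul_lt_mul_of_pos_right h1 ht0
      rw [hπ]; linarith
    · right
      have h1 : (3 * g + 3 : ℝ) < a + b := by exact_mod_cast hh
      have := mul_lt_mul_of_pos_right h1 ht0
      rw [hπ]; linarith

private theorem exists_sig (n c : ℕ) (lo hi : ℕ → ℕ) : ∃ s : Finset (ℕ × ℕ),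
    (∀ p ∈ s, ∃ i < n, p.2 = c + i ∧ lo i ≤ p.1 ∧ p.1 < hi i) ∧
      s.card = ∑ i ∈ range n, (hi i - lo i) := by
  refine ⟨((range n).sigma fun i => Ico (lo i) (hi i)).map
    ⟨fun q => (q.2, c + q.1), ?_⟩, ?_, ?_⟩
  · rintro ⟨i, a⟩ ⟨j, b⟩ hq
    simp only [Prod.mk.injEq, add_right_inj] at hq
    obtain ⟨h1, h2⟩ := hq
    subst h1 h2
    rfl
  · intro p hp
    rw [mem_map] at hp
    obtain ⟨⟨i, a⟩, hq, rfl⟩ := hp
    rw [mem_sigma, mem_range, mem_Ico] at hq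
    exact ⟨i, hq.1, rfl, hq.2.1, hq.2.2⟩
  · rw [card_map, card_sigma]
    simp only [Nat.card_Ico]

private theorem sum_lin (A B : ℤ) (m : ℕ) :
    2 * ∑ i ∈ range m, (A - B * (i : ℤ)) = 2 * m * A - B * m * (m - 1) := by
  induction m with
  | zero => simp
  | succ m ih =>
    rw [sum_range_succ, mul_add, ih]
    push_cast
    ring

theorem card_pos_even (h : ℕ) : ∃ s : Finset (ℕ × ℕ),
    (∀ p ∈ s, 1 ≤ p.1 ∧ p.1 < 4 * h + 2 ∧ 1 ≤ p.2 ∧ p.2 ≤ 2 * h ∧
      0 < mu (2 * h) (4 * h + 2) p.1 p.2) ∧ 6 * h ^ 2 + 2 * h ≤ s.card := by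
  obtain ⟨s1, hs1, hc1⟩ := exists_sig h 1 (fun _ => 1) (fun _ => 4 * h + 2)
  obtain ⟨s2, hs2, hc2⟩ := exists_sig h (h + 1) (fun i => 2 * i + 2) (fun i => 4 * h + 1 - 2 * i)
  refine ⟨s1 ∪ s2, fun p hp => ?_, ?_⟩
  · rcases mem_union.1 hp with hp | hp
    · obtain ⟨i, hi, h2, h3, h4⟩ := hs1 p hp
      have e1 : 1 ≤ p.1 := h3
      have e2 : p.1 < 4 * h + 2 := h4
      exact ⟨e1, e2, by omega, by omega,
        (even_sign e1 e2 (by omega) (by omega)).1 ⟨by omega, by omega⟩⟩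
    · obtain ⟨i, hi, h2, h3, h4⟩ := hs2 p hp
      have e1 : 2 * i + 2 ≤ p.1 := h3
      have e2 : p.1 < 4 * h + 1 - 2 * i := h4
      exact ⟨by omega, by omega, by omega, by omega,
        (even_sign (by omega) (by omega) (by omega) (by omega)).1 ⟨by omega, by omega⟩⟩
  · have hd : Disjoint s1 s2 := by
      rw [Finset.disjoint_left]
      intro p hp1 hp2
      obtain ⟨i, hi, h2, -⟩ := hs1 p hp1
      obtain ⟨j, hj, h3, -⟩ := hs2 p hp2
      omega
    rw [card_union_of_disjoint hd, hc1, hc2, sum_const, card_range, smul_eq_mul]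
    have e1 : ((∑ i ∈ range h, (4 * h + 1 - 2 * i - (2 * i + 2)) : ℕ) : ℤ) =
        ∑ i ∈ range h, ((4 * h - 1 : ℤ) - 4 * (i : ℤ)) := by
      rw [Nat.cast_sum]
      refine sum_congr rfl fun i hi => ?_
      have := mem_range.1 hi
      omega
    have e2 := sum_lin (4 * h - 1) 4 h
    have e3 : 4 * h + 2 - 1 = 4 * h + 1 := by omega
    rw [e3]
    zify
    rw [Nat.cast_sum] at e1
    nlinarith

theorem card_neg_even (h : ℕ) : ∃ s : Finset (ℕ × ℕ),
    (∀ p ∈ s, 1 ≤ p.1 ∧ p.1 < 4 * h + 2 ∧ 1 ≤ p.2 ∧ p.2 ≤ 2 * h ∧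
      mu (2 * h) (4 * h + 2) p.1 p.2 < 0) ∧ 2 * h ^ 2 ≤ s.card + 2 * h := by
  obtain ⟨s1, hs1, hc1⟩ := exists_sig h (h + 1) (fun _ => 1) (fun i => 2 * i + 1)
  obtain ⟨s2, hs2, hc2⟩ := exists_sig h (h + 1) (fun i => 4 * h + 2 - 2 * i) (fun _ => 4 * h + 2)
  refine ⟨s1 ∪ s2, fun p hp => ?_, ?_⟩
  · rcases mem_union.1 hp with hp | hp
    · obtain ⟨i, hi, h2, h3, h4⟩ := hs1 p hp
      have e1 : 1 ≤ p.1 := h3
      have e2 : p.1 < 2 * i + 1 := h4
      exact ⟨e1, by omega, by omega, by omega,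
        (even_sign e1 (by omega) (by omega) (by omega)).2 (Or.inl (by omega))⟩
    · obtain ⟨i, hi, h2, h3, h4⟩ := hs2 p hp
      have e1 : 4 * h + 2 - 2 * i ≤ p.1 := h3
      have e2 : p.1 < 4 * h + 2 := h4
      exact ⟨by omega, by omega, by omega, by omega,
        (even_sign (by omega) (by omega) (by omega) (by omega)).2 (Or.inr (by omega))⟩
  · have hd : Disjoint s1 s2 := by
      rw [Finset.disjoint_left]
      intro p hp1 hp2
      obtain ⟨i, hi, h2, h4, h5⟩ := hs1 p hp1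
      obtain ⟨j, hj, h3, h6, h7⟩ := hs2 p hp2
      have e1 : p.1 < 2 * i + 1 := h5
      have e2 : 4 * h + 2 - 2 * j ≤ p.1 := h6
      omega
    rw [card_union_of_disjoint hd, hc1, hc2]
    have e1 : ∑ i ∈ range h, (2 * i + 1 - 1) = ∑ i ∈ range h, 2 * i :=
      sum_congr rfl fun i _ => by omega
    have e2 : ∑ i ∈ range h, (4 * h + 2 - (4 * h + 2 - 2 * i)) = ∑ i ∈ range h, 2 * i :=
      sum_congr rfl fun i hi => by have := mem_range.1 hi; omega
    have e3 := sum_lin 0 (-2) h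
    have e4 : (∑ i ∈ range h, ((0 : ℤ) - (-2) * (i : ℤ))) = ((∑ i ∈ range h, 2 * i : ℕ) : ℤ) := by
      rw [Nat.cast_sum]
      exact sum_congr rfl fun i _ => by push_cast; ring
    rw [e4] at e3
    rw [e1, e2]
    zify at e3 ⊢
    nlinarith

theorem card_pos_odd (g : ℕ) : ∃ s : Finset (ℕ × ℕ),
    (∀ p ∈ s, 1 ≤ p.1 ∧ p.1 < 2 * g + 2 ∧ 1 ≤ p.2 ∧ p.2 ≤ 2 * g + 1 ∧
      0 < mu (2 * g + 1) (2 * g + 2) p.1 p.2) ∧ 3 * g ^ 2 + 3 * g + 1 ≤ s.card := by
  obtain ⟨s1, hs1, hc1⟩ := exists_sig (g + 1) 1 (fun _ => 1) (fun _ => 2 * g + 2)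
  obtain ⟨s2, hs2, hc2⟩ := exists_sig g (g + 2) (fun i => i + 2) (fun i => 2 * g + 1 - i)
  refine ⟨s1 ∪ s2, fun p hp => ?_, ?_⟩
  · rcases mem_union.1 hp with hp | hp
    · obtain ⟨i, hi, h2, h3, h4⟩ := hs1 p hp
      have e1 : 1 ≤ p.1 := h3
      have e2 : p.1 < 2 * g + 2 := h4
      exact ⟨e1, e2, by omega, by omega,
        (odd_sign e1 e2 (by omega) (by omega)).1 ⟨by omega, by omega⟩⟩
    · obtain ⟨i, hi, h2, h3, h4⟩ := hs2 p hp
      have e1 : i + 2 ≤ p.1 := h3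
      have e2 : p.1 < 2 * g + 1 - i := h4
      exact ⟨by omega, by omega, by omega, by omega,
        (odd_sign (by omega) (by omega) (by omega) (by omega)).1 ⟨by omega, by omega⟩⟩
  · have hd : Disjoint s1 s2 := by
      rw [Finset.disjoint_left]
      intro p hp1 hp2
      obtain ⟨i, hi, h2, -⟩ := hs1 p hp1
      obtain ⟨j, hj, h3, -⟩ := hs2 p hp2
      omega
    rw [card_union_of_disjoint hd, hc1, hc2, sum_const, card_range, smul_eq_mul]
    have e1 : ((∑ i ∈ range g, (2 * g + 1 - i - (i + 2)) : ℕ) : ℤ) =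
        ∑ i ∈ range g, ((2 * g - 1 : ℤ) - 2 * (i : ℤ)) := by
      rw [Nat.cast_sum]
      refine sum_congr rfl fun i hi => ?_
      have := mem_range.1 hi
      omega
    have e2 := sum_lin (2 * g - 1) 2 g
    have e3 : 2 * g + 2 - 1 = 2 * g + 1 := by omega
    rw [e3]
    zify
    rw [Nat.cast_sum] at e1
    nlinarith

theorem card_neg_odd (g : ℕ) : ∃ s : Finset (ℕ × ℕ),
    (∀ p ∈ s, 1 ≤ p.1 ∧ p.1 < 2 * g + 2 ∧ 1 ≤ p.2 ∧ p.2 ≤ 2 * g + 1 ∧
      mu (2 * g + 1) (2 * g + 2) p.1 p.2 < 0) ∧ g ^ 2 ≤ s.card + g := by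
  obtain ⟨s1, hs1, hc1⟩ := exists_sig g (g + 2) (fun _ => 1) (fun i => i + 1)
  obtain ⟨s2, hs2, hc2⟩ := exists_sig g (g + 2) (fun i => 2 * g + 2 - i) (fun _ => 2 * g + 2)
  refine ⟨s1 ∪ s2, fun p hp => ?_, ?_⟩
  · rcases mem_union.1 hp with hp | hp
    · obtain ⟨i, hi, h2, h3, h4⟩ := hs1 p hp
      have e1 : 1 ≤ p.1 := h3
      have e2 : p.1 < i + 1 := h4
      exact ⟨e1, by omega, by omega, by omega,
        (odd_sign e1 (by omega) (by omega) (by omega)).2 (Or.inl (by omega))⟩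
    · obtain ⟨i, hi, h2, h3, h4⟩ := hs2 p hp
      have e1 : 2 * g + 2 - i ≤ p.1 := h3
      have e2 : p.1 < 2 * g + 2 := h4
      exact ⟨by omega, by omega, by omega, by omega,
        (odd_sign (by omega) (by omega) (by omega) (by omega)).2 (Or.inr (by omega))⟩
  · have hd : Disjoint s1 s2 := by
      rw [Finset.disjoint_left]
      intro p hp1 hp2
      obtain ⟨i, hi, h2, h4, h5⟩ := hs1 p hp1
      obtain ⟨j, hj, h3, h6, h7⟩ := hs2 p hp2
      have e1 : p.1 < i + 1 := h5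
      have e2 : 2 * g + 2 - j ≤ p.1 := h6
      omega
    rw [card_union_of_disjoint hd, hc1, hc2]
    have e1 : ∑ i ∈ range g, (i + 1 - 1) = ∑ i ∈ range g, i :=
      sum_congr rfl fun i _ => by omega
    have e2 : ∑ i ∈ range g, (2 * g + 2 - (2 * g + 2 - i)) = ∑ i ∈ range g, i :=
      sum_congr rfl fun i hi => by have := mem_range.1 hi; omega
    have e3 := sum_lin 0 (-1) g
    have e4 : (∑ i ∈ range g, ((0 : ℤ) - (-1) * (i : ℤ))) = ((∑ i ∈ range g, i : ℕ) : ℤ) := by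
      rw [Nat.cast_sum]
      exact sum_congr rfl fun i _ => by push_cast; ring
    rw [e4] at e3
    rw [e1, e2]
    zify at e3 ⊢
    nlinarith

end Pool.Agent.H53.HB
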