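import Pool.Agent.H53.HB.Defs

/-!
# Full twists act trivially on homology

Sketch. Let `T i = tv (av i)` and `N = T 0 * T 1 * ⋯ * T (r-1)` (product of maps, `T (r-1)` acts
first). With `ch (av i) (av (i+1)) = 1` one gets `N (av i) = av (i+1)` for `i + 1 < r`, and
`N (av (r-1)) = d` with `N d = (-1)^(r-1) av 0`. Hence `N^(r+1) = (-1)^(r+1)` on the
span `W` of `av 0, …, av (r-1)`. For `r = 2 h + 1 = m` this is everything. For `r = 2 h` and every
`u` one has `N u - u ∈ W`, so `P = N^(2h+1)` has `P (P u - u) = - (P u - u)`, that is `P^2 = 1`.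
-/

namespace Pool.Agent.H53.HB

open Module

private noncomputable def coxT (m i : ℕ) : (Fin m → ℝ) ≃ₗ[ℝ] (Fin m → ℝ) :=
  tv (ch m) (ch_alt m) (av m i)

private noncomputable def coxN (m r : ℕ) : (Fin m → ℝ) ≃ₗ[ℝ] (Fin m → ℝ) :=
  ((List.range r).map (coxT m)).prod

private lemma cox_rho (m r : ℕ) (h : r ≤ m) : rho m (tw m r) = coxN m r ^ (r + 1) := by
  rw [tw, map_pow, map_list_prod, List.map_map, coxN]
  congr 2
  apply List.map_congr_left
  intro i hi
  rw [List.mem_range] at hi
  exact rho_sig m i (by omega)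

private lemma cox_zero (m : ℕ) (u : Fin m → ℝ) : coxN m 0 u = u := by
  simp [coxN]

private lemma cox_succ (m r : ℕ) (u : Fin m → ℝ) : coxN m (r + 1) u = coxN m r (coxT m r u) := by
  rw [coxN, List.range_succ, List.map_append, List.prod_append, List.map_singleton,
    List.prod_singleton, LinearEquiv.mul_apply, coxN]

private lemma coxT_apply (m i : ℕ) (u : Fin m → ℝ) :
    coxT m i u = u + ch m u (av m i) • av m i := by
  rw [coxT, tv_apply]

private lemma coxT_far (m i j : ℕ) (hi : i < m) (hj : j < m) (h : i + 2 ≤ j ∨ j + 2 ≤ i) :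
    coxT m i (av m j) = av m j := by
  rw [coxT_apply, ch_av m j i hj hi, if_neg (by omega), if_neg (by omega), zero_smul, add_zero]

private lemma coxT_self (m i : ℕ) : coxT m i (av m i) = av m i := by
  rw [coxT_apply, (ch_alt m).self_eq_zero, zero_smul, add_zero]

private lemma coxT_next (m i : ℕ) (hi : i + 1 < m) : coxT m (i + 1) (av m i) = av m i + av m (i + 1) := by
  rw [coxT_apply, ch_av m i (i + 1) (by omega) hi, if_pos rfl, one_smul]

private lemma coxT_prev (m i : ℕ) (hi : i + 1 < m) : coxT m i (av m (i + 1)) = av m (i + 1) - av m i := by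
  rw [coxT_apply, ch_av m (i + 1) i hi (by omega), if_neg (by omega), if_pos rfl, neg_smul, one_smul,
    sub_eq_add_neg]

private lemma coxN_far (m r j : ℕ) (hj : j < m) (h : r + 1 ≤ j) : coxN m r (av m j) = av m j := by
  induction r with
  | zero => exact cox_zero m _
  | succ r ih =>
    rw [cox_succ, coxT_far m r j (by omega) hj (Or.inl (by omega)), ih (by omega)]

private lemma coxN_shift (m r i : ℕ) (hr : r ≤ m) (h : i + 1 < r) :
    coxN m r (av m i) = av m (i + 1) := by
  induction r with
  | zero => omega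
  | succ r ih =>
    rcases Nat.lt_or_ge (i + 1) r with h1 | h1
    · rw [cox_succ, coxT_far m r i (by omega) (by omega) (Or.inr (by omega)), ih (by omega) h1]
    · obtain rfl : r = i + 1 := by omega
      rw [cox_succ, coxT_next m i (by omega), cox_succ, map_add, coxT_self, coxT_prev m i (by omega),
        add_sub_cancel, coxN_far m i (i + 1) (by omega) (by omega)]

private lemma coxN_last (m s : ℕ) : coxN m (s + 1) (av m s) = coxN m s (av m s) := by
  rw [cox_succ, coxT_self]

private lemma coxD_succ (m s : ℕ) (h : s + 1 < m) :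
    coxN m (s + 1) (av m (s + 1)) = av m (s + 1) - coxN m s (av m s) := by
  rw [cox_succ, coxT_prev m s h, map_sub, coxN_far m s (s + 1) h (by omega)]

private lemma coxD_shift (m R s : ℕ) (hR : R ≤ m) (h : s + 1 < R) :
    coxN m R (coxN m s (av m s)) = coxN m (s + 1) (av m (s + 1)) + (-1 : ℝ) ^ s • av m 0 := by
  induction s with
  | zero =>
    rw [cox_zero, coxN_shift m R 0 hR h, coxD_succ m 0 (by omega), cox_zero, pow_zero, one_smul,
      sub_add_cancel]
  | succ s ih =>
    rw [coxD_succ m s (by omega), map_sub, coxN_shift m R (s + 1) hR h, ih (by omega),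
      coxD_succ m (s + 1) (by omega), pow_succ]
    module

private lemma coxD_end (m s : ℕ) (h : s + 1 ≤ m) :
    coxN m (s + 1) (coxN m s (av m s)) = (-1 : ℝ) ^ s • av m 0 := by
  cases s with
  | zero => rw [cox_zero, coxN_last, cox_zero, pow_zero, one_smul]
  | succ s =>
    rw [coxD_succ m s (by omega), map_sub, coxN_last, coxD_shift m (s + 2) s h (by omega), pow_succ]
    module

private lemma cox_pow (m r k : ℕ) (hr : r ≤ m) (h : k < r) :
    (coxN m r ^ k) (av m 0) = av m k := by
  induction k with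
  | zero => simp
  | succ k ih => rw [pow_succ', LinearEquiv.mul_apply, ih (by omega), coxN_shift m r k hr h]

private lemma cox_full0 (m s : ℕ) (h : s + 1 ≤ m) :
    (coxN m (s + 1) ^ (s + 2)) (av m 0) = (-1 : ℝ) ^ s • av m 0 := by
  rw [pow_succ', LinearEquiv.mul_apply, pow_succ', LinearEquiv.mul_apply,
    cox_pow m (s + 1) s h (by omega), coxN_last, coxD_end m s h]

private lemma cox_full (m s i : ℕ) (h : s + 1 ≤ m) (hi : i < s + 1) :
    (coxN m (s + 1) ^ (s + 2)) (av m i) = (-1 : ℝ) ^ s • av m i := by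
  rw [← cox_pow m (s + 1) i h hi, ← LinearEquiv.mul_apply, ← pow_add, add_comm (s + 2) i, pow_add,
    LinearEquiv.mul_apply, cox_full0 m s h, map_smul]

private def coxW (m r : ℕ) : Submodule ℝ (Fin m → ℝ) := Submodule.span ℝ {v | ∃ i < r, v = av m i}

private lemma cox_fullW (m s : ℕ) (h : s + 1 ≤ m) (w : Fin m → ℝ) (hw : w ∈ coxW m (s + 1)) :
    (coxN m (s + 1) ^ (s + 2)) w = (-1 : ℝ) ^ s • w := by
  induction hw using Submodule.span_induction with
  | mem x hx =>
    obtain ⟨i, hi, rfl⟩ := hx
    exact cox_full m s i h hi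
  | zero => simp
  | add x y _ _ hx hy => rw [map_add, hx, hy, smul_add]
  | smul a x _ hx => rw [map_smul, hx, smul_comm]

private lemma coxN_sub (m r R : ℕ) (hr : r ≤ R) (u : Fin m → ℝ) : coxN m r u - u ∈ coxW m R := by
  induction r generalizing u with
  | zero => rw [cox_zero, sub_self]; exact Submodule.zero_mem _
  | succ r ih =>
    rw [cox_succ]
    have h1 := ih (by omega) (coxT m r u)
    have h2 : coxT m r u - u ∈ coxW m R := by
      rw [coxT_apply, add_sub_cancel_left]
      exact Submodule.smul_mem _ _ (Submodule.subset_span ⟨r, by omega, rfl⟩)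
    have := Submodule.add_mem _ h1 h2
    simpa using this

private lemma coxP_sub (m r k : ℕ) (u : Fin m → ℝ) : (coxN m r ^ k) u - u ∈ coxW m r := by
  induction k generalizing u with
  | zero => simp
  | succ k ih =>
    rw [pow_succ, LinearEquiv.mul_apply]
    have := Submodule.add_mem _ (ih (coxN m r u)) (coxN_sub m r r le_rfl u)
    simpa using this

/-- the square of the full twist on an odd number of strands acts trivially -/
theorem rho_tw_even (m h : ℕ) (hm : 2 * h ≤ m) : rho m (tw m (2 * h) ^ 2) = 1 := by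
  rw [map_pow, cox_rho m (2 * h) hm]
  rcases Nat.eq_zero_or_pos h with rfl | hpos
  · have : coxN m 0 = 1 := by
      ext u
      simp [cox_zero]
    simp [this]
  · obtain ⟨s, hs⟩ : ∃ s, 2 * h = s + 1 := ⟨2 * h - 1, by omega⟩
    rw [hs]
    apply LinearEquiv.ext
    intro u
    rw [pow_two, LinearEquiv.mul_apply]
    change _ = u
    have h1 := cox_fullW m s (by omega) _ (coxP_sub m (s + 1) (s + 1 + 1) u)
    have hodd : Odd s := ⟨h - 1, by omega⟩
    rw [show s + 2 = s + 1 + 1 from rfl, map_sub, hodd.neg_one_pow, neg_smul, one_smul, neg_sub] at h1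
    have h2 : (coxN m (s + 1) ^ (s + 1 + 1)) ((coxN m (s + 1) ^ (s + 1 + 1)) u) =
        ((coxN m (s + 1) ^ (s + 1 + 1)) ((coxN m (s + 1) ^ (s + 1 + 1)) u) -
          (coxN m (s + 1) ^ (s + 1 + 1)) u) + (coxN m (s + 1) ^ (s + 1 + 1)) u := by
      rw [sub_add_cancel]
    rw [h2, h1, sub_add_cancel]

/-- the full twist on an odd number of strands acts as `-1` on the classes of its chain -/
theorem rho_tw_neg (m h i : ℕ) (hm : 2 * h ≤ m) (hi : i < 2 * h) :
    rho m (tw m (2 * h)) (av m i) = -av m i := by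
  rw [cox_rho m (2 * h) hm]
  obtain ⟨s, hs⟩ : ∃ s, 2 * h = s + 1 := ⟨2 * h - 1, by omega⟩
  have hodd : Odd s := ⟨h - 1, by omega⟩
  rw [hs]
  have h1 := cox_full m s i (by omega) (by omega)
  rw [hodd.neg_one_pow, neg_smul, one_smul] at h1
  exact h1

/-- the full twist on all strands, if their number is even, acts trivially -/
theorem rho_tw_odd (g : ℕ) : rho (2 * g + 1) (tw (2 * g + 1) (2 * g + 1)) = 1 := by
  rw [cox_rho (2 * g + 1) (2 * g + 1) le_rfl]
  apply LinearEquiv.ext
  intro u
  have hu : u ∈ coxW (2 * g + 1) (2 * g + 1) := by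
    have : u = ∑ i : Fin (2 * g + 1), u i • av (2 * g + 1) i := by
      ext j
      rw [Finset.sum_apply, Finset.sum_eq_single j]
      · simp [av]
      · intro b _ hb
        have : (j : ℕ) ≠ b := fun h => hb (Fin.ext h.symm)
        simp [av, this]
      · intro h
        exact absurd (Finset.mem_univ _) h
    rw [this]
    exact Submodule.sum_mem _ fun i _ => Submodule.smul_mem _ _
      (Submodule.subset_span ⟨i, i.2, rfl⟩)
  rw [cox_fullW (2 * g + 1) (2 * g) le_rfl u hu, (even_two_mul g).neg_one_pow, one_smul]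
  rfl

end Pool.Agent.H53.HB
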