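import Mathlib

/-!
# Factorizations in braid groups and the forms of their vanishing cycles

`word ω w` is, for a list `w` of signed vectors of a space `U` with an alternating form `ω`, the
space of coefficient families with the Seifert type form `L` and the map `V` to `U`.
`Braid m` is the braid group on `m + 1` strands, `rho m` its (skew) reduced Burau representation
at `-1`, that is the action on the first homology of the hyperelliptic curve.
-/

namespace Pool.Agent.H53.HB

open Module

section Index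

variable {E : Type} [AddCommGroup E] [Module ℝ E]

/-- the positive index of `q`: the largest dimension of a subspace on which `q` is positive
(away from `0`) -/
noncomputable def posIdx (q : E → ℝ) : ℕ :=
  sSup {r : ℕ | ∃ P : Submodule ℝ E, (∀ x ∈ P, x ≠ 0 → 0 < q x) ∧ Module.finrank ℝ P = r}

/-- the negative index of `q` -/
noncomputable def negIdx (q : E → ℝ) : ℕ := posIdx (fun x => -q x)

end Index

/-- a finite-dimensional space with a bilinear form `L` and a linear map `V` to `U` -/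
structure Dat (U : Type) [AddCommGroup U] [Module ℝ U] where
  E : Type
  [grp : AddCommGroup E]
  [mod : Module ℝ E]
  [fin : FiniteDimensional ℝ E]
  L : E →ₗ[ℝ] E →ₗ[ℝ] ℝ
  V : E →ₗ[ℝ] U

attribute [instance] Dat.grp Dat.mod Dat.fin

variable {U : Type} [AddCommGroup U] [Module ℝ U]

namespace Dat

/-- the quadratic form of `L` -/
def q (D : Dat U) (x : D.E) : ℝ := D.L x x

/-- the zero space -/
def one : Dat U where
  E := PUnit
  L := 0
  V := 0

/-- the line with the form `ε x y` and the map `x ↦ x v` -/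
noncomputable def single (ε : ℝ) (v : U) : Dat U where
  E := ℝ
  L := ε • LinearMap.mul ℝ ℝ
  V := LinearMap.toSpanSingleton ℝ U v

/-- the product: `L ((x, y), (x', y')) = L (x, x') + L (y, y') + ω (V x, V y')` -/
noncomputable def mul (ω : U →ₗ[ℝ] U →ₗ[ℝ] ℝ) (A B : Dat U) : Dat U where
  E := A.E × B.E
  L := A.L.compl₁₂ (LinearMap.fst ℝ A.E B.E) (LinearMap.fst ℝ A.E B.E) +
    B.L.compl₁₂ (LinearMap.snd ℝ A.E B.E) (LinearMap.snd ℝ A.E B.E) +
    ω.compl₁₂ (A.V ∘ₗ LinearMap.fst ℝ A.E B.E) (B.V ∘ₗ LinearMap.snd ℝ A.E B.E)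
  V := A.V.coprod B.V

/-- isomorphism of the quadratic forms together with the maps to `U` -/
def Iso (A B : Dat U) : Prop :=
  ∃ e : A.E ≃ₗ[ℝ] B.E, (∀ x, B.q (e x) = A.q x) ∧ ∀ x, B.V (e x) = A.V x

lemma one_q (x : (one : Dat U).E) : (one : Dat U).q x = 0 := rfl

lemma one_L (x y : (one : Dat U).E) : (one : Dat U).L x y = 0 := rfl

lemma one_V (x : (one : Dat U).E) : (one : Dat U).V x = 0 := rfl

lemma single_L (ε : ℝ) (v : U) (x y : ℝ) : (single ε v).L x y = ε * (x * y) := rfl

lemma single_q (ε : ℝ) (v : U) (x : ℝ) : (single ε v).q x = ε * (x * x) := rfl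

lemma single_V (ε : ℝ) (v : U) (x : ℝ) : (single ε v).V x = x • v := rfl

lemma mul_L (ω : U →ₗ[ℝ] U →ₗ[ℝ] ℝ) (A B : Dat U) (x x' : A.E) (y y' : B.E) :
    (mul ω A B).L (x, y) (x', y') = A.L x x' + B.L y y' + ω (A.V x) (B.V y') := rfl

lemma mul_q (ω : U →ₗ[ℝ] U →ₗ[ℝ] ℝ) (A B : Dat U) (x : A.E) (y : B.E) :
    (mul ω A B).q (x, y) = A.q x + B.q y + ω (A.V x) (B.V y) := rfl

lemma mul_V (ω : U →ₗ[ℝ] U →ₗ[ℝ] ℝ) (A B : Dat U) (x : A.E) (y : B.E) :
    (mul ω A B).V (x, y) = A.V x + B.V y := rfl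

/-- the form `L` has the antisymmetric part `ω` -/
def Skew (ω : U →ₗ[ℝ] U →ₗ[ℝ] ℝ) (D : Dat U) : Prop :=
  ∀ x y, D.L x y - D.L y x = ω (D.V x) (D.V y)

/-- `M` is the monodromy of `D`, with the map `Y` -/
def HasMon (ω : U →ₗ[ℝ] U →ₗ[ℝ] ℝ) (D : Dat U) (Y : U →ₗ[ℝ] D.E) (M : U →ₗ[ℝ] U) : Prop :=
  (∀ u z, D.L (Y u) z = ω u (D.V z)) ∧ ∀ u, D.V (Y u) = u - M u

end Dat

/-- the sign of a letter -/
def sgn (b : Bool) : ℝ := if b then 1 else -1

/-- the data of a list of signed vectors -/
noncomputable def word (ω : U →ₗ[ℝ] U →ₗ[ℝ] ℝ) : List (Bool × U) → Dat U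
  | [] => Dat.one
  | a :: w => Dat.mul ω (Dat.single (sgn a.1) a.2) (word ω w)

/-- the signature of the form of a list of signed vectors -/
noncomputable def sg (ω : U →ₗ[ℝ] U →ₗ[ℝ] ℝ) (w : List (Bool × U)) : ℤ :=
  (posIdx (word ω w).q : ℤ) - negIdx (word ω w).q

/-- the transvection `u ↦ u + ω (u, v) v` -/
noncomputable def tv (ω : U →ₗ[ℝ] U →ₗ[ℝ] ℝ) (hω : ω.IsAlt) (v : U) : U ≃ₗ[ℝ] U :=
  LinearEquiv.ofLinearMap
    (LinearMap.id + (LinearMap.toSpanSingleton ℝ U v) ∘ₗ (ω.flip v))
    (LinearMap.id - (LinearMap.toSpanSingleton ℝ U v) ∘ₗ (ω.flip v))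
    (by ext u; simp [hω.self_eq_zero v])
    (by ext u; simp [hω.self_eq_zero v])

lemma tv_apply (ω : U →ₗ[ℝ] U →ₗ[ℝ] ℝ) (hω : ω.IsAlt) (v u : U) :
    tv ω hω v u = u + ω u v • v := rfl

lemma tv_inv_apply (ω : U →ₗ[ℝ] U →ₗ[ℝ] ℝ) (hω : ω.IsAlt) (v u : U) :
    (tv ω hω v)⁻¹ u = u - ω u v • v := rfl

/-- the braid relation for transvections -/
lemma tv_braid (ω : U →ₗ[ℝ] U →ₗ[ℝ] ℝ) (hω : ω.IsAlt) (a b : U) (h : ω a b = 1) :
    tv ω hω a * tv ω hω b * tv ω hω a = tv ω hω b * tv ω hω a * tv ω hω b := by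
  have h' : ω b a = -1 := by rw [← hω.neg, h]
  have ha := hω.self_eq_zero a
  have hb := hω.self_eq_zero b
  ext u
  simp only [LinearEquiv.mul_apply, tv_apply, map_add, map_smul, LinearMap.add_apply,
    LinearMap.smul_apply, h, h', ha, hb, smul_eq_mul]
  module

lemma tv_comm (ω : U →ₗ[ℝ] U →ₗ[ℝ] ℝ) (hω : ω.IsAlt) (a b : U) (h : ω a b = 0) :
    tv ω hω a * tv ω hω b = tv ω hω b * tv ω hω a := by
  have h' : ω b a = 0 := by rw [← hω.neg, h, neg_zero]
  ext u
  simp only [LinearEquiv.mul_apply, tv_apply, map_add, map_smul, LinearMap.add_apply,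
    LinearMap.smul_apply, h, h', smul_eq_mul]
  module

section Braid

/-- the relations of the braid group with `m` generators -/
def rels (m : ℕ) : Set (FreeGroup (Fin m)) :=
  {r | ∃ i j : Fin m,
    ((i : ℕ) + 1 = j ∧ r = FreeGroup.of i * FreeGroup.of j * FreeGroup.of i *
      (FreeGroup.of j * FreeGroup.of i * FreeGroup.of j)⁻¹) ∨
    ((i : ℕ) + 2 ≤ j ∧ r = FreeGroup.of i * FreeGroup.of j *
      (FreeGroup.of j * FreeGroup.of i)⁻¹)}

/-- the braid group on `m + 1` strands -/
abbrev Braid (m : ℕ) : Type := PresentedGroup (rels m)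

/-- the generator with the number `i` (starting with `0`), and `1` if `m ≤ i` -/
def sig (m i : ℕ) : Braid m := if h : i < m then PresentedGroup.of ⟨i, h⟩ else 1

/-- the full twist on the first `r + 1` strands -/
def tw (m r : ℕ) : Braid m := ((List.range r).map (sig m)).prod ^ (r + 1)

/-- the matrix of the intersection form of a chain of `m` curves -/
def cm (m : ℕ) : Matrix (Fin m) (Fin m) ℝ :=
  Matrix.of fun i j => if (i : ℕ) + 1 = j then 1 else if (j : ℕ) + 1 = i then -1 else 0

/-- the intersection form of a chain of `m` curves -/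
noncomputable def ch (m : ℕ) : (Fin m → ℝ) →ₗ[ℝ] (Fin m → ℝ) →ₗ[ℝ] ℝ :=
  Matrix.toLinearMap₂' ℝ (cm m)

/-- the class of the curve with the number `i`, and `0` if `m ≤ i` -/
def av (m i : ℕ) : Fin m → ℝ := fun j => if (j : ℕ) = i then 1 else 0

lemma ch_apply (m : ℕ) (x y : Fin m → ℝ) :
    ch m x y = ∑ i, ∑ j, x i * (y j * cm m i j) := by
  rw [ch, Matrix.toLinearMap₂'_apply]
  simp [smul_eq_mul]

lemma ch_alt (m : ℕ) : (ch m).IsAlt := by
  intro x
  have h : ch m x x = -ch m x x := by
    conv_lhs => rw [ch_apply, Finset.sum_comm]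
    rw [ch_apply, ← Finset.sum_neg_distrib]
    refine Finset.sum_congr rfl (fun i _ => ?_)
    rw [← Finset.sum_neg_distrib]
    refine Finset.sum_congr rfl (fun j _ => ?_)
    have : cm m j i = -cm m i j := by
      simp only [cm, Matrix.of_apply]
      split_ifs <;> first | omega | simp
    rw [this]
    ring
  linarith

lemma ch_av (m i j : ℕ) (hi : i < m) (hj : j < m) :
    ch m (av m i) (av m j) = if i + 1 = j then 1 else if j + 1 = i then -1 else 0 := by
  rw [ch_apply, Finset.sum_eq_single (⟨i, hi⟩ : Fin m), Finset.sum_eq_single (⟨j, hj⟩ : Fin m)]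
  · simp [av, cm]
  · intro b _ hb
    have : (b : ℕ) ≠ j := fun h => hb (Fin.ext h)
    simp [av, this]
  · intro h
    exact absurd (Finset.mem_univ _) h
  · intro b _ hb
    have : (b : ℕ) ≠ i := fun h => hb (Fin.ext h)
    simp [av, this]
  · intro h
    exact absurd (Finset.mem_univ _) h

/-- the action of the braid group on the homology of the hyperelliptic curve: the generator with
the number `i` acts as the transvection along the class of the curve with the number `i` -/
noncomputable def rho (m : ℕ) : Braid m →* ((Fin m → ℝ) ≃ₗ[ℝ] (Fin m → ℝ)) :=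
  PresentedGroup.toGroup (f := fun i : Fin m => tv (ch m) (ch_alt m) (av m i)) (by
    rintro r ⟨i, j, ⟨hij, rfl⟩ | ⟨hij, rfl⟩⟩
    · simp only [map_mul, map_inv, FreeGroup.lift_apply_of]
      rw [mul_inv_eq_one]
      refine tv_braid _ _ _ _ ?_
      rw [ch_av m i j i.2 j.2, if_pos hij]
    · simp only [map_mul, map_inv, FreeGroup.lift_apply_of]
      rw [mul_inv_eq_one]
      refine tv_comm _ _ _ _ ?_
      rw [ch_av m i j i.2 j.2, if_neg (by omega), if_neg (by omega)])

lemma rho_sig (m i : ℕ) (hi : i < m) : rho m (sig m i) = tv (ch m) (ch_alt m) (av m i) := by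
  rw [sig, dif_pos hi, rho, PresentedGroup.toGroup.of]

/-- the factor of type `h`: a half twist for `h = 0`, the square of the full twist on `2 h + 1`
strands for `h ≥ 1` -/
def fac (m h : ℕ) : Braid m := if h = 0 then sig m 0 else tw m (2 * h) ^ 2

/-- the product of the factors `c fac(h) c⁻¹` for the pairs `(c, h)` of a list -/
def fprod (m : ℕ) (F : List (Braid m × ℕ)) : Braid m :=
  (F.map fun p => p.1 * fac m p.2 * p.1⁻¹).prod

/-- the homology classes of the vanishing cycles of a factorization: the vanishing cycle of a half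
twist is the image of the first curve, the one of a factor of type `h ≥ 1` separates the fibre -/
noncomputable def vc (m : ℕ) (F : List (Braid m × ℕ)) : List (Bool × (Fin m → ℝ)) :=
  F.map fun p => (true, if p.2 = 0 then rho m p.1 (av m 0) else 0)

/-- the families of coefficients whose combination of the vanishing cycles is zero in the homology
of the closed fibre -/
noncomputable def Ker (m : ℕ) (w : List (Bool × (Fin m → ℝ))) :
    Submodule ℝ (word (ch m) w).E :=
  LinearMap.ker ((ch m).flip ∘ₗ (word (ch m) w).V)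

end Braid

end Pool.Agent.H53.HB
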