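import Pool.Agent.H53.HB.Defs

/-!
# Rank and dual families of the chain form

Sketch. `rank_odd`: the vector `∑ i ≤ g, av (2 i)` is in the kernel of `(ch (2 g + 1)).flip`.
`exists_dual`: for `i` odd `u i = ∑ (e even, e < i) av e`, for `i` even
`u i = -∑ (e odd, i < e < 2 h) av e`.
-/

namespace Pool.Agent.H53.HB

open Module

/-- the rank of the chain form -/
theorem rank_even (g : ℕ) : finrank ℝ (LinearMap.range (ch (2 * g)).flip) ≤ 2 * g := by
  have h := LinearMap.finrank_range_le (ch (2 * g)).flip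
  rwa [finrank_fin_fun] at h

private lemma dual_right (m : ℕ) (x : Fin m → ℝ) (j : ℕ) (hj : j < m) :
    ch m x (av m j) = (∑ i : Fin m, if (i : ℕ) + 1 = j then x i else 0) -
      ∑ i : Fin m, if j + 1 = (i : ℕ) then x i else 0 := by
  rw [ch_apply, ← Finset.sum_sub_distrib]
  refine Finset.sum_congr rfl fun i _ => ?_
  rw [Finset.sum_eq_single (⟨j, hj⟩ : Fin m)]
  · simp only [av, cm, Matrix.of_apply, if_true, one_mul]
    by_cases h1 : (i : ℕ) + 1 = j
    · rw [if_pos h1, if_pos h1, if_neg (by omega)]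
      ring
    · by_cases h2 : j + 1 = (i : ℕ)
      · rw [if_neg h1, if_neg h1, if_pos h2, if_pos h2]
        ring
      · rw [if_neg h1, if_neg h1, if_neg h2, if_neg h2]
        ring
  · intro b _ hb
    have : (b : ℕ) ≠ j := fun h => hb (Fin.ext h)
    simp [av, this]
  · intro h
    exact absurd (Finset.mem_univ _) h

private lemma dual_fun (m : ℕ) (y : ℕ → ℝ) (j : ℕ) (hj : j < m) :
    ch m (fun i : Fin m => y i) (av m j) =
      (if 0 < j then y (j - 1) else 0) - (if j + 1 < m then y (j + 1) else 0) := by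
  rw [dual_right m _ j hj]
  congr 1
  · by_cases h : 0 < j
    · rw [if_pos h, Finset.sum_eq_single (⟨j - 1, by omega⟩ : Fin m)]
      · rw [if_pos (by simp only; omega)]
      · intro b _ hb
        rw [if_neg]
        intro h2
        exact hb (Fin.ext (by simp only; omega))
      · intro h2
        exact absurd (Finset.mem_univ _) h2
    · rw [if_neg h]
      refine Finset.sum_eq_zero fun i _ => ?_
      rw [if_neg (by omega)]
  · by_cases h : j + 1 < m
    · rw [if_pos h, Finset.sum_eq_single (⟨j + 1, h⟩ : Fin m)]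
      · rw [if_pos rfl]
      · intro b _ hb
        rw [if_neg]
        intro h2
        exact hb (Fin.ext h2.symm)
      · intro h2
        exact absurd (Finset.mem_univ _) h2
    · rw [if_neg h]
      refine Finset.sum_eq_zero fun i _ => ?_
      rw [if_neg]
      intro h2
      have := i.2
      omega

/-- a vector orthogonal to the classes of the chain is in the radical -/
theorem span_av (m : ℕ) (u : Fin m → ℝ) : u = ∑ i : Fin m, u i • av m i := by
  ext k
  rw [Finset.sum_apply, Finset.sum_eq_single k]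
  · simp [av]
  · intro b _ hb
    have : (k : ℕ) ≠ b := fun h => hb (Fin.ext h.symm)
    simp [av, this]
  · intro h
    exact absurd (Finset.mem_univ _) h

theorem rank_odd (g : ℕ) : finrank ℝ (LinearMap.range (ch (2 * g + 1)).flip) ≤ 2 * g := by
  have h1 := LinearMap.finrank_range_add_finrank_ker (ch (2 * g + 1)).flip
  rw [finrank_fin_fun] at h1
  have h2 : 0 < finrank ℝ (LinearMap.ker (ch (2 * g + 1)).flip) := by
    let n : Fin (2 * g + 1) → ℝ := fun i => (fun k : ℕ => if k % 2 = 0 then (1 : ℝ) else 0) i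
    have hn : n ∈ LinearMap.ker (ch (2 * g + 1)).flip := by
      rw [LinearMap.mem_ker]
      refine LinearMap.ext fun x => ?_
      rw [LinearMap.flip_apply, LinearMap.zero_apply, ← (ch_alt (2 * g + 1)).neg, neg_eq_zero]
      rw [span_av (2 * g + 1) x, map_sum]
      refine Finset.sum_eq_zero fun i _ => ?_
      rw [map_smul]
      have h3 := dual_fun (2 * g + 1) (fun k : ℕ => if k % 2 = 0 then (1 : ℝ) else 0) i i.2
      have h4 : ch (2 * g + 1) n (av (2 * g + 1) i) = 0 := by
        rw [h3]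
        have hi := i.2
        by_cases h5 : (i : ℕ) % 2 = 0
        · have h6 : ((i : ℕ) - 1) % 2 ≠ 0 ∨ (i : ℕ) = 0 := by omega
          rw [if_neg (show ¬ ((i : ℕ) + 1) % 2 = 0 by omega)]
          rcases h6 with h6 | h6
          · rw [if_neg h6]
            simp
          · rw [if_neg (show ¬ 0 < (i : ℕ) by omega)]
            simp
        · rw [if_pos (show 0 < (i : ℕ) by omega), if_pos (show ((i : ℕ) - 1) % 2 = 0 by omega),
            if_pos (show (i : ℕ) + 1 < 2 * g + 1 by omega),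
            if_pos (show ((i : ℕ) + 1) % 2 = 0 by omega), sub_self]
      rw [h4, smul_zero]
    rw [Module.finrank_pos_iff_exists_ne_zero]
    refine ⟨⟨n, hn⟩, fun h3 => ?_⟩
    have h4 : n = 0 := congrArg Subtype.val h3
    have h5 := congrFun h4 0
    simp [n] at h5
  omega

/-- dual families of a chain of even length -/
theorem exists_dual (m h : ℕ) (hm : 2 * h ≤ m) :
    ∃ u : Fin (2 * h) → (Fin m → ℝ), ∀ i j : Fin (2 * h),
      ch m (u i) (av m j) = if i = j then 1 else 0 := by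
  refine ⟨fun i e => (fun k : ℕ => if (i : ℕ) % 2 = 1 then
    (if k % 2 = 0 ∧ k < i then (1 : ℝ) else 0) else
    (if k % 2 = 1 ∧ (i : ℕ) < k ∧ k < 2 * h then (-1 : ℝ) else 0)) e, fun i j => ?_⟩
  have hi := i.2
  have hj := j.2
  refine (dual_fun m (fun k : ℕ => if (i : ℕ) % 2 = 1 then
    (if k % 2 = 0 ∧ k < i then (1 : ℝ) else 0) else
    (if k % 2 = 1 ∧ (i : ℕ) < k ∧ k < 2 * h then (-1 : ℝ) else 0)) j (by omega)).trans ?_
  have hij : i = j ↔ (i : ℕ) = j := Fin.ext_iff
  by_cases h1 : (i : ℕ) % 2 = 1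
  · simp only [if_pos h1]
    by_cases h2 : (j : ℕ) % 2 = 1
    · rw [if_pos (show 0 < (j : ℕ) by omega)]
      rcases lt_trichotomy (i : ℕ) j with h3 | h3 | h3
      · rw [if_neg (show ¬ (((j : ℕ) - 1) % 2 = 0 ∧ (j : ℕ) - 1 < i) by omega),
          if_neg (show ¬ (((j : ℕ) + 1) % 2 = 0 ∧ (j : ℕ) + 1 < i) by omega),
          if_neg (show ¬ i = j by rw [hij]; omega)]
        simp
      · rw [if_pos (show (((j : ℕ) - 1) % 2 = 0 ∧ (j : ℕ) - 1 < i) by omega),
          if_neg (show ¬ (((j : ℕ) + 1) % 2 = 0 ∧ (j : ℕ) + 1 < i) by omega),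
          if_pos (show i = j by rw [hij]; omega)]
        simp
      · rw [if_pos (show (((j : ℕ) - 1) % 2 = 0 ∧ (j : ℕ) - 1 < i) by omega),
          if_pos (show (j : ℕ) + 1 < m by omega),
          if_pos (show (((j : ℕ) + 1) % 2 = 0 ∧ (j : ℕ) + 1 < i) by omega),
          if_neg (show ¬ i = j by rw [hij]; omega)]
        simp
    · rw [if_neg (show ¬ (((j : ℕ) + 1) % 2 = 0 ∧ (j : ℕ) + 1 < i) by omega),
        if_neg (show ¬ i = j by rw [hij]; omega)]
      by_cases h3 : 0 < (j : ℕ)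
      · rw [if_pos h3, if_neg (show ¬ (((j : ℕ) - 1) % 2 = 0 ∧ (j : ℕ) - 1 < i) by omega)]
        simp
      · rw [if_neg h3]
        simp
  · simp only [if_neg h1]
    by_cases h2 : (j : ℕ) % 2 = 1
    · rw [if_neg (show ¬ (((j : ℕ) + 1) % 2 = 1 ∧ (i : ℕ) < (j : ℕ) + 1 ∧ (j : ℕ) + 1 < 2 * h)
          by omega),
        if_neg (show ¬ (((j : ℕ) - 1) % 2 = 1 ∧ (i : ℕ) < (j : ℕ) - 1 ∧ (j : ℕ) - 1 < 2 * h)
          by omega),
        if_neg (show ¬ i = j by rw [hij]; omega)]
      simp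
    · rw [if_pos (show (j : ℕ) + 1 < m by omega)]
      rcases lt_trichotomy (i : ℕ) j with h3 | h3 | h3
      · rw [if_pos (show 0 < (j : ℕ) by omega),
          if_pos (show (((j : ℕ) - 1) % 2 = 1 ∧ (i : ℕ) < (j : ℕ) - 1 ∧ (j : ℕ) - 1 < 2 * h)
            by omega),
          if_pos (show (((j : ℕ) + 1) % 2 = 1 ∧ (i : ℕ) < (j : ℕ) + 1 ∧ (j : ℕ) + 1 < 2 * h)
            by omega),
          if_neg (show ¬ i = j by rw [hij]; omega)]
        simp
      · rw [if_neg (show ¬ (((j : ℕ) - 1) % 2 = 1 ∧ (i : ℕ) < (j : ℕ) - 1 ∧ (j : ℕ) - 1 < 2 * h)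
            by omega),
          if_pos (show (((j : ℕ) + 1) % 2 = 1 ∧ (i : ℕ) < (j : ℕ) + 1 ∧ (j : ℕ) + 1 < 2 * h)
            by omega),
          if_pos (show i = j by rw [hij]; omega)]
        simp
      · rw [if_neg (show ¬ (((j : ℕ) - 1) % 2 = 1 ∧ (i : ℕ) < (j : ℕ) - 1 ∧ (j : ℕ) - 1 < 2 * h)
            by omega),
          if_neg (show ¬ (((j : ℕ) + 1) % 2 = 1 ∧ (i : ℕ) < (j : ℕ) + 1 ∧ (j : ℕ) + 1 < 2 * h)
            by omega),
          if_neg (show ¬ i = j by rw [hij]; omega)]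
        simp

end Pool.Agent.H53.HB
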