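import Pool.Agent.H53.HB.ExaA

/-!
# Examples of factorizations

`full_twist_succ`: the classical identity `Δ²_{r+2} = Δ²_{r+1} σ_r ⋯ σ_0 σ_0 ⋯ σ_r` for the
full twists on `r + 2` and `r + 1` strands. `conj_sig`: all generators are conjugate
(`σ_{i+1} = (σ_i σ_{i+1}) σ_i (σ_i σ_{i+1})⁻¹`). `exists_fac`: write `Δ⁴_{2g+1}` as `Δ⁴_{2h+1}`
times a positive word (full twists on `r + 1` strands commute with `σ_i`, `i < r`), and write each
letter of the word as a conjugate of `σ_0`; every `σ_i` with `i < 2 g` occurs (for `h < g` the word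
contains `σ_{2g-1} ⋯ σ_0`), so the classes generate.
-/

namespace Pool.Agent.H53.HB

theorem full_twist_succ (m r : ℕ) (hr : r < m) :
    tw m (r + 1) = tw m r *
      (((List.range (r + 1)).reverse.map (sig m)).prod * ((List.range (r + 1)).map (sig m)).prod) :=
  full_twist_succ' m r hr

theorem conj_sig (m i : ℕ) (hi : i < m) : ∃ c : Braid m, c * sig m 0 * c⁻¹ = sig m i :=
  conj_sig' m i hi

/-- factorizations with one factor of type `h` exist (for `h = 0`: without such a factor) -/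
theorem exists_fac_even (g h : ℕ) (hg : 2 ≤ g) (hh : h < g) :
    ∃ F : List (Braid (2 * g) × ℕ), (∀ p ∈ F, p.2 < g) ∧ (0 < h → (1, h) ∈ F) ∧
      fprod (2 * g) F = tw (2 * g) (2 * g) ^ 2 ∧ Full (2 * g) F :=
  exists_fac_even' g h hg hh

theorem exists_fac_odd (g : ℕ) (hg : 2 ≤ g) :
    ∃ F : List (Braid (2 * g + 1) × ℕ), (∀ p ∈ F, p.2 < g) ∧
      fprod (2 * g + 1) F = tw (2 * g + 1) (2 * g + 1) ∧ Full (2 * g + 1) F :=
  exists_fac_odd' g hg

end Pool.Agent.H53.HB
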