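import Pool.Agent.H53.HB.Main

/-!
# Tools for the examples of factorizations
-/

namespace Pool.Agent.H53.HB

lemma sig_braid (m i : ℕ) (h : i + 1 < m) :
    sig m i * sig m (i + 1) * sig m i = sig m (i + 1) * sig m i * sig m (i + 1) := by
  have hi : i < m := by omega
  rw [sig, sig, dif_pos hi, dif_pos h]
  have hr : FreeGroup.of (⟨i, hi⟩ : Fin m) * FreeGroup.of ⟨i + 1, h⟩ * FreeGroup.of ⟨i, hi⟩ *
      (FreeGroup.of ⟨i + 1, h⟩ * FreeGroup.of ⟨i, hi⟩ * FreeGroup.of ⟨i + 1, h⟩)⁻¹ ∈ rels m :=
    ⟨⟨i, hi⟩, ⟨i + 1, h⟩, Or.inl ⟨rfl, rfl⟩⟩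
  have h1 := PresentedGroup.one_of_mem hr
  rw [map_mul, map_inv, mul_inv_eq_one, map_mul, map_mul, map_mul, map_mul] at h1
  exact h1

lemma sig_comm' (m i j : ℕ) (h : i + 2 ≤ j) : sig m i * sig m j = sig m j * sig m i := by
  by_cases hj : j < m
  · have hi : i < m := by omega
    rw [sig, sig, dif_pos hi, dif_pos hj]
    have hr : FreeGroup.of (⟨i, hi⟩ : Fin m) * FreeGroup.of ⟨j, hj⟩ *
        (FreeGroup.of ⟨j, hj⟩ * FreeGroup.of ⟨i, hi⟩)⁻¹ ∈ rels m :=
      ⟨⟨i, hi⟩, ⟨j, hj⟩, Or.inr ⟨h, rfl⟩⟩
    have h1 := PresentedGroup.one_of_mem hr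
    rw [map_mul, map_inv, mul_inv_eq_one, map_mul, map_mul] at h1
    exact h1
  · have h1 : sig m j = 1 := by rw [sig, dif_neg hj]
    rw [h1, mul_one, one_mul]

/-- the product `σ_0 ⋯ σ_{r-1}` -/
def dl (m r : ℕ) : Braid m := ((List.range r).map (sig m)).prod

/-- the product `σ_{r-1} ⋯ σ_0` -/
def du (m r : ℕ) : Braid m := ((List.range r).reverse.map (sig m)).prod

lemma dl_succ (m r : ℕ) : dl m (r + 1) = dl m r * sig m r := by
  rw [dl, dl, List.range_succ, List.map_append, List.prod_append, List.map_singleton,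
    List.prod_singleton]

lemma du_succ (m r : ℕ) : du m (r + 1) = sig m r * du m r := by
  rw [du, du, List.range_succ, List.reverse_append, List.reverse_singleton, List.map_append,
    List.prod_append, List.map_singleton, List.prod_singleton]

lemma dl_comm (m r j : ℕ) (h : r + 1 ≤ j) : dl m r * sig m j = sig m j * dl m r := by
  induction r with
  | zero => simp [dl]
  | succ r ih =>
    rw [dl_succ, mul_assoc, sig_comm' m r j (by omega), ← mul_assoc, ih (by omega), mul_assoc]

/-- `δ σ_i = σ_{i+1} δ` -/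
lemma dl_sig (m r i : ℕ) (hr : r ≤ m) (h : i + 1 < r) :
    dl m r * sig m i = sig m (i + 1) * dl m r := by
  induction r with
  | zero => omega
  | succ r ih =>
    by_cases hi : i + 1 < r
    · rw [dl_succ, mul_assoc, ← sig_comm' m i r (by omega), ← mul_assoc, ih (by omega) hi,
        mul_assoc]
    · obtain rfl : r = i + 1 := by omega
      rw [dl_succ, dl_succ]
      have h1 := sig_braid m i (by omega)
      have h2 := dl_comm m i (i + 1) le_rfl
      calc dl m i * sig m i * sig m (i + 1) * sig m i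
          = dl m i * (sig m i * sig m (i + 1) * sig m i) := by simp only [mul_assoc]
        _ = dl m i * (sig m (i + 1) * sig m i * sig m (i + 1)) := by rw [h1]
        _ = (dl m i * sig m (i + 1)) * sig m i * sig m (i + 1) := by simp only [mul_assoc]
        _ = sig m (i + 1) * (dl m i * sig m i * sig m (i + 1)) := by
            rw [h2]; simp only [mul_assoc]

/-- the product `σ_1 ⋯ σ_{r-1}` in the form `σ_0⁻¹ δ` -/
lemma dl_sq (m r : ℕ) (hr : r + 1 ≤ m) :
    dl m (r + 1) * dl m (r + 1) * sig m r = sig m 0 * (dl m (r + 1) * dl m (r + 1)) := by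
  -- `δ (σ_0 ⋯ σ_{r-1}) = (σ_1 ⋯ σ_r) δ`
  have key : ∀ s, s ≤ r → dl m (r + 1) * dl m s = (sig m 0)⁻¹ * dl m (s + 1) * dl m (r + 1) := by
    intro s
    induction s with
    | zero =>
      intro _
      simp [dl]
    | succ s ih =>
      intro hs
      rw [dl_succ m s, ← mul_assoc, ih (by omega), mul_assoc, dl_sig m (r + 1) s hr (by omega),
        dl_succ m (s + 1)]
      simp only [mul_assoc]
  have h1 := key r le_rfl
  have h2 : dl m (r + 1) * dl m (r + 1) =
      (sig m 0)⁻¹ * dl m (r + 1) * dl m (r + 1) * sig m r := by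
    rw [← h1, mul_assoc, ← dl_succ]
  calc dl m (r + 1) * dl m (r + 1) * sig m r
      = sig m 0 * ((sig m 0)⁻¹ * dl m (r + 1) * dl m (r + 1) * sig m r) := by group
    _ = sig m 0 * (dl m (r + 1) * dl m (r + 1)) := by rw [← h2]

lemma dl_pow_sig (m r : ℕ) (hr : r ≤ m) (k i : ℕ) (h : i + k < r) :
    dl m r ^ k * sig m i = sig m (i + k) * dl m r ^ k := by
  induction k with
  | zero => simp
  | succ k ih =>
    rw [pow_succ', mul_assoc, ih (by omega), ← mul_assoc, dl_sig m r (i + k) hr (by omega),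
      mul_assoc, add_assoc]

/-- full twists are central -/
lemma tw_comm (m r i : ℕ) (hr : r ≤ m) (h : i < r) : Commute (tw m r) (sig m i) := by
  obtain ⟨s, rfl⟩ : ∃ s, r = s + 1 := ⟨r - 1, by omega⟩
  have h0 : Commute (tw m (s + 1)) (sig m 0) := by
    have h1 := dl_pow_sig m (s + 1) hr s 0 (by omega)
    have h2 := dl_sq m s hr
    rw [zero_add] at h1
    change tw m (s + 1) * sig m 0 = sig m 0 * tw m (s + 1)
    have h3 : tw m (s + 1) = dl m (s + 1) * dl m (s + 1) * dl m (s + 1) ^ s := by
      rw [tw]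
      change dl m (s + 1) ^ (s + 1 + 1) = _
      rw [pow_succ', pow_succ', mul_assoc]
    rw [h3, mul_assoc, h1, ← mul_assoc, h2, mul_assoc]
  have h4 : Commute (tw m (s + 1)) (dl m (s + 1)) := by
    rw [tw]
    exact Commute.pow_left (Commute.refl (dl m (s + 1))) _
  induction i with
  | zero => exact h0
  | succ i ih =>
    have h5 := ih (by omega)
    have h6 : sig m (i + 1) = dl m (s + 1) * sig m i * (dl m (s + 1))⁻¹ := by
      rw [dl_sig m (s + 1) i hr (by omega), mul_inv_cancel_right]
    rw [h6]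
    exact (h4.mul_right h5).mul_right h4.inv_right

lemma tw_comm_list (m r : ℕ) (hr : r ≤ m) (l : List ℕ) (hl : ∀ i ∈ l, i < r) :
    Commute (tw m r) (l.map (sig m)).prod := by
  induction l with
  | nil => simp
  | cons a l ih =>
    rw [List.map_cons, List.prod_cons]
    exact (tw_comm m r a hr (hl a (by simp))).mul_right (ih fun i hi => hl i (by simp [hi]))

/-- the identity for full twists -/
theorem full_twist_succ' (m r : ℕ) (hr : r < m) :
    tw m (r + 1) = tw m r * (du m (r + 1) * dl m (r + 1)) := by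
  -- `X k = σ_r ⋯ σ_{r-k+1}`
  have key : ∀ k, k ≤ r + 1 → ∃ X : Braid m, dl m (r + 1) ^ k = dl m r ^ k * X ∧
      X * du m (r + 1 - k) = du m (r + 1) ∧
      (k ≤ r → X * dl m (r + 1) = dl m r * (X * sig m (r - k))) := by
    intro k
    induction k with
    | zero =>
      intro _
      refine ⟨1, by simp, by simp, fun _ => ?_⟩
      rw [one_mul, one_mul, dl_succ, Nat.sub_zero]
    | succ k ih =>
      intro hk
      obtain ⟨X, h1, h2, h3⟩ := ih (by omega)
      have h3' := h3 (by omega)
      refine ⟨X * sig m (r - k), ?_, ?_, ?_⟩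
      · rw [pow_succ, h1, mul_assoc, h3', pow_succ, mul_assoc]
      · rw [← h2, show r + 1 - k = (r - k) + 1 by omega, du_succ, mul_assoc,
          show r + 1 - (k + 1) = r - k by omega]
      · intro hk'
        have h4 := dl_sig m (r + 1) (r - (k + 1)) (by omega) (by omega)
        rw [show r - (k + 1) + 1 = r - k by omega] at h4
        rw [mul_assoc, ← h4, ← mul_assoc, h3']
        simp only [mul_assoc]
  obtain ⟨X, h1, h2, -⟩ := key (r + 1) le_rfl
  rw [Nat.sub_self] at h2
  have h0 : du m 0 = 1 := by simp [du]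
  rw [h0, mul_one] at h2
  rw [tw, tw]
  change dl m (r + 1) ^ (r + 1 + 1) = dl m r ^ (r + 1) * _
  rw [pow_succ, h1, h2, mul_assoc]

/-- all generators are conjugate -/
theorem conj_sig' (m i : ℕ) (hi : i < m) : ∃ c : Braid m, c * sig m 0 * c⁻¹ = sig m i := by
  induction i with
  | zero => exact ⟨1, by simp⟩
  | succ i ih =>
    obtain ⟨c, hc⟩ := ih (by omega)
    refine ⟨sig m i * sig m (i + 1) * c, ?_⟩
    have h1 := sig_braid m i hi
    calc sig m i * sig m (i + 1) * c * sig m 0 * (sig m i * sig m (i + 1) * c)⁻¹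
        = sig m i * sig m (i + 1) * (c * sig m 0 * c⁻¹) * (sig m i * sig m (i + 1))⁻¹ := by group
      _ = sig m i * sig m (i + 1) * sig m i * (sig m i * sig m (i + 1))⁻¹ := by rw [hc]
      _ = sig m (i + 1) := by rw [h1]; group

/-- the letters of a word as conjugates of the first generator -/
theorem exists_letters (m : ℕ) (l : List ℕ) (hl : ∀ i ∈ l, i < m) :
    ∃ F : List (Braid m × ℕ), (∀ p ∈ F, p.2 = 0) ∧ fprod m F = (l.map (sig m)).prod ∧
      ∀ i ∈ l, ∃ p ∈ F, p.2 = 0 ∧ p.1 * sig m 0 * p.1⁻¹ = sig m i := by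
  induction l with
  | nil => exact ⟨[], by simp, by simp [fprod], by simp⟩
  | cons a l ih =>
    obtain ⟨F, h1, h2, h3⟩ := ih fun i hi => hl i (by simp [hi])
    obtain ⟨c, hc⟩ := conj_sig' m a (hl a (by simp))
    refine ⟨(c, 0) :: F, ?_, ?_, ?_⟩
    · intro p hp
      rcases List.mem_cons.1 hp with rfl | hp
      · rfl
      · exact h1 p hp
    · have hf : fac m 0 = sig m 0 := by simp [fac]
      rw [fprod_cons, h2, List.map_cons, List.prod_cons, hf, hc]
    · intro i hi
      rcases List.mem_cons.1 hi with rfl | hi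
      · exact ⟨(c, 0), by simp, rfl, hc⟩
      · obtain ⟨p, hp, h4⟩ := h3 i hi
        exact ⟨p, by simp [hp], h4⟩

lemma av_ne_zero (m i : ℕ) (hi : i < m) : av m i ≠ 0 := by
  intro h
  have h1 := congrFun h ⟨i, hi⟩
  simp [av] at h1

lemma ch_of_conj (m i : ℕ) (hi : i < m) (c : Braid m) (hc : c * sig m 0 * c⁻¹ = sig m i)
    (u : Fin m → ℝ) (hu : ch m u (rho m c (av m 0)) = 0) : ch m u (av m i) = 0 := by
  have h1 := congrArg (rho m) hc
  rw [map_mul, map_mul, map_inv, rho_sig m 0 (by omega), rho_sig m i hi, ← tv_rho] at h1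
  have h2 := congrArg (fun e : (Fin m → ℝ) ≃ₗ[ℝ] (Fin m → ℝ) => e u) h1
  simp only [tv_apply] at h2
  rw [hu, zero_smul, add_zero] at h2
  have h3 : ch m u (av m i) • av m i = 0 := by
    have h4 : u + 0 = u + ch m u (av m i) • av m i := by rw [add_zero]; exact h2
    exact (add_left_cancel h4).symm
  exact (smul_eq_zero.1 h3).resolve_right (av_ne_zero m i hi)

lemma ch_sum_av (m : ℕ) (u w : Fin m → ℝ) (h : ∀ i < m, ch m u (av m i) = 0) : ch m u w = 0 := by
  have h1 : w = ∑ i : Fin m, w i • av m i := by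
    funext j
    rw [Finset.sum_apply, Finset.sum_eq_single j]
    · simp [av]
    · intro b _ hb
      have : (j : ℕ) ≠ b := fun h => hb (Fin.ext h.symm)
      simp [av, this]
    · intro h
      exact absurd (Finset.mem_univ j) h
  rw [h1, map_sum]
  refine Finset.sum_eq_zero fun i _ => ?_
  rw [map_smul, h i i.2, smul_zero]

/-- a factorization with all the generators among its half twists -/
theorem full_of (m : ℕ) (F : List (Braid m × ℕ))
    (h : ∀ i < m, ∃ p ∈ F, p.2 = 0 ∧ p.1 * sig m 0 * p.1⁻¹ = sig m i) : Full m F := by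
  intro u hu w
  refine ch_sum_av m u w fun i hi => ?_
  obtain ⟨p, hp, hp2, hc⟩ := h i hi
  exact ch_of_conj m i hi p.1 hc u (hu p hp hp2)

/-- the squares of the full twists: `Δ⁴` on more strands is `Δ⁴` on fewer strands times a positive
word which contains the last generators -/
theorem tw_sq_eq (m r s : ℕ) (hs : r + s ≤ m) : ∃ l : List ℕ, (∀ i ∈ l, i < r + s) ∧
    tw m (r + s) ^ 2 = tw m r ^ 2 * (l.map (sig m)).prod ∧ (0 < s → ∀ i < r + s, i ∈ l) := by
  induction s with
  | zero => exact ⟨[], by simp, by simp, fun h => absurd h (lt_irrefl 0)⟩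
  | succ s ih =>
    obtain ⟨l, h1, h2, -⟩ := ih (by omega)
    set t := r + s with ht
    obtain ⟨J, hJ⟩ : ∃ J : List ℕ, J = (List.range (t + 1)).reverse ++ List.range (t + 1) :=
      ⟨_, rfl⟩
    have hJp : (J.map (sig m)).prod = du m (t + 1) * dl m (t + 1) := by
      rw [hJ, List.map_append, List.prod_append]
      rfl
    have h3 := full_twist_succ' m t (by omega)
    rw [← hJp] at h3
    have h4 : Commute (tw m t) (J.map (sig m)).prod := by
      have h5 : (J.map (sig m)).prod = (tw m t)⁻¹ * tw m (t + 1) := by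
        rw [h3, inv_mul_cancel_left]
      rw [h5]
      refine (Commute.refl _).inv_right.mul_right ?_
      have h6 : Commute (tw m (t + 1)) (tw m t) := by
        have h7 : tw m t = dl m t ^ (t + 1) := rfl
        rw [h7]
        exact (tw_comm_list m (t + 1) (by omega) (List.range t)
          (fun i hi => by have := List.mem_range.1 hi; omega)).pow_right _
      exact h6.symm
    refine ⟨l ++ (J ++ J), ?_, ?_, ?_⟩
    · intro i hi
      have hJ' : ∀ i ∈ J, i < r + (s + 1) := by
        intro i hi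
        rw [hJ, List.mem_append, List.mem_reverse, List.mem_range] at hi
        omega
      rcases List.mem_append.1 hi with hi | hi
      · have := h1 i hi
        omega
      · rcases List.mem_append.1 hi with hi | hi
        · exact hJ' i hi
        · exact hJ' i hi
    · rw [show r + (s + 1) = t + 1 by omega, h3, List.map_append, List.prod_append,
        List.map_append, List.prod_append, ← mul_assoc, ← h2]
      rw [pow_two, pow_two]
      calc tw m t * (J.map (sig m)).prod * (tw m t * (J.map (sig m)).prod)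
          = tw m t * ((J.map (sig m)).prod * tw m t) * (J.map (sig m)).prod := by
            simp only [mul_assoc]
        _ = tw m t * (tw m t * (J.map (sig m)).prod) * (J.map (sig m)).prod := by rw [h4.eq]
        _ = tw m t * tw m t * ((J.map (sig m)).prod * (J.map (sig m)).prod) := by
            simp only [mul_assoc]
    · intro _ i hi
      rw [List.mem_append, List.mem_append]
      right; left
      rw [hJ, List.mem_append, List.mem_range]
      right
      omega

/-- factorizations with one factor of type `h` exist (for `h = 0`: without such a factor) -/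
theorem exists_fac_even' (g h : ℕ) (hg : 2 ≤ g) (hh : h < g) :
    ∃ F : List (Braid (2 * g) × ℕ), (∀ p ∈ F, p.2 < g) ∧ (0 < h → (1, h) ∈ F) ∧
      fprod (2 * g) F = tw (2 * g) (2 * g) ^ 2 ∧ Full (2 * g) F := by
  obtain ⟨l, h1, h2, h3⟩ := tw_sq_eq (2 * g) (2 * h) (2 * g - 2 * h) (by omega)
  rw [show 2 * h + (2 * g - 2 * h) = 2 * g by omega] at h1 h2 h3
  obtain ⟨F, f1, f2, f3⟩ := exists_letters (2 * g) l h1
  have hfull : ∀ i < 2 * g, ∃ p ∈ F, p.2 = 0 ∧ p.1 * sig (2 * g) 0 * p.1⁻¹ = sig (2 * g) i :=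
    fun i hi => f3 i (h3 (by omega) i hi)
  rcases Nat.eq_zero_or_pos h with rfl | hpos
  · refine ⟨F, fun p hp => by rw [f1 p hp]; omega, fun h => absurd h (lt_irrefl 0), ?_,
      full_of _ F hfull⟩
    rw [f2, h2]
    simp [tw]
  · refine ⟨(1, h) :: F, ?_, fun _ => by simp, ?_, full_of _ _ ?_⟩
    · intro p hp
      rcases List.mem_cons.1 hp with rfl | hp
      · exact hh
      · rw [f1 p hp]; omega
    · rw [fprod_cons, f2, h2]
      have : h ≠ 0 := by omega
      simp [fac, this]
    · intro i hi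
      obtain ⟨p, hp, h4⟩ := hfull i hi
      exact ⟨p, by simp [hp], h4⟩

theorem exists_fac_odd' (g : ℕ) (hg : 2 ≤ g) :
    ∃ F : List (Braid (2 * g + 1) × ℕ), (∀ p ∈ F, p.2 < g) ∧
      fprod (2 * g + 1) F = tw (2 * g + 1) (2 * g + 1) ∧ Full (2 * g + 1) F := by
  obtain ⟨F, f1, f2, f3⟩ := exists_letters (2 * g + 1)
    (List.replicate (2 * g + 2) (List.range (2 * g + 1))).flatten (by
      intro i hi
      rw [List.mem_flatten] at hi
      obtain ⟨l, hl, hi⟩ := hi
      rw [List.eq_of_mem_replicate hl, List.mem_range] at hi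
      exact hi)
  refine ⟨F, fun p hp => by rw [f1 p hp]; omega, ?_, full_of _ F fun i hi => f3 i ?_⟩
  · rw [f2, List.map_flatten, List.map_replicate, List.prod_flatten, List.map_replicate,
      List.prod_replicate]
    rfl
  · rw [List.mem_flatten]
    exact ⟨List.range (2 * g + 1), by simp, List.mem_range.2 hi⟩

end Pool.Agent.H53.HB
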