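import Pool.Agent.H53.HB.Defs

/-!
# The definitions of the statement

A hyperelliptic Lefschetz fibration of genus `g` over the sphere is given by a factorization of a
braid: a list `F` of pairs `(c, h)`, standing for the product of the factors `c fac(h) c⁻¹`; the
factors of type `0` are half twists (nonseparating vanishing cycles), those of type `h ≥ 1` are
squares of full twists on `2 h + 1` strands (Dehn twists along curves which bound a surface of
genus `h`). The vanishing cycles give the intersection form of the total space.
-/

namespace Pool.Agent.H53.HB

open Module

/-- the kernel of the map from the braid group on `2 g + 2` strands (`m = 2 g + 1`) to the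
hyperelliptic mapping class group of the closed surface of genus `g`, in the presentation of Birman
and Hilden: the full twist on the first `2 g + 1` strands is the hyperelliptic involution, of order
two and central, and the full twist on all strands is trivial -/
def hyp (m g : ℕ) : Subgroup (Braid m) :=
  Subgroup.normalClosure ({tw m (2 * g) ^ 2, tw m (2 * g + 1)} ∪
    {x | ∃ i < m, x = tw m (2 * g) * sig m i * (tw m (2 * g))⁻¹ * (sig m i)⁻¹})

/-- the vanishing cycles of the half twists generate the rational homology of the closed fibre: a
class which is orthogonal to all of them is in the radical of the intersection form -/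
def Full (m : ℕ) (F : List (Braid m × ℕ)) : Prop :=
  ∀ u : Fin m → ℝ, (∀ p ∈ F, p.2 = 0 → ch m u (rho m p.1 (av m 0)) = 0) →
    ∀ w, ch m u w = 0

/-- the number of factors of positive type (the reducible singular fibres) -/
def red {m : ℕ} (F : List (Braid m × ℕ)) : ℕ := F.countP fun p => decide (p.2 ≠ 0)

/-- the homology class of the vanishing cycle of a factor: `ρ(c) a₀` for a half twist, `0` for a
factor of positive type -/
noncomputable def cyc (m : ℕ) (p : Braid m × ℕ) : Fin m → ℝ :=
  if p.2 = 0 then rho m p.1 (av m 0) else 0

/-- the families of coefficients such that the combination of the vanishing cycles is zero in the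
homology of the closed fibre -/
noncomputable def lat (m : ℕ) (F : List (Braid m × ℕ)) : Submodule ℝ (Fin F.length → ℝ) :=
  LinearMap.ker ((ch m).flip ∘ₗ Fintype.linearCombination ℝ (fun i => cyc m (F.get i)))

/-- the intersection form on these families: `-∑ x i ^ 2 - ∑ i < j, (v i · v j) x i x j` -/
noncomputable def form (m : ℕ) (F : List (Braid m × ℕ)) (x : Fin F.length → ℝ) : ℝ :=
  -∑ i, x i ^ 2 -
    ∑ i, ∑ j, if i < j then ch m (cyc m (F.get i)) (cyc m (F.get j)) * x i * x j else 0

/-- `b⁺` of the total space: the plane of the fibre and a section contributes `1`, its complement is
`lat` with `form`, modulo the radical -/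
noncomputable def bPlus (m : ℕ) (F : List (Braid m × ℕ)) : ℕ :=
  1 + posIdx fun x : lat m F => form m F x

/-- `b⁻` of the total space -/
noncomputable def bMinus (m : ℕ) (F : List (Braid m × ℕ)) : ℕ :=
  1 + negIdx fun x : lat m F => form m F x

/-- the Euler characteristic of the total space (with vanishing first Betti number) -/
noncomputable def chi (m : ℕ) (F : List (Braid m × ℕ)) : ℤ := 2 + bPlus m F + bMinus m F

/-- the signature of the total space -/
noncomputable def sigma (m : ℕ) (F : List (Braid m × ℕ)) : ℤ := (bPlus m F : ℤ) - bMinus m F

/-- three kinds of fibrations: with an exceptional section which is invariant under the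
hyperelliptic involution, with an exceptional section which is disjoint from its image, and without
a condition on sections -/
inductive Kind
  | invariant
  | swapped
  | closed

/-- the product of the factors for the three kinds -/
def Closes : Kind → (g m : ℕ) → Braid m → Prop
  | .invariant, g, m, x => m = 2 * g ∧ x = tw m (2 * g) ^ 2
  | .swapped, g, m, x => m = 2 * g + 1 ∧ x = tw m (2 * g + 1)
  | .closed, g, m, x => m = 2 * g + 1 ∧ x ∈ hyp m g

/-- the largest number of exceptional spheres which are blown down -/
def maxBlow : Kind → ℤ
  | .invariant => 1
  | .swapped => 4
  | .closed => 4

/-- the bound for the genus, `b` exceptional spheres being blown down -/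
def minGenus : Kind → ℤ → ℕ
  | .invariant, _ => 15
  | .swapped, b => if b ≤ 2 then 21 else 18
  | .closed, _ => 7

end Pool.Agent.H53.HB
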