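import Pool.Agent.H53.HB.Std2
import Pool.Agent.H53.HB.Stmt

/-!
# The expanded word of a factorization
-/

namespace Pool.Agent.H53.HB

open Module

/-- the letters of one factor: the vanishing cycle of a half twist; for a factor of type `h ≥ 1` the
class zero followed by the chain word of the square of the full twist -/
noncomputable def exl (m : ℕ) (p : Braid m × ℕ) : List (Fin m → ℝ) :=
  if p.2 = 0 then [rho m p.1 (av m 0)]
  else 0 :: (blk m (2 * p.2) (4 * p.2 + 2)).map (rho m p.1)

/-- the expanded word -/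
noncomputable def ex (m : ℕ) (F : List (Braid m × ℕ)) : List (Fin m → ℝ) :=
  (F.map (exl m)).flatten

/-- the number of half twists -/
def irr {m : ℕ} (F : List (Braid m × ℕ)) : ℕ := F.countP fun p => decide (p.2 = 0)

/-- the sum of a function of the types -/
def sm {m : ℕ} (f : ℕ → ℕ) (F : List (Braid m × ℕ)) : ℕ := (F.map fun p => f p.2).sum

lemma ex_cons (m : ℕ) (p : Braid m × ℕ) (F : List (Braid m × ℕ)) :
    ex m (p :: F) = exl m p ++ ex m F := by
  simp [ex]

lemma fprod_cons (m : ℕ) (p : Braid m × ℕ) (F : List (Braid m × ℕ)) :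
    fprod m (p :: F) = (p.1 * fac m p.2 * p.1⁻¹) * fprod m F := by
  simp [fprod]

lemma vc_cons (m : ℕ) (p : Braid m × ℕ) (F : List (Braid m × ℕ)) :
    vc m (p :: F) = (true, if p.2 = 0 then rho m p.1 (av m 0) else 0) :: vc m F := by
  simp [vc]

lemma red_cons {m : ℕ} (p : Braid m × ℕ) (F : List (Braid m × ℕ)) :
    red (p :: F) = (if p.2 = 0 then 0 else 1) + red F := by
  unfold red
  rw [List.countP_cons]
  by_cases h : p.2 = 0
  · simp [h]
  · simp [h, add_comm]

lemma irr_cons {m : ℕ} (p : Braid m × ℕ) (F : List (Braid m × ℕ)) :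
    irr (p :: F) = (if p.2 = 0 then 1 else 0) + irr F := by
  unfold irr
  rw [List.countP_cons]
  by_cases h : p.2 = 0
  · simp [h, add_comm]
  · simp [h]

lemma irr_add_red {m : ℕ} (F : List (Braid m × ℕ)) : irr F + red F = F.length := by
  induction F with
  | nil => rfl
  | cons p F ih =>
    rw [red_cons, irr_cons, List.length_cons, ← ih]
    split_ifs <;> omega

lemma gen0_psi (m : ℕ) (x : Braid m) :
    gen (ch m) (ch_alt m) 0 * psi m x = psi m x * gen (ch m) (ch_alt m) 0 := by
  have h := psi_conj m x 0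
  rw [map_zero, mul_inv_eq_iff_eq_mul] at h
  exact h.symm

lemma gen_map_rho (m : ℕ) (c : Braid m) (l : List (Fin m → ℝ)) :
    ((l.map (rho m c)).map (gen (ch m) (ch_alt m))).prod =
      psi m c * (l.map (gen (ch m) (ch_alt m))).prod * (psi m c)⁻¹ := by
  induction l with
  | nil => simp
  | cons a l ih =>
    rw [List.map_cons, List.map_cons, List.prod_cons, ih, List.map_cons, List.prod_cons,
      ← psi_conj]
    group

lemma gen_exl (m : ℕ) (hm : 0 < m) (p : Braid m × ℕ) (hp : 2 * p.2 ≤ m) :
    ((exl m p).map (gen (ch m) (ch_alt m))).prod =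
      psi m (p.1 * fac m p.2 * p.1⁻¹) *
        gen (ch m) (ch_alt m) 0 ^ (if p.2 = 0 then 0 else 1) := by
  unfold exl fac
  by_cases h : p.2 = 0
  · rw [if_pos h, if_pos h, if_pos h, pow_zero, mul_one, List.map_singleton,
      List.prod_singleton, ← psi_conj, map_mul, map_mul, map_inv, psi_sig m 0 hm]
  · rw [if_neg h, if_neg h, if_neg h, pow_one, List.map_cons, List.prod_cons, gen_map_rho,
      gen_blk_even m p.2 hp, ← map_inv, ← map_mul, ← map_mul, gen0_psi]

lemma gen_ex (m : ℕ) (hm : 0 < m) (F : List (Braid m × ℕ)) (hF : ∀ p ∈ F, 2 * p.2 ≤ m) :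
    ((ex m F).map (gen (ch m) (ch_alt m))).prod =
      psi m (fprod m F) * gen (ch m) (ch_alt m) 0 ^ red F := by
  induction F with
  | nil => simp [ex, fprod, red]
  | cons p F ih =>
    rw [ex_cons, List.map_append, List.prod_append, gen_exl m hm p (hF p (by simp)),
      ih (fun p' hp' => hF p' (by simp [hp'])), fprod_cons, map_mul (psi m) _ (fprod m F)]
    have h1 : gen (ch m) (ch_alt m) 0 ^ (if p.2 = 0 then 0 else 1) * psi m (fprod m F) =
        psi m (fprod m F) * gen (ch m) (ch_alt m) 0 ^ (if p.2 = 0 then 0 else 1) := by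
      have h2 : Commute (gen (ch m) (ch_alt m) 0) (psi m (fprod m F)) := gen0_psi m _
      exact (h2.pow_left _).eq
    rw [red_cons, pow_add, mul_assoc, ← mul_assoc (gen (ch m) (ch_alt m) 0 ^ (if p.2 = 0 then 0 else 1)),
      h1]
    simp only [mul_assoc]

/-- the abelianization -/
def deg (m : ℕ) : Braid m →* Multiplicative ℤ :=
  PresentedGroup.toGroup (f := fun _ : Fin m => Multiplicative.ofAdd 1) (by
    rintro r ⟨i, j, ⟨hij, rfl⟩ | ⟨hij, rfl⟩⟩
    · simp
    · simp)

lemma deg_sig (m i : ℕ) (hi : i < m) : deg m (sig m i) = Multiplicative.ofAdd 1 := by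
  rw [sig, dif_pos hi, deg, PresentedGroup.toGroup.of]

lemma deg_range (m r : ℕ) (hr : r ≤ m) :
    deg m ((List.range r).map (sig m)).prod = Multiplicative.ofAdd (r : ℤ) := by
  rw [map_list_prod, List.map_map]
  have : (List.range r).map (deg m ∘ sig m) =
      List.replicate r (Multiplicative.ofAdd (1 : ℤ)) := by
    rw [List.eq_replicate_iff]
    refine ⟨by simp, fun x hx => ?_⟩
    obtain ⟨i, hi, rfl⟩ := List.mem_map.1 hx
    exact deg_sig m i (lt_of_lt_of_le (List.mem_range.1 hi) hr)
  rw [this, List.prod_replicate, ← ofAdd_nsmul]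
  simp

lemma deg_fac (m h : ℕ) (hm : 0 < m) (hh : 2 * h ≤ m) :
    deg m (fac m h) = Multiplicative.ofAdd (if h = 0 then 1 else (2 * h * (4 * h + 2) : ℤ)) := by
  unfold fac
  by_cases h0 : h = 0
  · rw [if_pos h0, if_pos h0, deg_sig m 0 hm]
  · rw [if_neg h0, if_neg h0, tw_sq, map_pow, deg_range m _ hh, ← ofAdd_nsmul]
    congr 1
    push_cast
    rw [nsmul_eq_mul]
    push_cast
    ring

lemma length_ex (m : ℕ) (hm : 0 < m) (F : List (Braid m × ℕ)) (hF : ∀ p ∈ F, 2 * p.2 ≤ m) :
    ((ex m F).length : ℤ) = red F + Multiplicative.toAdd (deg m (fprod m F)) ∧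
      Multiplicative.toAdd (deg m (fprod m F)) =
        irr F + sm (fun h => 2 * h * (4 * h + 2)) F := by
  induction F with
  | nil => simp [ex, fprod, red, irr, sm]
  | cons p F ih =>
    obtain ⟨ih1, ih2⟩ := ih (fun p' hp' => hF p' (by simp [hp']))
    have h1 : Multiplicative.toAdd (deg m (fprod m (p :: F))) =
        (if p.2 = 0 then 1 else (2 * p.2 * (4 * p.2 + 2) : ℤ)) +
          Multiplicative.toAdd (deg m (fprod m F)) := by
      simp only [fprod_cons, MonoidHom.map_mul, MonoidHom.map_inv, toAdd_mul, toAdd_inv]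
      rw [deg_fac m p.2 hm (hF p (by simp)), toAdd_ofAdd]
      ring
    have h2 : ((ex m (p :: F)).length : ℤ) =
        (if p.2 = 0 then 1 else (1 + 2 * p.2 * (4 * p.2 + 2) : ℤ)) + (ex m F).length := by
      rw [ex_cons, List.length_append]
      push_cast
      congr 1
      unfold exl
      by_cases h : p.2 = 0
      · simp [h]
      · rw [if_neg h, if_neg h, List.length_cons, List.length_map, length_blk]
        push_cast
        ring
    have h3 : (red (p :: F) : ℤ) = (if p.2 = 0 then 0 else 1) + red F := by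
      rw [red_cons]
      push_cast
      rfl
    have h4 : (irr (p :: F) : ℤ) = (if p.2 = 0 then 1 else 0) + irr F := by
      rw [irr_cons]
      push_cast
      rfl
    have h5 : (sm (fun h => 2 * h * (4 * h + 2)) (p :: F) : ℤ) =
        2 * p.2 * (4 * p.2 + 2) + sm (fun h => 2 * h * (4 * h + 2)) F := by
      unfold sm
      rw [List.map_cons, List.sum_cons]
      push_cast
      ring
    rw [h1, h2, h3, h4, h5, ih1, ih2]
    by_cases h : p.2 = 0
    · simp only [h, if_true]
      constructor <;> push_cast <;> ring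
    · simp only [h, if_false]
      constructor <;> push_cast <;> ring

end Pool.Agent.H53.HB
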