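import Pool.Agent.H53.HB.Defs

/-!
# Definitions for the words of powers of Coxeter elements
-/

namespace Pool.Agent.H53.HB

open Finset Real

/-- the form `L` for the word `(a₀ … a_{r-1})^k` in the coordinates `x j i` -/
noncomputable def Lf (r k : ℕ) (x y : ℕ → ℕ → ℝ) : ℝ :=
  ∑ j ∈ range k, (∑ i ∈ range r, x j i * y j i + ∑ i ∈ range (r - 1), x j i * y j (i + 1)) +
  ∑ j ∈ range k, ∑ j' ∈ range j, ∑ i ∈ range (r - 1),
    (x j' i * y j (i + 1) - x j' (i + 1) * y j i)

/-- the eigenvectors -/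
noncomputable def md (r k a b : ℕ) (j i : ℕ) : ℝ :=
  (cos (π * a / k * (2 * j + i) - π * i / 2) + sin (π * a / k * (2 * j + i) - π * i / 2)) *
    sin (π * b * (i + 1) / (r + 1))

/-- the eigenvalues -/
noncomputable def mu (r k a b : ℕ) : ℝ := 1 + cos (π * b / (r + 1)) / sin (π * a / k)

/-- the word `(a₀ … a_{r-1})^k` -/
def blk (m r k : ℕ) : List (Fin m → ℝ) := (List.replicate k ((List.range r).map (av m))).flatten

end Pool.Agent.H53.HB
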