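import Pool.Agent.H53.HB.Main

/-!
# The exact indices of the form of a factorization
-/

namespace Pool.Agent.H53.HB

open Module

lemma single_in (m : ℕ) (w : List (Bool × (Fin m → ℝ))) (v : Fin m → ℝ) (hv : (true, v) ∈ w) :
    ∃ z, (word (ch m) w).V z = v := by
  induction w with
  | nil => simp at hv
  | cons a w ih =>
    rcases List.mem_cons.1 hv with h | h
    · refine ⟨((1 : ℝ), 0), ?_⟩
      change (Dat.mul (ch m) (Dat.single (sgn a.1) a.2) (word (ch m) w)).V ((1 : ℝ), 0) = v
      rw [Dat.mul_V, Dat.single_V, map_zero, one_smul, add_zero, ← h]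
    · obtain ⟨z, hz⟩ := ih h
      refine ⟨((0 : ℝ), z), ?_⟩
      change (Dat.mul (ch m) (Dat.single (sgn a.1) a.2) (word (ch m) w)).V ((0 : ℝ), z) = v
      rw [Dat.mul_V, Dat.single_V, zero_smul, zero_add, hz]

/-- if the vanishing cycles generate, every class of the closed fibre is a combination of them -/
lemma exists_lift (m : ℕ) (F : List (Braid m × ℕ)) (hfull : Full m F) (a : Fin m → ℝ) :
    ∃ z, ∀ u, ch m u ((word (ch m) (vc m F)).V z) = ch m u a := by
  let Φ : (word (ch m) (vc m F)).E →ₗ[ℝ] Dual ℝ (Fin m → ℝ) :=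
    (ch m).flip ∘ₗ (word (ch m) (vc m F)).V
  have h : (ch m).flip a ∈ LinearMap.range Φ := by
    rw [← Subspace.dualCoannihilator_dualAnnihilator_eq (W := LinearMap.range Φ),
      Submodule.mem_dualAnnihilator]
    intro u hu
    rw [Submodule.mem_dualCoannihilator] at hu
    change ch m u a = 0
    refine hfull u (fun p hp hp0 => ?_) a
    obtain ⟨z, hz⟩ := single_in m (vc m F) (rho m p.1 (av m 0)) (by
      unfold vc
      refine List.mem_map.2 ⟨p, hp, ?_⟩
      rw [if_pos hp0])
    have h1 := hu (Φ z) ⟨z, rfl⟩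
    change ch m u ((word (ch m) (vc m F)).V z) = 0 at h1
    rwa [hz] at h1
  obtain ⟨z, hz⟩ := h
  refine ⟨z, fun u => ?_⟩
  exact congrArg (fun f : Dual ℝ (Fin m → ℝ) => f u) hz

lemma hyp_vc (m g : ℕ) (hm : 0 < m) (hg : 2 * g ≤ m) (F : List (Braid m × ℕ))
    (hF : ∀ p ∈ F, 2 * p.2 ≤ m) (hrho : rho m (fprod m F) = 1) (hfull : Full m F) :
    2 * g + posIdx (fun x : Ker m (vc m F) => (word (ch m) (vc m F)).q x.1) ≤
        posIdx (word (ch m) (vc m F)).q ∧
      2 * g + negIdx (fun x : Ker m (vc m F) => (word (ch m) (vc m F)).q x.1) ≤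
        negIdx (word (ch m) (vc m F)).q := by
  have hmon := hasMon_word (ch m) (ch_alt m) (vcv m F)
  have hv : (vcv m F).map (fun v => (true, v)) = vc m F := pos_vcv m F
  rw [hv, tv_vcv m hm F hF, hrho] at hmon
  obtain ⟨Y, hY⟩ := hmon
  obtain ⟨u, hu⟩ := exists_dual m g hg
  choose z hz using fun j : Fin (2 * g) => exists_lift m F hfull (av m j)
  refine dat_hyp (ch m) (word (ch m) (vc m F)) (skew_word (ch m) (ch_alt m) _) Y ?_ u z ?_ _ ?_
  · refine ⟨hY.1, fun v => ?_⟩
    rw [hY.2 v]
    simp
  · intro i j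
    rw [hz]
    exact hu i j
  · intro x hx v
    exact (mem_Ker m _ x).1 hx v

lemma idx_replicate (m s : ℕ) (l : List (Fin m → ℝ)) :
    s + posIdx (word (ch m) (pos l)).q ≤
        posIdx (word (ch m) (pos (List.replicate s 0 ++ l))).q ∧
      negIdx (word (ch m) (pos l)).q ≤
        negIdx (word (ch m) (pos (List.replicate s 0 ++ l))).q := by
  induction s with
  | zero => simp
  | succ s ih =>
    have h2 := word_split (ch m) (ch_alt m) [] (pos (List.replicate s 0 ++ l)) [0]
      (by simp [tv_zero])
    have h3 : 1 ≤ posIdx (word (ch m) ([(0 : Fin m → ℝ)].map fun v => (true, v))).q := by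
      refine card_le_posIdx (ι := Unit)
        (word (ch m) ([(0 : Fin m → ℝ)].map fun v => (true, v))).L
        (fun _ => ((1 : ℝ), PUnit.unit)) (fun i j hij => absurd rfl hij) (fun _ => ?_)
      change 0 < (Dat.mul (ch m) (Dat.single (sgn true) (0 : Fin m → ℝ)) Dat.one).L
        ((1 : ℝ), PUnit.unit) ((1 : ℝ), PUnit.unit)
      rw [Dat.mul_L, Dat.single_L, Dat.one_L, Dat.one_V, map_zero, sgn, if_pos rfl]
      norm_num
    have h4 : pos (List.replicate (s + 1) 0 ++ l) =
        [] ++ [(0 : Fin m → ℝ)].map (fun v => (true, v)) ++ pos (List.replicate s 0 ++ l) := by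
      rw [List.replicate_succ]
      rfl
    rw [h4]
    rw [List.nil_append] at h2
    omega

/-- the exact indices -/
theorem main_idx (m g P M : ℕ) (hm : 0 < m) (hg : 2 * g ≤ m)
    (hrank : finrank ℝ (LinearMap.range (ch m).flip) ≤ 2 * g)
    (F : List (Braid m × ℕ)) (hF : ∀ p ∈ F, 2 * p.2 ≤ m) (hfull : Full m F)
    (hrho : rho m (fprod m F) = 1)
    (T : List (Fin m → ℝ)) (hT : (T.map (gen (ch m) (ch_alt m))).prod = psi m (fprod m F))
    (hTl : (T.length : ℤ) = Multiplicative.toAdd (deg m (fprod m F)))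
    (hPM : P + M = T.length)
    (hP : P ≤ posIdx (word (ch m) (pos T)).q) (hM : M ≤ negIdx (word (ch m) (pos T)).q) :
    posIdx (fun x : Ker m (vc m F) => (word (ch m) (vc m F)).q x.1) + 2 * g +
          sm (fun h => 6 * h ^ 2 + 4 * h) F = P + red F ∧
      negIdx (fun x : Ker m (vc m F) => (word (ch m) (vc m F)).q x.1) + 2 * g +
          sm (fun h => 2 * h ^ 2) F = M ∧
      2 * g + sm (fun h => 6 * h ^ 2 + 4 * h) F ≤ P ∧
      T.length = irr F + sm (fun h => 2 * h * (4 * h + 2)) F := by
  obtain ⟨hl1, hl2⟩ := length_ex m hm F hF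
  -- the signatures agree
  have h1 : sg (ch m) (pos (ex m F)) = sg (ch m) (pos (List.replicate (red F) 0 ++ T)) := by
    refine sg_eq_of_prod_eq (ch m) (ch_alt m) _ _ ?_
    rw [gen_ex m hm F hF, List.map_append, List.prod_append, hT, List.map_replicate,
      List.prod_replicate]
    have h2 : Commute (gen (ch m) (ch_alt m) 0) (psi m (fprod m F)) := gen0_psi m _
    exact (h2.pow_left _).eq.symm
  unfold sg at h1
  have h2 := idx_replicate m (red F) T
  have h3 : posIdx (word (ch m) (pos (List.replicate (red F) 0 ++ T))).q +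
      negIdx (word (ch m) (pos (List.replicate (red F) 0 ++ T))).q ≤ red F + T.length := by
    have h := posIdx_add_negIdx_le (word (ch m) (pos (List.replicate (red F) 0 ++ T))).q
    rw [finrank_word] at h
    simpa using h
  have h4 : posIdx (word (ch m) (pos (ex m F))).q + negIdx (word (ch m) (pos (ex m F))).q ≤
      (ex m F).length := by
    have h := posIdx_add_negIdx_le (word (ch m) (pos (ex m F))).q
    rw [finrank_word] at h
    simpa using h
  have h5 := split_ex m F hF [] []
  have h6 := hyp_vc m g hm hg F hF hrho hfull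
  have h7 : F.length ≤ posIdx (fun x : Ker m (vc m F) => (word (ch m) (vc m F)).q x.1) +
      negIdx (fun x : Ker m (vc m F) => (word (ch m) (vc m F)).q x.1) + 2 * (2 * g) := by
    have h := ker_inertia m (2 * g) hrank (vcv m F)
    have hv : (vcv m F).map (fun v => (true, v)) = vc m F := pos_vcv m F
    rw [hv] at h
    simpa [vcv] using h
  have h8 := irr_add_red F
  have h9 : posIdx (word (ch m) (vc m F)).q + sm (fun h => 6 * h ^ 2 + 4 * h) F ≤
      posIdx (word (ch m) (pos (ex m F))).q ∧
      negIdx (word (ch m) (vc m F)).q + sm (fun h => 2 * h ^ 2) F ≤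
      negIdx (word (ch m) (pos (ex m F))).q := by
    rw [List.nil_append, List.append_nil, List.nil_append, List.append_nil] at h5
    exact h5
  -- the letters which are not zero
  have h10 : 2 * g + red F ≤ posIdx (word (ch m) (vc m F)).q := by
    have h11 := split_vc m F [] []
    rw [List.nil_append, List.append_nil, List.nil_append, List.append_nil] at h11
    have h12 : rho m (fprod m (F.filter fun p => decide (p.2 = 0))) = 1 := by
      rw [← hrho, ← tv_vcv m hm F hF, ← tv_vcv m hm _ (fun p hp => hF p (List.mem_of_mem_filter hp))]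
      clear * -
      induction F with
      | nil => rfl
      | cons p F ih =>
        by_cases h : p.2 = 0
        · rw [List.filter_cons_of_pos (by simp [h])]
          unfold vcv at ih ⊢
          rw [List.map_cons, List.map_cons, List.map_cons, List.map_cons, List.prod_cons,
            List.prod_cons, ih]
        · rw [List.filter_cons_of_neg (by simp [h]), ih]
          unfold vcv
          rw [List.map_cons, List.map_cons, List.prod_cons, if_neg h, tv_zero, one_mul]
    have h13 := hyp_vc m g hm hg (F.filter fun p => decide (p.2 = 0))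
      (fun p hp => hF p (List.mem_of_mem_filter hp)) h12 (by
        intro u hu w
        refine hfull u (fun p hp hp0 => ?_) w
        exact hu p (List.mem_filter.2 ⟨hp, by simp [hp0]⟩) hp0)
    omega
  have h11 : sm (fun h => 6 * h ^ 2 + 4 * h) F + sm (fun h => 2 * h ^ 2) F =
      sm (fun h => 2 * h * (4 * h + 2)) F := by
    unfold sm
    rw [← List.sum_map_add]
    congr 1
    refine List.map_congr_left (fun p _ => ?_)
    ring
  have h12 : (T.length : ℤ) = irr F + sm (fun h => 2 * h * (4 * h + 2)) F := by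
    rw [hTl, hl2]
  refine ⟨?_, ?_, ?_, ?_⟩ <;> omega

end Pool.Agent.H53.HB
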