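import Pool.Agent.H53.HB.Fin
import Pool.Agent.H53.HB.HypR

/-!
# The exact indices, monodromy trivial modulo the radical
-/

namespace Pool.Agent.H53.HB

open Module

lemma hyp_vcR (m g : ℕ) (hm : 0 < m) (hg : 2 * g ≤ m) (F : List (Braid m × ℕ))
    (hF : ∀ p ∈ F, 2 * p.2 ≤ m)
    (hrho : ∀ u w, ch m (rho m (fprod m F) u) w = ch m u w) (hfull : Full m F) :
    2 * g + posIdx (fun x : Ker m (vc m F) => (word (ch m) (vc m F)).q x.1) ≤
        posIdx (word (ch m) (vc m F)).q ∧
      2 * g + negIdx (fun x : Ker m (vc m F) => (word (ch m) (vc m F)).q x.1) ≤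
        negIdx (word (ch m) (vc m F)).q := by
  have hmon := hasMon_word (ch m) (ch_alt m) (vcv m F)
  have hv : (vcv m F).map (fun v => (true, v)) = vc m F := pos_vcv m F
  rw [hv, tv_vcv m hm F hF] at hmon
  obtain ⟨Y, hY⟩ := hmon
  obtain ⟨u, hu⟩ := exists_dual m g hg
  choose z hz using fun j : Fin (2 * g) => exists_lift m F hfull (av m j)
  refine dat_hypR (ch m) (ch_alt m) (word (ch m) (vc m F)) (skew_word (ch m) (ch_alt m) _) Y
    hY.1 ?_ u z ?_ _ ?_
  · intro v w
    have h1 : ch m ((rho m (fprod m F))⁻¹ v) w = ch m v w := by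
      rw [← hrho ((rho m (fprod m F))⁻¹ v) w, ← LinearEquiv.mul_apply, mul_inv_cancel]
      rfl
    rw [hY.2 v]
    rw [← (ch_alt m).neg, map_sub, LinearMap.sub_apply]
    change -(ch m v w - ch m ((rho m (fprod m F))⁻¹ v) w) = 0
    rw [h1, sub_self, neg_zero]
  · intro i j
    rw [hz]
    exact hu i j
  · intro x hx v
    exact (mem_Ker m _ x).1 hx v

lemma fprod_filter (m : ℕ) (hm : 0 < m) (F : List (Braid m × ℕ)) (hF : ∀ p ∈ F, 2 * p.2 ≤ m) :
    rho m (fprod m (F.filter fun p => decide (p.2 = 0))) = rho m (fprod m F) := by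
  rw [← tv_vcv m hm F hF, ← tv_vcv m hm _ (fun p hp => hF p (List.mem_of_mem_filter hp))]
  clear hF
  induction F with
  | nil => rfl
  | cons p F ih =>
    by_cases h : p.2 = 0
    · rw [List.filter_cons_of_pos (by simp [h])]
      unfold vcv at ih ⊢
      rw [List.map_cons, List.map_cons, List.map_cons, List.map_cons, List.prod_cons,
        List.prod_cons, ih]
    · rw [List.filter_cons_of_neg (by simp [h]), ih]
      unfold vcv
      rw [List.map_cons, List.map_cons, List.prod_cons, if_neg h, tv_zero, one_mul]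

lemma sm_add {m : ℕ} (F : List (Braid m × ℕ)) :
    sm (fun h => 6 * h ^ 2 + 4 * h) F + sm (fun h => 2 * h ^ 2) F =
      sm (fun h => 2 * h * (4 * h + 2)) F := by
  unfold sm
  rw [← List.sum_map_add]
  congr 1
  refine List.map_congr_left (fun p _ => ?_)
  ring

/-- the exact indices from bounds for the indices of the expanded word -/
theorem main_idxR (m g : ℕ) (P M : ℤ) (hm : 0 < m) (hg : 2 * g ≤ m)
    (hrank : finrank ℝ (LinearMap.range (ch m).flip) ≤ 2 * g)
    (F : List (Braid m × ℕ)) (hF : ∀ p ∈ F, 2 * p.2 ≤ m) (hfull : Full m F)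
    (hrho : ∀ u w, ch m (rho m (fprod m F) u) w = ch m u w)
    (hPM : P + M = Multiplicative.toAdd (deg m (fprod m F)))
    (hP : (posIdx (word (ch m) (pos (ex m F))).q : ℤ) ≤ red F + P)
    (hM : (negIdx (word (ch m) (pos (ex m F))).q : ℤ) ≤ M) :
    (posIdx (fun x : Ker m (vc m F) => (word (ch m) (vc m F)).q x.1) : ℤ) + 2 * g +
          sm (fun h => 6 * h ^ 2 + 4 * h) F = P + red F ∧
      (negIdx (fun x : Ker m (vc m F) => (word (ch m) (vc m F)).q x.1) : ℤ) + 2 * g +
          sm (fun h => 2 * h ^ 2) F = M ∧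
      2 * g + (sm (fun h => 6 * h ^ 2 + 4 * h) F : ℤ) ≤ P ∧
      P + M = irr F + sm (fun h => 2 * h * (4 * h + 2)) F := by
  obtain ⟨hl1, hl2⟩ := length_ex m hm F hF
  have h5 := split_ex m F hF [] []
  have h6 := hyp_vcR m g hm hg F hF hrho hfull
  have h7 : F.length ≤ posIdx (fun x : Ker m (vc m F) => (word (ch m) (vc m F)).q x.1) +
      negIdx (fun x : Ker m (vc m F) => (word (ch m) (vc m F)).q x.1) + 2 * (2 * g) := by
    have h := ker_inertia m (2 * g) hrank (vcv m F)
    have hv : (vcv m F).map (fun v => (true, v)) = vc m F := pos_vcv m F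
    rw [hv] at h
    simpa [vcv] using h
  have h8 := irr_add_red F
  have h9 : posIdx (word (ch m) (vc m F)).q + sm (fun h => 6 * h ^ 2 + 4 * h) F ≤
      posIdx (word (ch m) (pos (ex m F))).q ∧
      negIdx (word (ch m) (vc m F)).q + sm (fun h => 2 * h ^ 2) F ≤
      negIdx (word (ch m) (pos (ex m F))).q := by
    rw [List.nil_append, List.append_nil, List.nil_append, List.append_nil] at h5
    exact h5
  have h10 : 2 * g + red F ≤ posIdx (word (ch m) (vc m F)).q := by
    have h11 := split_vc m F [] []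
    rw [List.nil_append, List.append_nil, List.nil_append, List.append_nil] at h11
    have h13 := hyp_vcR m g hm hg (F.filter fun p => decide (p.2 = 0))
      (fun p hp => hF p (List.mem_of_mem_filter hp)) (by
        rw [fprod_filter m hm F hF]
        exact hrho) (by
        intro u hu w
        refine hfull u (fun p hp hp0 => ?_) w
        exact hu p (List.mem_filter.2 ⟨hp, by simp [hp0]⟩) hp0)
    omega
  have h11 := sm_add F
  refine ⟨?_, ?_, ?_, ?_⟩ <;> omega

end Pool.Agent.H53.HB
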