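import Pool.Agent.H53.HP.Num
import Pool.Agent.H53.HB.Exp

/-!
# Numerical lemmas for factorizations

Sketch. `four_sum_le`: `4 h (g - h) ≤ g ^ 2` for each factor of positive type, induction on the
list. `sq_sum_le`: Cauchy-Schwarz, the number of nonzero terms is `red F` (induction: from
`A ^ 2 ≤ s * B` follows `(a + A) ^ 2 ≤ (s + 1) * (a ^ 2 + B)`). `closed_num`: the inequality
`q (g ^ 2 - 6 g - 4) ≥ (5 - b) g ^ 2 + 4 g + t (g ^ 2 - g)` follows, its left side is `≤ 0` for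
`2 ≤ g ≤ 6`, its right side is positive.
-/

namespace Pool.Agent.H53.HB

private lemma sm_cons {m : ℕ} (f : ℕ → ℕ) (p : Braid m × ℕ) (F : List (Braid m × ℕ)) :
    sm f (p :: F) = f p.2 + sm f F := by
  simp [sm]

private lemma sm_nil {m : ℕ} (f : ℕ → ℕ) : sm (m := m) f [] = 0 := by
  simp [sm]

private lemma red_nil {m : ℕ} : red ([] : List (Braid m × ℕ)) = 0 := by
  simp [red]

private lemma cs_step {a A s B : ℤ} (hs : 0 ≤ s) (hB : 0 ≤ B) (h : A ^ 2 ≤ s * B) :
    (a + A) ^ 2 ≤ (1 + s) * (a ^ 2 + B) := by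
  have key : 2 * a * A ≤ B + s * a ^ 2 := by
    rcases hs.lt_or_eq with h1 | h1
    · have h2 : 0 ≤ s * (B + s * a ^ 2 - 2 * a * A) := by
        have : s * (B + s * a ^ 2 - 2 * a * A) = (s * B - A ^ 2) + (A - s * a) ^ 2 := by ring
        rw [this]
        have := sq_nonneg (A - s * a)
        linarith
      have h3 := nonneg_of_mul_nonneg_right h2 h1
      linarith
    · rw [← h1, zero_mul] at h
      have hA : A = 0 := by
        have := le_antisymm h (sq_nonneg A)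
        exact pow_eq_zero_iff (two_ne_zero) |>.1 this
      rw [hA, ← h1]
      linarith
  have e : (1 + s) * (a ^ 2 + B) - (a + A) ^ 2 = (s * B - A ^ 2) + (B + s * a ^ 2 - 2 * a * A) := by
    ring
  linarith

theorem sq_sum_le {m : ℕ} (F : List (Braid m × ℕ)) :
    (sm (fun h => h) F) ^ 2 ≤ red F * sm (fun h => h ^ 2) F := by
  induction F with
  | nil => rw [sm_nil, sm_nil, red_nil]; norm_num
  | cons p F ih =>
    rw [sm_cons, sm_cons, red_cons]
    by_cases h : p.2 = 0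
    · rw [if_pos h, h]
      simpa using ih
    · rw [if_neg h]
      have h1 : ((sm (fun h => h) F : ℕ) : ℤ) ^ 2 ≤ (red F : ℤ) * (sm (fun h => h ^ 2) F : ℕ) := by
        exact_mod_cast ih
      have h2 := cs_step (a := (p.2 : ℤ)) (Int.natCast_nonneg _) (Int.natCast_nonneg _) h1
      exact_mod_cast h2

theorem four_sum_le {m g : ℕ} (F : List (Braid m × ℕ)) (hF : ∀ p ∈ F, p.2 < g) :
    4 * ((g : ℤ) * sm (fun h => h) F - sm (fun h => h ^ 2) F) ≤ red F * (g : ℤ) ^ 2 := by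
  induction F with
  | nil => rw [sm_nil, sm_nil, red_nil]; norm_num
  | cons p F ih =>
    have ih1 := ih (fun p' hp' => hF p' (by simp [hp']))
    rw [sm_cons, sm_cons, red_cons]
    by_cases h : p.2 = 0
    · rw [if_pos h, h]
      simpa using ih1
    · rw [if_neg h]
      push_cast
      have h1 := sq_nonneg ((g : ℤ) - 2 * (p.2 : ℤ))
      have e1 : 4 * ((g : ℤ) * ((p.2 : ℤ) + (sm (fun h => h) F : ℕ)) - ((p.2 : ℤ) ^ 2 + (sm (fun h => h ^ 2) F : ℕ))) =
          4 * ((g : ℤ) * (sm (fun h => h) F : ℕ) - (sm (fun h => h ^ 2) F : ℕ)) +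
            ((g : ℤ) ^ 2 - ((g : ℤ) - 2 * (p.2 : ℤ)) ^ 2) := by ring
      have e2 : (1 + (red F : ℤ)) * (g : ℤ) ^ 2 = (red F : ℤ) * (g : ℤ) ^ 2 + (g : ℤ) ^ 2 := by ring
      rw [e1, e2]
      linarith

/-- linear combinations of sums of functions of the types -/
theorem sm_lin {m : ℕ} (F : List (Braid m × ℕ)) :
    sm (fun h => 6 * h ^ 2 + 4 * h) F = 6 * sm (fun h => h ^ 2) F + 4 * sm (fun h => h) F ∧
      sm (fun h => 2 * h ^ 2) F = 2 * sm (fun h => h ^ 2) F ∧
      sm (fun h => 2 * h * (4 * h + 2)) F = 8 * sm (fun h => h ^ 2) F + 4 * sm (fun h => h) F := by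
  induction F with
  | nil => simp only [sm_nil]; norm_num
  | cons p F ih =>
    obtain ⟨h1, h2, h3⟩ := ih
    simp only [sm_cons]
    rw [h1, h2, h3]
    refine ⟨by ring, by ring, by ring⟩

theorem closed_num {g q s t b S : ℤ} (hg : 2 ≤ g) (hq : 0 ≤ q) (hs : 0 ≤ s) (ht : 0 ≤ t)
    (hb : b ≤ 5) (hS : 4 * S = 4 * g ^ 2 + 4 * g + 6 * g * q + 4 * q - g * t)
    (hle : 4 * S ≤ s * g ^ 2) (hst : s + t ≤ q + b - 1) : 7 ≤ g := by
  have _ := hs
  by_contra hcon
  have h6 : g ≤ 6 := by omega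
  have h1 : s * g ^ 2 ≤ (q + 4 - t) * g ^ 2 :=
    mul_le_mul_of_nonneg_right (by linarith) (sq_nonneg g)
  have h2 : 4 * g ^ 2 + 4 * g + 6 * g * q + 4 * q - g * t ≤ (q + 4 - t) * g ^ 2 := by
    rw [← hS]
    exact hle.trans h1
  have h3 : 0 ≤ q * (g * (6 - g)) := mul_nonneg hq (mul_nonneg (by linarith) (by linarith))
  have h4 : 0 ≤ t * (g * (g - 1)) := mul_nonneg ht (mul_nonneg (by linarith) (by linarith))
  have e : (q + 4 - t) * g ^ 2 - (4 * g ^ 2 + 4 * g + 6 * g * q + 4 * q - g * t) =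
      -(q * (g * (6 - g))) - t * (g * (g - 1)) - 4 * g - 4 * q := by ring
  linarith

end Pool.Agent.H53.HB
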