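import Pool.Agent.H53.HB.Exp

/-!
# Numerical lemmas: the number of reducible fibres
-/

namespace Pool.Agent.H53.HB

lemma red_fix {g q s t A B : ℤ} (hg : 2 ≤ g) (hq : 0 ≤ q) (hs : 0 ≤ s) (ht : 0 ≤ t)
    (hst : s + t ≤ q) (hA : 4 * A = 8 * g + 6 * q - t) (hB : B = g ^ 2 - g - q)
    (hc : A ^ 2 ≤ s * B) : 5 ≤ s := by
  by_contra h
  have h1 : s ≤ 4 := by omega
  have h2 : 2 * g ≤ A := by linarith
  have h3 : (2 * g) ^ 2 ≤ A ^ 2 := pow_le_pow_left₀ (by linarith) h2 2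
  have h4 : s * B ≤ s * (g ^ 2 - g) := by
    apply mul_le_mul_of_nonneg_left _ hs
    linarith
  have h5 : 0 ≤ g ^ 2 - g := by nlinarith
  have h6 : s * (g ^ 2 - g) ≤ 4 * (g ^ 2 - g) := mul_le_mul_of_nonneg_right h1 h5
  nlinarith

lemma red_swap {g q s t A B : ℤ} (hg : 2 ≤ g) (hq : 0 ≤ q) (hs : 0 ≤ s) (ht : 0 ≤ t)
    (hst : s + t ≤ q + 3) (hA : 4 * A = 6 * g + 2 + 6 * q - t) (hB : 2 * B = g ^ 2 - g - 2 * q)
    (hc : A ^ 2 ≤ s * B) : 5 ≤ s := by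
  by_contra h
  have h1 : s ≤ 4 := by omega
  have h2 : 3 * g ≤ 2 * A := by
    rcases lt_or_ge 0 s with h0 | h0
    · linarith
    · exfalso
      have hs0 : s = 0 := by linarith
      subst hs0
      have h3 : 0 < A := by linarith
      have h4 : A ^ 2 ≤ 0 := by linarith
      nlinarith
  have h3 : (3 * g) ^ 2 ≤ (2 * A) ^ 2 := pow_le_pow_left₀ (by linarith) h2 2
  have h4 : 2 * (s * B) ≤ s * (g ^ 2 - g) := by
    have : 2 * (s * B) = s * (2 * B) := by ring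
    rw [this]
    apply mul_le_mul_of_nonneg_left _ hs
    linarith
  have h5 : 0 ≤ g ^ 2 - g := by nlinarith
  have h6 : s * (g ^ 2 - g) ≤ 4 * (g ^ 2 - g) := mul_le_mul_of_nonneg_right h1 h5
  nlinarith

lemma red_closed {g q s t b S : ℤ} (hg : 2 ≤ g) (hq : 0 ≤ q) (hs : 0 ≤ s) (ht : 0 ≤ t)
    (hb : b ≤ 4) (hS : 4 * S = 4 * g ^ 2 + 4 * g + 6 * g * q + 4 * q - g * t)
    (hle : 4 * S ≤ s * g ^ 2) (hst : s + t ≤ q + b - 1) : 5 ≤ s ∧ 2 ≤ q := by
  have h1 : g * t ≤ g * (q + 3 - s) := mul_le_mul_of_nonneg_left (by linarith) (by linarith)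
  have h2 : 0 ≤ g * q := mul_nonneg (by linarith) hq
  have h3 : 0 ≤ g * s := mul_nonneg (by linarith) hs
  have h4 : 4 * g ^ 2 < s * g ^ 2 := by nlinarith
  have h5 : 4 < s := lt_of_mul_lt_mul_right h4 (by positivity)
  refine ⟨by linarith, by linarith⟩

/-- `(h - 3) (3 h - 11) ≥ 0` for every factor of positive type -/
lemma lin_sum {m : ℕ} (F : List (Braid m × ℕ)) :
    20 * sm (fun h => h) F ≤ 3 * sm (fun h => h ^ 2) F + 33 * red F := by
  induction F with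
  | nil => simp [sm]
  | cons p F ih =>
    have h1 : ∀ f : ℕ → ℕ, sm f (p :: F) = f p.2 + sm f F := by
      intro f
      simp [sm]
    rw [h1, h1, red_cons]
    by_cases h : p.2 = 0
    · simp only [h, if_true]
      omega
    · rw [if_neg h]
      have h2 : 20 * p.2 ≤ 3 * p.2 ^ 2 + 33 := by
        rcases Nat.lt_or_ge p.2 4 with h3 | h3
        · have h4 : p.2 = 1 ∨ p.2 = 2 ∨ p.2 = 3 := by omega
          rcases h4 with h4 | h4 | h4 <;> rw [h4] <;> norm_num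
        · obtain ⟨k, hk⟩ := Nat.exists_eq_add_of_le h3
          rw [hk]
          nlinarith
      omega

/-- two sections which are interchanged -/
lemma swap_two {g s A B b : ℤ} (hg : 2 ≤ g) (hb : b ≤ 2) (h1 : 6 * B + 4 * A ≤ 3 * g ^ 2 + 3 * g + 2)
    (h2 : 5 * g ^ 2 + 7 * g + 6 - 2 * b ≤ 2 * (5 * B + 4 * A - s)) (h3 : 20 * A ≤ 3 * B + 33 * s) :
    21 ≤ g := by
  by_contra h
  have h4 : g ≤ 20 := by omega
  have h5 : 63 * g + 86 - 66 * b ≤ 3 * g ^ 2 := by linarith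
  nlinarith

end Pool.Agent.H53.HB
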