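import Pool.Agent.H53.HB.Closed
import Pool.Agent.H53.HB.NumC
import Pool.Agent.H53.HB.NumD

/-!
# Euler characteristic and signature of a factorization, the inequalities
-/

namespace Pool.Agent.H53.HB

open Module

/-- `b⁺` of the total space: the section and the fibre span a plane of signature `(1, 1)`, the
intersection form on its complement is minus the form on the kernel, modulo the radical -/
noncomputable def wPlus (m : ℕ) (F : List (Braid m × ℕ)) : ℕ :=
  1 + negIdx fun x : Ker m (vc m F) => (word (ch m) (vc m F)).q x.1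

/-- `b⁻` of the total space -/
noncomputable def wMinus (m : ℕ) (F : List (Braid m × ℕ)) : ℕ :=
  1 + posIdx fun x : Ker m (vc m F) => (word (ch m) (vc m F)).q x.1

/-- the Euler characteristic of the total space -/
noncomputable def wchi (m : ℕ) (F : List (Braid m × ℕ)) : ℤ := 2 + wPlus m F + wMinus m F

/-- the signature of the total space -/
noncomputable def wsig (m : ℕ) (F : List (Braid m × ℕ)) : ℤ := (wPlus m F : ℤ) - wMinus m F

/-- an invariant section -/
theorem even_case (g : ℕ) (hg : 2 ≤ g) (F : List (Braid (2 * g) × ℕ)) (hF : ∀ p ∈ F, p.2 < g)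
    (hx : fprod (2 * g) F = tw (2 * g) (2 * g) ^ 2) (hfull : Full (2 * g) F) :
    wchi (2 * g) F = 4 - 4 * g + F.length ∧
      (wchi (2 * g) F - 1 ≤ 3 * (wsig (2 * g) F + 1) →
        15 ≤ g ∧ 5 ≤ wPlus (2 * g) F ∧ 5 ≤ red F) := by
  obtain ⟨hp, hm⟩ := std_even (2 * g) g le_rfl
  have hlen : (blk (2 * g) (2 * g) (4 * g + 2)).length = (4 * g + 2) * (2 * g) :=
    length_blk _ _ _
  have h := main_idx (2 * g) g (6 * g ^ 2 + 4 * g) (2 * g ^ 2) (by omega) le_rfl (rank_even g) F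
    (fun p hp => by have := hF p hp; omega) hfull
    (by rw [hx, rho_tw_even _ g le_rfl]) (blk (2 * g) (2 * g) (4 * g + 2))
    (by rw [gen_blk_even _ g le_rfl, hx])
    (by
      rw [hlen, hx, tw_sq, MonoidHom.map_pow, deg_range _ _ le_rfl, ← ofAdd_nsmul, toAdd_ofAdd,
        nsmul_eq_mul]
      push_cast
      ring)
    (by rw [hlen]; ring) hp hm
  obtain ⟨h1, h2, h3, h4⟩ := h
  obtain ⟨l1, l2, l3⟩ := sm_lin F
  have h5 := irr_add_red F
  have h6 := sq_sum_le F
  rw [hlen, l3] at h4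
  rw [l1] at h1 h3
  rw [l2] at h2
  have hbp : wPlus (2 * g) F = 1 + negIdx fun x : Ker (2 * g) (vc (2 * g) F) =>
      (word (ch (2 * g)) (vc (2 * g) F)).q x.1 := rfl
  have hbm : wMinus (2 * g) F = 1 + posIdx fun x : Ker (2 * g) (vc (2 * g) F) =>
      (word (ch (2 * g)) (vc (2 * g) F)).q x.1 := rfl
  unfold wchi wsig
  rw [hbp, hbm]
  generalize (posIdx fun x : Ker (2 * g) (vc (2 * g) F) =>
      (word (ch (2 * g)) (vc (2 * g) F)).q x.1) = p at h1
  generalize (negIdx fun x : Ker (2 * g) (vc (2 * g) F) =>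
      (word (ch (2 * g)) (vc (2 * g) F)).q x.1) = n at h2
  generalize sm (fun h => h) F = A at h1 h3 h4 h6
  generalize sm (fun h => h ^ 2) F = B at h1 h2 h3 h4 h6
  zify at h1 h2 h3 h4 h5 h6
  push_cast
  refine ⟨by linarith, fun hv => ?_⟩
  obtain ⟨q, hq⟩ : ∃ q : ℤ, q = (g : ℤ) ^ 2 - g - B := ⟨_, rfl⟩
  obtain ⟨t, ht⟩ : ∃ t : ℤ, t = p - red F := ⟨_, rfl⟩
  obtain ⟨h7, h8⟩ := HP.ineq_fix (g := g) (q := q) (s := red F) (t := t) (A := A) (B := B)
    (by exact_mod_cast hg) (by linarith) (by positivity) (by linarith) (by linarith)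
    (by linarith) (by linarith) h6 (by positivity)
  have h9 := HP.genus_fix (g := g) (by exact_mod_cast hg) h7
  have h10 := red_fix (g := g) (q := q) (s := red F) (t := t) (A := A) (B := B)
    (by exact_mod_cast hg) (by linarith) (by positivity) (by linarith) (by linarith)
    (by linarith) (by linarith) h6
  refine ⟨by exact_mod_cast h9, ?_, by exact_mod_cast h10⟩
  have : (5 : ℤ) ≤ 1 + n := by linarith
  exact_mod_cast this

/-- a section which is disjoint from its image -/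
theorem odd_case (g : ℕ) (hg : 2 ≤ g) (F : List (Braid (2 * g + 1) × ℕ)) (hF : ∀ p ∈ F, p.2 < g)
    (hx : fprod (2 * g + 1) F = tw (2 * g + 1) (2 * g + 1)) (hfull : Full (2 * g + 1) F) :
    wchi (2 * g + 1) F = 4 - 4 * g + F.length ∧
      ∀ b : ℤ, b ≤ 4 → wchi (2 * g + 1) F - b ≤ 3 * (wsig (2 * g + 1) F + b) →
        18 ≤ g ∧ (b ≤ 2 → 21 ≤ g) ∧ 5 ≤ wPlus (2 * g + 1) F ∧ 5 ≤ red F := by
  obtain ⟨hp, hm⟩ := std_odd g
  have hlen : (blk (2 * g + 1) (2 * g + 1) (2 * g + 2)).length = (2 * g + 2) * (2 * g + 1) :=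
    length_blk _ _ _
  have h := main_idx (2 * g + 1) g (3 * g ^ 2 + 5 * g + 2) (g ^ 2 + g) (by omega) (by omega)
    (rank_odd g) F (fun p hp => by have := hF p hp; omega) hfull
    (by rw [hx, rho_tw_odd]) (blk (2 * g + 1) (2 * g + 1) (2 * g + 2))
    (by rw [gen_blk_odd, hx])
    (by
      rw [hlen, hx, tw, MonoidHom.map_pow, deg_range _ _ le_rfl, ← ofAdd_nsmul, toAdd_ofAdd,
        nsmul_eq_mul]
      push_cast
      ring)
    (by rw [hlen]; ring) hp hm
  obtain ⟨h1, h2, h3, h4⟩ := h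
  obtain ⟨l1, l2, l3⟩ := sm_lin F
  have h5 := irr_add_red F
  have h6 := sq_sum_le F
  have hlin := lin_sum F
  rw [hlen, l3] at h4
  rw [l1] at h1 h3
  rw [l2] at h2
  have hbp : wPlus (2 * g + 1) F = 1 + negIdx fun x : Ker (2 * g + 1) (vc (2 * g + 1) F) =>
      (word (ch (2 * g + 1)) (vc (2 * g + 1) F)).q x.1 := rfl
  have hbm : wMinus (2 * g + 1) F = 1 + posIdx fun x : Ker (2 * g + 1) (vc (2 * g + 1) F) =>
      (word (ch (2 * g + 1)) (vc (2 * g + 1) F)).q x.1 := rfl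
  unfold wchi wsig
  rw [hbp, hbm]
  generalize (posIdx fun x : Ker (2 * g + 1) (vc (2 * g + 1) F) =>
      (word (ch (2 * g + 1)) (vc (2 * g + 1) F)).q x.1) = p at h1
  generalize (negIdx fun x : Ker (2 * g + 1) (vc (2 * g + 1) F) =>
      (word (ch (2 * g + 1)) (vc (2 * g + 1) F)).q x.1) = n at h2
  generalize sm (fun h => h) F = A at h1 h3 h4 h6 hlin
  generalize sm (fun h => h ^ 2) F = B at h1 h2 h3 h4 h6 hlin
  zify at h1 h2 h3 h4 h5 h6 hlin
  push_cast
  refine ⟨by linarith, fun b hb hv => ?_⟩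
  obtain ⟨k, hk⟩ : Even ((g : ℤ) ^ 2 - g) := by
    have : (g : ℤ) ^ 2 - g = ((g : ℤ) - 1) * (g - 1 + 1) := by ring
    rw [this]
    exact Int.even_mul_succ_self _
  obtain ⟨q, hq⟩ : ∃ q : ℤ, q = k - B := ⟨_, rfl⟩
  obtain ⟨t, ht⟩ : ∃ t : ℤ, t = p - red F := ⟨_, rfl⟩
  obtain ⟨h7, h8⟩ := HP.ineq_swap (g := g) (q := q) (s := red F) (t := t) (A := A) (B := B)
    (by exact_mod_cast hg) (by linarith) (by positivity) (by linarith) (by linarith)
    (by linarith) (by linarith) h6 (by positivity)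
  have h9 := HP.genus_swap (g := g) (q := q) (by exact_mod_cast hg) (by linarith) h7
  have h10 := red_swap (g := g) (q := q) (s := red F) (t := t) (A := A) (B := B)
    (by exact_mod_cast hg) (by linarith) (by positivity) (by linarith) (by linarith)
    (by linarith) (by linarith) h6
  refine ⟨by exact_mod_cast h9, fun hb2 => ?_, ?_, by exact_mod_cast h10⟩
  · have h11 := swap_two (g := g) (s := red F) (A := A) (B := B) (b := b)
      (by exact_mod_cast hg) hb2 (by linarith) (by linarith) hlin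
    exact_mod_cast h11
  · have : (5 : ℤ) ≤ 1 + n := by linarith
    exact_mod_cast this

/-- no section -/
theorem closed_case (g : ℕ) (hg : 2 ≤ g) (F : List (Braid (2 * g + 1) × ℕ))
    (hF : ∀ p ∈ F, p.2 < g) (hx : fprod (2 * g + 1) F ∈ hyp (2 * g + 1) g) (hfull : Full (2 * g + 1) F) :
    wchi (2 * g + 1) F = 4 - 4 * g + F.length ∧
      ∀ b : ℤ, b ≤ 4 → wchi (2 * g + 1) F - b ≤ 3 * (wsig (2 * g + 1) F + b) →
        7 ≤ g ∧ 5 ≤ wPlus (2 * g + 1) F ∧ 5 ≤ red F := by
  obtain ⟨P, M, ⟨k, hk⟩, h0, h1, h2, h3, h4⟩ := closed_idx g (by omega) F hF hx hfull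
  obtain ⟨l1, l2, l3⟩ := sm_lin F
  have h5 := irr_add_red F
  have h6 := four_sum_le F hF
  rw [l3] at h4
  rw [l1] at h1 h3
  rw [l2] at h2
  have hbp : wPlus (2 * g + 1) F = 1 + negIdx fun x : Ker (2 * g + 1) (vc (2 * g + 1) F) =>
      (word (ch (2 * g + 1)) (vc (2 * g + 1) F)).q x.1 := rfl
  have hbm : wMinus (2 * g + 1) F = 1 + posIdx fun x : Ker (2 * g + 1) (vc (2 * g + 1) F) =>
      (word (ch (2 * g + 1)) (vc (2 * g + 1) F)).q x.1 := rfl
  unfold wchi wsig
  rw [hbp, hbm]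
  generalize (posIdx fun x : Ker (2 * g + 1) (vc (2 * g + 1) F) =>
      (word (ch (2 * g + 1)) (vc (2 * g + 1) F)).q x.1) = p at h1
  generalize (negIdx fun x : Ker (2 * g + 1) (vc (2 * g + 1) F) =>
      (word (ch (2 * g + 1)) (vc (2 * g + 1) F)).q x.1) = n at h2
  generalize sm (fun h => h) F = A at h1 h3 h4 h6
  generalize sm (fun h => h ^ 2) F = B at h1 h2 h3 h4 h6
  zify at h5
  push_cast at h1 h2 h3 h4
  push_cast
  refine ⟨by linarith, fun b hb hv => ?_⟩
  obtain ⟨q, hq⟩ : ∃ q : ℤ, q = k - g - B := ⟨_, rfl⟩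
  obtain ⟨t, ht⟩ : ∃ t : ℤ, t = p - red F := ⟨_, rfl⟩
  have hn : (n : ℤ) = 2 * q := by linarith
  have hn0 : (0 : ℤ) ≤ n := Int.natCast_nonneg n
  have hS : 4 * ((g : ℤ) * A - B) = 4 * g ^ 2 + 4 * g + 6 * g * q + 4 * q - g * t := by
    have e1 : M = 2 * q + 2 * g + 2 * B := by linarith
    have e2 : P = t + 2 * g + 6 * B + 4 * A := by linarith
    rw [e1, e2] at h0
    linear_combination -h0
  have h7 := closed_num (g := g) (q := q) (s := red F) (t := t) (b := b)
    (S := (g : ℤ) * A - B) (by exact_mod_cast hg) (by linarith) (by positivity) (by linarith)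
    (by linarith) hS h6 (by linarith)
  obtain ⟨h8, h9⟩ := red_closed (g := g) (q := q) (s := red F) (t := t) (b := b)
    (S := (g : ℤ) * A - B) (by exact_mod_cast hg) (by linarith) (by positivity) (by linarith) hb
    hS h6 (by linarith)
  refine ⟨by exact_mod_cast h7, ?_, by exact_mod_cast h8⟩
  have : (5 : ℤ) ≤ 1 + n := by linarith
  exact_mod_cast this

end Pool.Agent.H53.HB
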