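import Pool.Agent.H53.HB.FDefs

/-!
# The eigenvectors of the form of a power of a Coxeter element of type `A`

Sketch. Put `ζ = exp (2 π I a / k)`, `ψ = exp (-I φ)` with `φ = π / 2 - π a / k`, so that
`z j i = ζ^j ψ^i S i`, `S i = sin (π b (i+1) / (r+1))`, and `md = Re ((1 - I) z)`. Then
`∑ j, z j i = 0` as `ζ^k = 1 ≠ ζ`. For `Lf x y` with `x = z`: the coefficient of `y j i` is
`x j i + x j (i-1) + ∑ j' < j, (x j' (i-1) - x j' (i+1))` (terms with index `-1` or `r` are absent;
note `S (-1) = 0 = S r`), which is `ζ^j (s i + (ζ s (i-1) - s (i+1)) / (ζ - 1)) + const i` with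
`s i = ψ^i S i`; the constant drops out by `hy`; `ζ ψ⁻¹ = -ψ`, `S (i-1) + S (i+1) = 2 cos (π b /
(r+1)) S i` and `-ψ / (ζ - 1) = 1 / (2 sin (π a / k))` give `mu`. A real proof is possible too: with
`C t = cos t + sin t`, `θ = π a / k`: `2 sin θ ∑ j' < j, C (θ (2 j' + i) - π i / 2)` telescopes.
All statements were checked numerically.
-/

namespace Pool.Agent.H53.HB

open Finset Real

private lemma sin_pos_theta {k a : ℕ} (ha : 1 ≤ a) (hk : a < k) : 0 < sin (π * a / k) := by
  have hk0 : (0 : ℝ) < k := by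
    have : 0 < k := by omega
    exact_mod_cast this
  have ha0 : (0 : ℝ) < a := by
    have : 0 < a := by omega
    exact_mod_cast this
  have hak : (a : ℝ) < k := by exact_mod_cast hk
  apply sin_pos_of_pos_of_lt_pi
  · positivity
  · rw [div_lt_iff₀ hk0]
    exact mul_lt_mul_of_pos_left hak pi_pos

/-- the same as `md` with the index of the second coordinate shifted -/
private noncomputable def pd (r k a b : ℕ) (j i : ℕ) : ℝ :=
  (cos (π * a / k * (2 * j + i) - π * i / 2 - π * a / k) -
    sin (π * a / k * (2 * j + i) - π * i / 2 - π * a / k)) * sin (π * b * i / (r + 1))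

private lemma pd_zero (r k a b j : ℕ) : pd r k a b j 0 = 0 := by
  unfold pd
  simp

private lemma pd_succ (r k a b j i : ℕ) : pd r k a b j (i + 1) = md r k a b j i := by
  unfold pd md
  have h : π * a / k * (2 * j + ((i + 1 : ℕ) : ℝ)) - π * ((i + 1 : ℕ) : ℝ) / 2 - π * a / k
      = (π * a / k * (2 * j + i) - π * i / 2) - π / 2 := by
    push_cast
    ring
  rw [h, cos_sub_pi_div_two, sin_sub_pi_div_two]
  push_cast
  ring

private lemma md_top (r k a b j : ℕ) : md r k a b j r = 0 := by
  unfold md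
  have h : π * b * ((r : ℝ) + 1) / (r + 1) = b * π := by
    have : (r : ℝ) + 1 ≠ 0 := by positivity
    field_simp
  rw [h, sin_nat_mul_pi, mul_zero]

private lemma step_aux (t θ S β : ℝ) (hs : sin θ ≠ 0) :
    (cos (t + θ) + sin (t + θ)) * sin S - (cos (t - θ) + sin (t - θ)) * sin S +
        (cos t - sin t) * sin (S - β) - (sin t + -cos t) * sin (S + β) =
      (1 + cos β / sin θ) *
        ((cos (t + θ) + sin (t + θ)) * sin S - (cos (t - θ) + sin (t - θ)) * sin S) := by
  rw [sin_add S β, sin_sub S β, cos_add, cos_sub, sin_add, sin_sub]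
  field_simp
  ring

private lemma step (r k a b : ℕ) (ha : 1 ≤ a) (hk : a < k) (j i : ℕ) :
    md r k a b (j + 1) i - md r k a b j i + pd r k a b (j + 1) i - md r k a b j (i + 1) =
      mu r k a b * (md r k a b (j + 1) i - md r k a b j i) := by
  have hs := (sin_pos_theta ha hk).ne'
  unfold md pd mu
  generalize π * a / k = θ at *
  have e1 : θ * (2 * ((j + 1 : ℕ) : ℝ) + i) - π * i / 2 =
      (θ * (2 * j + i) - π * i / 2 + θ) + θ := by
    push_cast; ring
  have e2 : θ * (2 * (j : ℝ) + i) - π * i / 2 =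
      (θ * (2 * j + i) - π * i / 2 + θ) - θ := by
    ring
  have e3 : θ * (2 * (j : ℝ) + ((i + 1 : ℕ) : ℝ)) - π * ((i + 1 : ℕ) : ℝ) / 2 =
      (θ * (2 * j + i) - π * i / 2 + θ) - π / 2 := by
    push_cast; ring
  have e4 : π * b * (((i + 1 : ℕ) : ℝ) + 1) / (r + 1) =
      π * b * (i + 1) / (r + 1) + π * b / (r + 1) := by
    push_cast; ring
  have e5 : π * b * (i : ℝ) / (r + 1) = π * b * (i + 1) / (r + 1) - π * b / (r + 1) := by
    ring
  rw [e1, e3, e4, e5]
  generalize hB : π * b / ((r : ℝ) + 1) = β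
  generalize hS : π * b * ((i : ℝ) + 1) / (r + 1) = S
  generalize ht : θ * (2 * (j : ℝ) + i) - π * i / 2 + θ = t at e2
  rw [e2, add_sub_cancel_right, cos_sub_pi_div_two, sin_sub_pi_div_two]
  exact step_aux t θ S β hs

private lemma coef (r k a b : ℕ) (ha : 1 ≤ a) (hk : a < k) (i : ℕ) : ∀ j : ℕ,
    md r k a b j i + pd r k a b j i +
      ∑ j' ∈ range j, (pd r k a b j' i - md r k a b j' (i + 1)) =
    mu r k a b * md r k a b j i +
      (md r k a b 0 i + pd r k a b 0 i - mu r k a b * md r k a b 0 i) := by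
  intro j
  induction j with
  | zero => simp
  | succ j ih =>
    rw [sum_range_succ]
    have h := step r k a b ha hk j i
    linear_combination ih + h

private lemma Lf_eq (r k : ℕ) (x p y : ℕ → ℕ → ℝ) (h0 : ∀ j, p j 0 = 0)
    (h1 : ∀ j i, p j (i + 1) = x j i) (h2 : ∀ j, x j r = 0) :
    Lf r k x y = ∑ j ∈ range k, ∑ i ∈ range r, y j i *
      (x j i + p j i + ∑ j' ∈ range j, (p j' i - x j' (i + 1))) := by
  unfold Lf
  rw [← sum_add_distrib]
  apply sum_congr rfl
  intro j _
  rcases r with _ | n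
  · simp
  · simp only [Nat.add_sub_cancel]
    have e1 : ∀ j', ∑ i ∈ range n, x j' i * y j (i + 1) =
        ∑ i ∈ range (n + 1), p j' i * y j i := by
      intro j'
      rw [sum_range_succ', h0, zero_mul, add_zero]
      exact sum_congr rfl (fun i _ => by rw [h1])
    have e2 : ∀ j', ∑ i ∈ range n, x j' (i + 1) * y j i =
        ∑ i ∈ range (n + 1), x j' (i + 1) * y j i := by
      intro j'
      rw [sum_range_succ, h2, zero_mul, add_zero]
    have e3 : ∑ j' ∈ range j, ∑ i ∈ range n,
        (x j' i * y j (i + 1) - x j' (i + 1) * y j i) =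
        ∑ i ∈ range (n + 1), y j i * ∑ j' ∈ range j, (p j' i - x j' (i + 1)) := by
      have : ∀ j' ∈ range j, ∑ i ∈ range n,
          (x j' i * y j (i + 1) - x j' (i + 1) * y j i) =
          ∑ i ∈ range (n + 1), y j i * (p j' i - x j' (i + 1)) := by
        intro j' _
        rw [sum_sub_distrib, e1, e2, ← sum_sub_distrib]
        exact sum_congr rfl (fun i _ => by ring)
      rw [sum_congr rfl this, sum_comm]
      exact sum_congr rfl (fun i _ => by rw [mul_sum])
    rw [e1, e3, ← sum_add_distrib, ← sum_add_distrib]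
    exact sum_congr rfl (fun i _ => by ring)

theorem Lf_md (r k a b : ℕ) (ha : 1 ≤ a) (hk : a < k) (y : ℕ → ℕ → ℝ)
    (hy : ∀ i < r, ∑ j ∈ range k, y j i = 0) :
    Lf r k (md r k a b) y = mu r k a b * ∑ j ∈ range k, ∑ i ∈ range r, md r k a b j i * y j i := by
  rw [Lf_eq r k (md r k a b) (pd r k a b) y (pd_zero r k a b) (pd_succ r k a b)
    (md_top r k a b)]
  have h1 : ∀ j ∈ range k, ∑ i ∈ range r, y j i *
      (md r k a b j i + pd r k a b j i +
        ∑ j' ∈ range j, (pd r k a b j' i - md r k a b j' (i + 1))) =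
      mu r k a b * ∑ i ∈ range r, md r k a b j i * y j i + ∑ i ∈ range r, y j i *
        (md r k a b 0 i + pd r k a b 0 i - mu r k a b * md r k a b 0 i) := by
    intro j _
    rw [mul_sum, ← sum_add_distrib]
    apply sum_congr rfl
    intro i _
    rw [coef r k a b ha hk i j]
    ring
  rw [sum_congr rfl h1, sum_add_distrib, ← mul_sum]
  have h2 : ∑ j ∈ range k, ∑ i ∈ range r, y j i *
      (md r k a b 0 i + pd r k a b 0 i - mu r k a b * md r k a b 0 i) = 0 := by
    rw [sum_comm]
    apply sum_eq_zero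
    intro i hi
    rw [← sum_mul, hy i (mem_range.1 hi), zero_mul]
  rw [h2, add_zero]

theorem sum_md (r k a b : ℕ) (ha : 1 ≤ a) (hk : a < k) (i : ℕ) :
    ∑ j ∈ range k, md r k a b j i = 0 := by
  have hs := sin_pos_theta ha hk
  have hk0 : (k : ℝ) ≠ 0 := by
    have : k ≠ 0 := by omega
    exact_mod_cast this
  unfold md
  rw [← sum_mul]
  set θ := π * a / k with hθ
  have key : ∀ n : ℕ, 2 * sin θ * ∑ j ∈ range n, (cos (θ * (2 * (j : ℝ) + i) - π * i / 2) +
      sin (θ * (2 * (j : ℝ) + i) - π * i / 2)) =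
      (sin (θ * (2 * (n : ℝ) + i) - π * i / 2 - θ) - cos (θ * (2 * (n : ℝ) + i) - π * i / 2 - θ))
      - (sin (θ * i - π * i / 2 - θ) - cos (θ * i - π * i / 2 - θ)) := by
    intro n
    induction n with
    | zero => simp
    | succ n ih =>
      rw [sum_range_succ, mul_add, ih]
      have e1 : θ * (2 * ((n + 1 : ℕ) : ℝ) + i) - π * i / 2 - θ
          = (θ * (2 * (n : ℝ) + i) - π * i / 2) + θ := by
        push_cast
        ring
      rw [e1]
      set t := θ * (2 * (n : ℝ) + i) - π * i / 2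
      rw [sin_add, cos_add, sin_sub t θ, cos_sub t θ]
      ring
  have h := key k
  have e2 : θ * (2 * (k : ℝ) + i) - π * i / 2 - θ
      = (θ * i - π * i / 2 - θ) + (a : ℕ) * (2 * π) := by
    rw [hθ]
    field_simp
    ring
  rw [e2, sin_add_nat_mul_two_pi, cos_add_nat_mul_two_pi, sub_self] at h
  have h3 : ∑ j ∈ range k, (cos (θ * (2 * (j : ℝ) + i) - π * i / 2) +
      sin (θ * (2 * (j : ℝ) + i) - π * i / 2)) = 0 := by
    rcases mul_eq_zero.1 h with h4 | h4
    · exact absurd h4 (by positivity)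
    · exact h4
  rw [h3, zero_mul]

end Pool.Agent.H53.HB
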