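import Pool.Agent.H53.HB.Idx

/-!
# Invariance of the signature under Hurwitz moves and cancellation

First: `Dat.Iso` is reflexive, symmetric, transitive, `Dat.mul` respects it, is associative
and has the unit `Dat.one` up to `Dat.Iso`; isomorphic data have the same `posIdx` and `negIdx` of
`q` (`posIdx_congr`). Hence `sg (u ++ w ++ t)` depends only on the isomorphism class of `word w`.
* Hurwitz move, with `(ε, v) = a`, `(ε', w) = b`, `c = ω v w`: the isomorphism of the data of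
  `[a, b]` and of `[b, a']`, `a' = (ε, v - ε' c w)`, is `(x, y) ↦ (y + ε' c x, x)`.
* sign: `x ↦ -x`.
* cancellation: with `m = s + t`, `n = ε (s - t) + ω (V x, v) + ω (v, V y)` the form is
  `q' (x, y) + m n`, a hyperbolic plane more.
* `idx_map`: an isomorphism by induction on the word (the same coordinates).
-/

set_option autoImplicit false

namespace Pool.Agent.H53.HB

open Module

variable {U : Type} [AddCommGroup U] [Module ℝ U] (ω : U →ₗ[ℝ] U →ₗ[ℝ] ℝ)

namespace Dat

lemma Iso.refl (A : Dat U) : Iso A A :=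
  ⟨LinearEquiv.refl ℝ _, fun _ => rfl, fun _ => rfl⟩

lemma Iso.symm {A B : Dat U} (h : Iso A B) : Iso B A := by
  obtain ⟨e, h1, h2⟩ := h
  refine ⟨e.symm, fun x => ?_, fun x => ?_⟩
  · rw [← h1 (e.symm x), e.apply_symm_apply]
  · rw [← h2 (e.symm x), e.apply_symm_apply]

lemma Iso.trans {A B C : Dat U} (h : Iso A B) (h' : Iso B C) : Iso A C := by
  obtain ⟨e, h1, h2⟩ := h
  obtain ⟨f, h3, h4⟩ := h'
  refine ⟨e.trans f, fun x => ?_, fun x => ?_⟩
  · rw [LinearEquiv.trans_apply, h3, h1]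
  · rw [LinearEquiv.trans_apply, h4, h2]

lemma Iso.mul {A A' B B' : Dat U} (h : Iso A A') (h' : Iso B B') :
    Iso (Dat.mul ω A B) (Dat.mul ω A' B') := by
  obtain ⟨e, h1, h2⟩ := h
  obtain ⟨f, h3, h4⟩ := h'
  refine ⟨LinearEquiv.prodCongr e f, ?_, ?_⟩
  · rintro ⟨x, y⟩
    change (Dat.mul ω A' B').q (e x, f y) = _
    rw [mul_q, mul_q, h1, h3, h2, h4]
  · rintro ⟨x, y⟩
    change (Dat.mul ω A' B').V (e x, f y) = _
    rw [mul_V, mul_V, h2, h4]

lemma mul_assoc_iso (A B C : Dat U) :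
    Iso (Dat.mul ω (Dat.mul ω A B) C) (Dat.mul ω A (Dat.mul ω B C)) := by
  refine ⟨LinearEquiv.prodAssoc ℝ _ _ _, ?_, ?_⟩
  · rintro ⟨⟨x, y⟩, z⟩
    change (Dat.mul ω A (Dat.mul ω B C)).q (x, (y, z)) = _
    rw [mul_q, mul_q, mul_q, mul_q, mul_V, mul_V, map_add, map_add, LinearMap.add_apply]
    ring
  · rintro ⟨⟨x, y⟩, z⟩
    change (Dat.mul ω A (Dat.mul ω B C)).V (x, (y, z)) = _
    rw [mul_V, mul_V, mul_V, mul_V, add_assoc]

lemma one_mul_iso (A : Dat U) : Iso A (Dat.mul ω Dat.one A) := by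
  refine ⟨LinearEquiv.ofLinearMap (LinearMap.inr ℝ (Dat.one : Dat U).E A.E)
    (LinearMap.snd ℝ (Dat.one : Dat U).E A.E) ?_ ?_, ?_, ?_⟩
  · ext x
    rfl
  · ext x
    rfl
  · intro x
    change (Dat.mul ω Dat.one A).q (0, x) = _
    rw [mul_q, one_q, one_V]
    simp
  · intro x
    change (Dat.mul ω Dat.one A).V (0, x) = _
    rw [mul_V, one_V, zero_add]

end Dat

lemma finrank_word (w : List (Bool × U)) : finrank ℝ (word ω w).E = w.length := by
  induction w with
  | nil => exact Module.finrank_eq_zero_of_subsingleton (R := ℝ) (M := PUnit)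
  | cons a w ih =>
    change finrank ℝ (ℝ × (word ω w).E) = _
    rw [Module.finrank_prod, Module.finrank_self, ih, List.length_cons, add_comm]

lemma word_append_iso (u w : List (Bool × U)) :
    Dat.Iso (word ω (u ++ w)) (Dat.mul ω (word ω u) (word ω w)) := by
  induction u with
  | nil => exact Dat.one_mul_iso ω _
  | cons a u ih =>
    refine Dat.Iso.trans (Dat.Iso.mul ω (Dat.Iso.refl (Dat.single (sgn a.1) a.2)) ih) ?_
    exact (Dat.mul_assoc_iso ω _ _ _).symm

lemma posIdx_iso {A B : Dat U} (h : Dat.Iso A B) : posIdx A.q = posIdx B.q := by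
  obtain ⟨e, h1, -⟩ := h
  exact posIdx_congr e _ _ h1

lemma negIdx_iso {A B : Dat U} (h : Dat.Iso A B) : negIdx A.q = negIdx B.q := by
  obtain ⟨e, h1, -⟩ := h
  exact negIdx_congr e _ _ h1

lemma sg_iso {w w' : List (Bool × U)} (h : Dat.Iso (word ω w) (word ω w')) :
    sg ω w = sg ω w' := by
  rw [sg, sg, posIdx_iso h, negIdx_iso h]

/-- the data of a product of three words -/
lemma word_three (u w t : List (Bool × U)) :
    Dat.Iso (word ω (u ++ w ++ t))
      (Dat.mul ω (Dat.mul ω (word ω u) (word ω w)) (word ω t)) :=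
  (word_append_iso ω (u ++ w) t).trans
    (Dat.Iso.mul ω (word_append_iso ω u w) (Dat.Iso.refl _))

lemma sg_context (u t : List (Bool × U)) {w w' : List (Bool × U)}
    (h : Dat.Iso (word ω w) (word ω w')) : sg ω (u ++ w ++ t) = sg ω (u ++ w' ++ t) := by
  apply sg_iso
  refine (word_three ω u w t).trans (Dat.Iso.trans ?_ (word_three ω u w' t).symm)
  exact Dat.Iso.mul ω (Dat.Iso.mul ω (Dat.Iso.refl _) h) (Dat.Iso.refl _)

lemma sgn_sq (b : Bool) : sgn b * sgn b = 1 := by
  cases b <;> simp [sgn]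

lemma sgn_not (b : Bool) : sgn (!b) = -sgn b := by
  cases b <;> simp [sgn]

lemma word_two_q (a b : Bool × U) (x y : ℝ) (z : PUnit) :
    (word ω [a, b]).q (x, (y, z)) =
      sgn a.1 * (x * x) + sgn b.1 * (y * y) + x * y * ω a.2 b.2 := by
  have h : (word ω [a, b]).q (x, (y, z)) = sgn a.1 * (x * x) +
      (sgn b.1 * (y * y) + 0 + ω (y • b.2) (0 : U)) + ω (x • a.2) (y • b.2 + (0 : U)) := rfl
  rw [h]
  simp only [map_smul, LinearMap.smul_apply, smul_eq_mul, map_zero, add_zero]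
  ring

lemma word_two_V (a b : Bool × U) (x y : ℝ) (z : PUnit) :
    (word ω [a, b]).V (x, (y, z)) = x • a.2 + y • b.2 := by
  have h : (word ω [a, b]).V (x, (y, z)) = x • a.2 + (y • b.2 + (0 : U)) := rfl
  rw [h, add_zero]

/-- the change of coordinates of a Hurwitz move -/
def hurEquiv (k : ℝ) : (ℝ × (ℝ × PUnit)) ≃ₗ[ℝ] (ℝ × (ℝ × PUnit)) where
  toFun p := (p.2.1 + k * p.1, (p.1, p.2.2))
  invFun p := (p.2.1, (p.1 - k * p.2.1, p.2.2))
  map_add' p r := by
    refine Prod.ext ?_ (Prod.ext rfl rfl)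
    change p.2.1 + r.2.1 + k * (p.1 + r.1) = p.2.1 + k * p.1 + (r.2.1 + k * r.1)
    ring
  map_smul' c p := by
    refine Prod.ext ?_ (Prod.ext rfl rfl)
    change c * p.2.1 + k * (c * p.1) = c * (p.2.1 + k * p.1)
    ring
  left_inv p := by
    refine Prod.ext rfl (Prod.ext ?_ rfl)
    change p.2.1 + k * p.1 - k * p.1 = p.2.1
    ring
  right_inv p := by
    refine Prod.ext ?_ (Prod.ext rfl rfl)
    change p.1 - k * p.2.1 + k * p.2.1 = p.1
    ring

lemma hurwitz_iso (hω : ω.IsAlt) (a b : Bool × U) :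
    Dat.Iso (word ω [a, b])
      (word ω [b, (a.1, a.2 - (sgn b.1 * ω a.2 b.2) • b.2)]) := by
  have hs := sgn_sq b.1
  have hbb := hω.self_eq_zero b.2
  have hba : ω b.2 a.2 = -ω a.2 b.2 := by rw [← hω.neg]
  refine ⟨hurEquiv (sgn b.1 * ω a.2 b.2), ?_, ?_⟩
  · have h : ∀ (x y : ℝ) (z : PUnit), (word ω [b, (a.1, a.2 - (sgn b.1 * ω a.2 b.2) • b.2)]).q
        (y + sgn b.1 * ω a.2 b.2 * x, (x, z)) = (word ω [a, b]).q (x, (y, z)) := by
      intro x y z
      rw [word_two_q, word_two_q]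
      simp only [map_sub, map_smul, smul_eq_mul, hbb, hba, mul_zero, sub_zero]
      linear_combination (x * y * ω a.2 b.2 * 2 + sgn b.1 * (ω a.2 b.2) ^ 2 * x ^ 2) * hs
    exact fun p => h p.1 p.2.1 p.2.2
  · have h : ∀ (x y : ℝ) (z : PUnit), (word ω [b, (a.1, a.2 - (sgn b.1 * ω a.2 b.2) • b.2)]).V
        (y + sgn b.1 * ω a.2 b.2 * x, (x, z)) = (word ω [a, b]).V (x, (y, z)) := by
      intro x y z
      rw [word_two_V, word_two_V]
      module
    exact fun p => h p.1 p.2.1 p.2.2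

theorem sg_hurwitz (hω : ω.IsAlt) (u t : List (Bool × U)) (a b : Bool × U) :
    sg ω (u ++ [a, b] ++ t) =
      sg ω (u ++ [b, (a.1, a.2 - (sgn b.1 * ω a.2 b.2) • b.2)] ++ t) :=
  sg_context ω u t (hurwitz_iso ω hω a b)

theorem sg_neg (u t : List (Bool × U)) (b : Bool) (v : U) :
    sg ω (u ++ [(b, v)] ++ t) = sg ω (u ++ [(b, -v)] ++ t) := by
  apply sg_context
  refine ⟨LinearEquiv.neg ℝ, ?_, ?_⟩
  · have h : ∀ x : ℝ, sgn b * (-x * -x) + 0 + ω (-x • -v) (0 : U) =
        sgn b * (x * x) + 0 + ω (x • v) (0 : U) := by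
      intro x
      simp
    exact fun p => h p.1
  · have h : ∀ x : ℝ, -x • -v + (0 : U) = x • v + (0 : U) := by
      intro x
      simp
    exact fun p => h p.1

section Cancel

variable (A B : Dat U) (b : Bool) (v : U)

/-- the data with a cancelling pair of letters -/
noncomputable def big : Dat U := Dat.mul ω (Dat.mul ω A (word ω [(b, v), (!b, v)])) B

lemma big_q (hω : ω.IsAlt) (x : A.E) (s t : ℝ) (z : PUnit) (y : B.E) :
    (big ω A B b v).q ((x, (s, (t, z))), y) = (Dat.mul ω A B).q (x, y) +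
      (s + t) * (sgn b * (s - t) + (ω (A.V x) v + ω v (B.V y))) := by
  have h : (big ω A B b v).q ((x, (s, (t, z))), y) =
      A.q x + (word ω [(b, v), (!b, v)]).q (s, (t, z)) +
        ω (A.V x) ((word ω [(b, v), (!b, v)]).V (s, (t, z))) + B.q y +
        ω (A.V x + (word ω [(b, v), (!b, v)]).V (s, (t, z))) (B.V y) := rfl
  rw [h, word_two_q, word_two_V, Dat.mul_q, hω.self_eq_zero v, sgn_not]
  simp only [map_add, map_smul, LinearMap.add_apply, LinearMap.smul_apply, smul_eq_mul]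
  ring

/-- the linear function `(x, y) ↦ ω (V x, v) + ω (v, V y)` -/
noncomputable def kf : (Dat.mul ω A B).E →ₗ[ℝ] ℝ :=
  (ω.flip v ∘ₗ A.V ∘ₗ LinearMap.fst ℝ A.E B.E) + (ω v ∘ₗ B.V ∘ₗ LinearMap.snd ℝ A.E B.E)

lemma kf_apply (x : A.E) (y : B.E) : kf ω A B v (x, y) = ω (A.V x) v + ω v (B.V y) := rfl

/-- the coordinates -/
noncomputable def kap (d e : ℝ) : (Dat.mul ω A B).E × ℝ →ₗ[ℝ] (big ω A B b v).E where
  toFun p := ((p.1.1, ((p.2 + e * (d * p.2 - kf ω A B v p.1)) / 2,
    ((p.2 - e * (d * p.2 - kf ω A B v p.1)) / 2, PUnit.unit))), p.1.2)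
  map_add' p r := by
    refine Prod.ext (Prod.ext rfl (Prod.ext ?_ (Prod.ext ?_ rfl))) rfl
    · change (p.2 + r.2 + e * (d * (p.2 + r.2) - kf ω A B v (p.1 + r.1))) / 2 =
        (p.2 + e * (d * p.2 - kf ω A B v p.1)) / 2 + (r.2 + e * (d * r.2 - kf ω A B v r.1)) / 2
      rw [map_add]
      ring
    · change (p.2 + r.2 - e * (d * (p.2 + r.2) - kf ω A B v (p.1 + r.1))) / 2 =
        (p.2 - e * (d * p.2 - kf ω A B v p.1)) / 2 + (r.2 - e * (d * r.2 - kf ω A B v r.1)) / 2
      rw [map_add]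
      ring
  map_smul' c p := by
    refine Prod.ext (Prod.ext rfl (Prod.ext ?_ (Prod.ext ?_ rfl))) rfl
    · change (c * p.2 + e * (d * (c * p.2) - kf ω A B v (c • p.1))) / 2 =
        c * ((p.2 + e * (d * p.2 - kf ω A B v p.1)) / 2)
      rw [map_smul, smul_eq_mul]
      ring
    · change (c * p.2 - e * (d * (c * p.2) - kf ω A B v (c • p.1))) / 2 =
        c * ((p.2 - e * (d * p.2 - kf ω A B v p.1)) / 2)
      rw [map_smul, smul_eq_mul]
      ring

lemma big_kap (hω : ω.IsAlt) (d : ℝ) (p : (Dat.mul ω A B).E) (c : ℝ) :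
    (big ω A B b v).q (kap ω A B b v d (sgn b) (p, c)) = (Dat.mul ω A B).q p + d * (c * c) := by
  obtain ⟨x, y⟩ := p
  have hs := sgn_sq b
  have h := big_q ω A B b v hω x ((c + sgn b * (d * c - kf ω A B v (x, y))) / 2)
    ((c - sgn b * (d * c - kf ω A B v (x, y))) / 2) PUnit.unit y
  refine h.trans ?_
  rw [kf_apply]
  linear_combination c * (d * c - (ω (A.V x) v + ω v (B.V y))) * hs

lemma mul_q_zero : (Dat.mul ω A B).q 0 = 0 := by
  change (Dat.mul ω A B).L 0 0 = 0
  exact map_zero _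

/-- the coordinate `s + t` -/
noncomputable def elL : (big ω A B b v).E →ₗ[ℝ] ℝ where
  toFun p := @HAdd.hAdd ℝ ℝ ℝ instHAdd p.1.2.1 p.1.2.2.1
  map_add' p r := by
    have h : ∀ s t s' t' : ℝ, s + s' + (t + t') = s + t + (s' + t') := by
      intro s t s' t'
      ring
    exact h p.1.2.1 p.1.2.2.1 r.1.2.1 r.1.2.2.1
  map_smul' c p := by
    have h : ∀ s t : ℝ, c * s + c * t = c * (s + t) := by
      intro s t
      ring
    exact h p.1.2.1 p.1.2.2.1

/-- the coordinates `(x, y)` -/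
noncomputable def elP : (big ω A B b v).E →ₗ[ℝ] (Dat.mul ω A B).E where
  toFun p := (p.1.1, p.2)
  map_add' _ _ := rfl
  map_smul' _ _ := rfl

lemma big_red (hω : ω.IsAlt) (p : (big ω A B b v).E) (h : elL ω A B b v p = 0) :
    (big ω A B b v).q p = (Dat.mul ω A B).q (elP ω A B b v p) := by
  have key : ∀ (x : A.E) (s t : ℝ) (z : PUnit) (y : B.E), s + t = 0 →
      (big ω A B b v).q ((x, (s, (t, z))), y) = (Dat.mul ω A B).q (x, y) := by
    intro x s t z y h'
    have h2 := big_q ω A B b v hω x s t z y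
    rw [h2, h', zero_mul, add_zero]
  exact key p.1.1 p.1.2.1 p.1.2.2.1 p.1.2.2.2 p.2 h

lemma one_le_posIdx_sq : 1 ≤ posIdx (fun c : ℝ => 1 * (c * c)) := by
  have h := le_posIdx (fun c : ℝ => 1 * (c * c)) (⊤ : Submodule ℝ ℝ) (by
    intro x _ hx
    have : 0 < x * x := mul_self_pos.mpr hx
    change 0 < 1 * (x * x)
    rw [one_mul]
    exact this)
  rwa [finrank_top, Module.finrank_self] at h

lemma one_le_negIdx_sq : 1 ≤ negIdx (fun c : ℝ => -1 * (c * c)) := by
  have h := le_posIdx (fun c : ℝ => -(-1 * (c * c))) (⊤ : Submodule ℝ ℝ) (by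
    intro x _ hx
    have : 0 < x * x := mul_self_pos.mpr hx
    change 0 < -(-1 * (x * x))
    linarith)
  rwa [finrank_top, Module.finrank_self] at h

lemma big_posIdx (hω : ω.IsAlt) :
    posIdx (big ω A B b v).q = posIdx (Dat.mul ω A B).q + 1 := by
  apply le_antisymm
  · exact posIdx_red (elP ω A B b v) (elL ω A B b v) _ _ (mul_q_zero ω A B)
      (fun p h => big_red ω A B b v hω p h)
  · refine le_trans (Nat.add_le_add_left one_le_posIdx_sq _)
      (posIdx_add_le (kap ω A B b v 1 (sgn b)) _ _ _ (mul_q_zero ω A B) (by simp)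
        (fun x y => big_kap ω A B b v hω 1 x y))

lemma big_negIdx (hω : ω.IsAlt) :
    negIdx (big ω A B b v).q = negIdx (Dat.mul ω A B).q + 1 := by
  apply le_antisymm
  · exact negIdx_red (elP ω A B b v) (elL ω A B b v) _ _ (mul_q_zero ω A B)
      (fun p h => big_red ω A B b v hω p h)
  · refine le_trans (Nat.add_le_add_left one_le_negIdx_sq _)
      (negIdx_add_le (kap ω A B b v (-1) (sgn b)) _ _ _ (mul_q_zero ω A B) (by simp)
        (fun x y => big_kap ω A B b v hω (-1) x y))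

end Cancel

theorem sg_cancel (hω : ω.IsAlt) (u t : List (Bool × U)) (b : Bool) (v : U) :
    sg ω (u ++ [(b, v), (!b, v)] ++ t) = sg ω (u ++ t) := by
  have h1 := word_three ω u [(b, v), (!b, v)] t
  have h2 := word_append_iso ω u t
  rw [sg, sg, posIdx_iso h1, negIdx_iso h1, posIdx_iso h2, negIdx_iso h2]
  have h3 := big_posIdx ω (word ω u) (word ω t) b v hω
  have h4 := big_negIdx ω (word ω u) (word ω t) b v hω
  unfold big at h3 h4
  rw [h3, h4]
  push_cast
  ring

/-- an isometry of `ω` does not change the indices -/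
lemma idx_map (A : U →ₗ[ℝ] U) (hA : ∀ u v, ω (A u) (A v) = ω u v) (w : List (Bool × U)) :
    posIdx (word ω (w.map fun a => (a.1, A a.2))).q = posIdx (word ω w).q ∧
      negIdx (word ω (w.map fun a => (a.1, A a.2))).q = negIdx (word ω w).q := by
  have key : ∀ w : List (Bool × U),
      ∃ e : (word ω w).E ≃ₗ[ℝ] (word ω (w.map fun a => (a.1, A a.2))).E,
        (∀ x, (word ω (w.map fun a => (a.1, A a.2))).q (e x) = (word ω w).q x) ∧
        ∀ x, (word ω (w.map fun a => (a.1, A a.2))).V (e x) = A ((word ω w).V x) := by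
    intro w
    induction w with
    | nil =>
      refine ⟨LinearEquiv.refl ℝ _, fun x => rfl, fun x => ?_⟩
      change (0 : U) = A 0
      rw [map_zero]
    | cons a w ih =>
      obtain ⟨e, h1, h2⟩ := ih
      refine ⟨LinearEquiv.prodCongr (LinearEquiv.refl ℝ ℝ) e, ?_, ?_⟩
      · have h : ∀ (x : ℝ) (y : (word ω w).E),
            sgn a.1 * (x * x) + (word ω (w.map fun a => (a.1, A a.2))).q (e y) +
            ω (x • A a.2) ((word ω (w.map fun a => (a.1, A a.2))).V (e y)) =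
              sgn a.1 * (x * x) + (word ω w).q y + ω (x • a.2) ((word ω w).V y) := by
          intro x y
          rw [h1, h2, ← map_smul, hA]
        exact fun p => h p.1 p.2
      · have h : ∀ (x : ℝ) (y : (word ω w).E),
            x • A a.2 + (word ω (w.map fun a => (a.1, A a.2))).V (e y) =
            A (x • a.2 + (word ω w).V y) := by
          intro x y
          rw [h2, map_add, map_smul]
        exact fun p => h p.1 p.2
  obtain ⟨e, h1, -⟩ := key w
  exact ⟨(posIdx_congr e _ _ h1).symm, (negIdx_congr e _ _ h1).symm⟩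

end Pool.Agent.H53.HB
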