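import Pool.Agent.H53.HB.Idx

/-!
# The hyperbolic planes of a word with trivial monodromy

Sketch. `dat_hyp`: `κ : (Fin r → ℝ) × K → E`, `κ (c, k) = Z + k + Y (∑ γ i • u i)` with `Z = ∑ c j • z j`
and `γ i = (±c i - L (z i, Z) - L (z i, k) - L (k, z i)) / 2`; then `q (κ (c, k)) = ±∑ c i ^ 2 +
q k`, as `L (Y u, z) = L (z, Y u) = ω (u, V z)` and `q (Y u) = 0`. The index of `±∑ c i ^ 2` on
`Fin r → ℝ` is `r`.
-/

namespace Pool.Agent.H53.HB

open Module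

variable {U : Type} [AddCommGroup U] [Module ℝ U] (ω : U →ₗ[ℝ] U →ₗ[ℝ] ℝ)

private theorem hyp_map (D : Dat U) (hD : D.Skew ω) (Y : U →ₗ[ℝ] D.E) (hY : D.HasMon ω Y LinearMap.id)
    {r : ℕ} (u : Fin r → U) (z : Fin r → D.E)
    (huz : ∀ i j, ω (u i) (D.V (z j)) = if i = j then 1 else 0)
    (K : Submodule ℝ D.E) (hK : ∀ x ∈ K, ∀ u, ω u (D.V x) = 0) (ε : ℝ) :
    ∃ κ : (Fin r → ℝ) × K →ₗ[ℝ] D.E, ∀ (c : Fin r → ℝ) (k : K),
      D.q (κ (c, k)) = ε * ∑ i, c i ^ 2 + D.q (k : D.E) := by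
  have hV : ∀ v, D.V (Y v) = 0 := fun v => by
    rw [hY.2 v]
    simp
  have hL : ∀ v w, D.L w (Y v) = ω v (D.V w) := fun v w => by
    have h1 := hD (Y v) w
    rw [hY.1 v w, hV v, map_zero, LinearMap.zero_apply] at h1
    linarith
  set pj : Fin r → ((Fin r → ℝ) × K →ₗ[ℝ] ℝ) := fun j => (LinearMap.proj j) ∘ₗ LinearMap.fst ℝ (Fin r → ℝ) K
    with hpj
  set ZL : (Fin r → ℝ) × K →ₗ[ℝ] D.E := ∑ j, (pj j).smulRight (z j) with hZL
  set kL : (Fin r → ℝ) × K →ₗ[ℝ] D.E := K.subtype ∘ₗ LinearMap.snd ℝ (Fin r → ℝ) K with hkL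
  set γ : Fin r → ((Fin r → ℝ) × K →ₗ[ℝ] ℝ) := fun i =>
    (1 / 2 : ℝ) • (ε • pj i - (D.L (z i)) ∘ₗ ZL - (D.L (z i)) ∘ₗ kL - (D.L.flip (z i)) ∘ₗ kL) with hγ
  refine ⟨ZL + kL + Y ∘ₗ (∑ i, (γ i).smulRight (u i)), fun c k => ?_⟩
  have eZ : ZL (c, k) = ∑ j, c j • z j := by
    rw [hZL, LinearMap.sum_apply]
    exact Finset.sum_congr rfl fun j _ => rfl
  have ek : kL (c, k) = (k : D.E) := rfl
  have eγ : ∀ i, γ i (c, k) = 1 / 2 * (ε * c i - D.L (z i) (ZL (c, k)) - D.L (z i) k - D.L k (z i)) := by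
    intro i
    rfl
  have eG : (∑ i, (γ i).smulRight (u i)) (c, k) = ∑ i, γ i (c, k) • u i := by
    rw [LinearMap.sum_apply]
    exact Finset.sum_congr rfl fun j _ => rfl
  have e0 : (ZL + kL + Y ∘ₗ (∑ i, (γ i).smulRight (u i))) (c, k) = ZL (c, k) + (k : D.E) +
      Y (∑ i, γ i (c, k) • u i) := by
    show ZL (c, k) + kL (c, k) + Y ((∑ i, (γ i).smulRight (u i)) (c, k)) = _
    rw [eG, ek]
  rw [e0]
  set Z : D.E := ZL (c, k) with hZ
  set g : Fin r → ℝ := fun i => γ i (c, k) with hg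
  have eg : ∀ i, g i = 1 / 2 * (ε * c i - D.L (z i) Z - D.L (z i) k - D.L k (z i)) := eγ
  have hωZ : ∀ i, ω (u i) (D.V Z) = c i := by
    intro i
    rw [eZ, map_sum, map_sum]
    have : ∀ j, ω (u i) (D.V (c j • z j)) = if i = j then c j else 0 := by
      intro j
      rw [map_smul, map_smul, huz, smul_eq_mul]
      split_ifs <;> simp
    rw [Finset.sum_congr rfl fun j _ => this j, Finset.sum_ite_eq]
    simp
  have hG : ∀ w, ω (∑ i, g i • u i) w = ∑ i, g i * ω (u i) w := by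
    intro w
    rw [map_sum, LinearMap.sum_apply]
    exact Finset.sum_congr rfl fun i _ => by rw [map_smul, LinearMap.smul_apply, smul_eq_mul]
  have hLZ : ∀ w, D.L Z w = ∑ i, c i * D.L (z i) w := by
    intro w
    rw [eZ, map_sum, LinearMap.sum_apply]
    exact Finset.sum_congr rfl fun i _ => by rw [map_smul, LinearMap.smul_apply, smul_eq_mul]
  have hLZ' : ∀ w, D.L w Z = ∑ i, c i * D.L w (z i) := by
    intro w
    rw [eZ, map_sum]
    exact Finset.sum_congr rfl fun i _ => by rw [map_smul, smul_eq_mul]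
  have hk0 : ∀ v, ω v (D.V k) = 0 := fun v => hK k k.2 v
  have hsum : 2 * ∑ i, g i * c i = ε * ∑ i, c i ^ 2 - D.L Z Z - D.L Z k - D.L k Z := by
    rw [hLZ Z, hLZ k, hLZ' k, Finset.mul_sum, Finset.mul_sum, ← Finset.sum_sub_distrib, ← Finset.sum_sub_distrib,
      ← Finset.sum_sub_distrib]
    refine Finset.sum_congr rfl fun i _ => ?_
    rw [eg]
    ring
  have hGZ : ω (∑ i, g i • u i) (D.V Z) = ∑ i, g i * c i := by
    rw [hG]
    exact Finset.sum_congr rfl fun i _ => by rw [hωZ]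
  set Γ : U := ∑ i, g i • u i with hΓ
  have hq : D.q (Z + k + Y Γ) = D.L Z Z + D.L Z k + D.L k Z + D.L k k + 2 * ω Γ (D.V Z) := by
    have e1 : ∀ w, D.L (Z + k + Y Γ) w = D.L Z w + D.L k w + ω Γ (D.V w) := fun w => by
      rw [map_add, map_add, LinearMap.add_apply, LinearMap.add_apply, hY.1]
    show D.L (Z + k + Y Γ) (Z + k + Y Γ) = _
    rw [e1]
    simp only [map_add, hL, hV, hk0, map_zero]
    ring
  rw [hq, hGZ, hsum]
  show _ = _ + D.L k k
  ring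

/-- the hyperbolic planes of a word with trivial monodromy -/
theorem dat_hyp (D : Dat U) (hD : D.Skew ω) (Y : U →ₗ[ℝ] D.E) (hY : D.HasMon ω Y LinearMap.id)
    {r : ℕ} (u : Fin r → U) (z : Fin r → D.E)
    (huz : ∀ i j, ω (u i) (D.V (z j)) = if i = j then 1 else 0)
    (K : Submodule ℝ D.E) (hK : ∀ x ∈ K, ∀ u, ω u (D.V x) = 0) :
    r + posIdx (fun x : K => D.q x) ≤ posIdx D.q ∧
      r + negIdx (fun x : K => D.q x) ≤ negIdx D.q := by
  have hpos : ∀ x ∈ (⊤ : Submodule ℝ (Fin r → ℝ)), x ≠ 0 → 0 < ∑ i, x i ^ 2 := by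
    intro x _ hx
    obtain ⟨i, hi⟩ := Function.ne_iff.1 hx
    refine Finset.sum_pos' (fun j _ => sq_nonneg _) ⟨i, Finset.mem_univ i, ?_⟩
    have hi2 : x i ≠ 0 := hi
    positivity
  have hr := le_posIdx (fun x : Fin r → ℝ => ∑ i, x i ^ 2) ⊤ hpos
  rw [finrank_top, Module.finrank_fintype_fun_eq_card, Fintype.card_fin] at hr
  constructor
  · obtain ⟨κ, hκ⟩ := hyp_map ω D hD Y hY u z huz K hK 1
    have h1 := posIdx_add_le κ (fun x => ∑ i, x i ^ 2) (fun x : K => D.q x) D.q (by simp)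
      (by show D.L _ _ = 0; simp) (fun x y => by rw [hκ, one_mul])
    omega
  · obtain ⟨κ, hκ⟩ := hyp_map ω D hD Y hY u z huz K hK (-1)
    have h1 := negIdx_add_le κ (fun x => -∑ i, x i ^ 2) (fun x : K => D.q x) D.q (by simp)
      (by show D.L _ _ = 0; simp) (fun x y => by rw [hκ]; ring)
    have h2 : negIdx (fun x : Fin r → ℝ => -∑ i, x i ^ 2) = posIdx (fun x : Fin r → ℝ => ∑ i, x i ^ 2) := by
      unfold negIdx
      simp only [neg_neg]
    omega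

end Pool.Agent.H53.HB
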