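import Pool.Agent.H53.HB.Defs

/-!
# Positive and negative indices

Sketch. The set in `posIdx` is bounded by the dimension of `E` and contains `0`, so `exists_posIdx`
is `Nat.sSup_mem`. `negIdx q` is `posIdx (-q)`, so every statement on `negIdx` follows from the one
on `posIdx`. `posIdx_add_le`: take the image of `P₁ × P₂` under `κ`, which is injective on it (note
`q 0 = 0`). `posIdx_red`: for a positive `P`, the intersection with `ker ℓ` has dimension at least
`dim P - 1`, `π` is injective on it and its image is positive. `posIdx_add_negIdx_le`: a positive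
and a negative subspace meet in `0`. `card_le_posIdx`: the span of the family, `B (∑ c i v i, ∑ c i
v i) = ∑ c i ^ 2 B (v i, v i)`. `finrank_le_inertia`: an orthogonal basis exists
(`LinearMap.BilinForm.exists_orthogonal_basis`), the vectors of square `0` in it are in the kernel.
-/

namespace Pool.Agent.H53.HB

open Module

variable {E : Type} [AddCommGroup E] [Module ℝ E] [FiniteDimensional ℝ E]
  {E₁ : Type} [AddCommGroup E₁] [Module ℝ E₁] [FiniteDimensional ℝ E₁]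
  {E₂ : Type} [AddCommGroup E₂] [Module ℝ E₂] [FiniteDimensional ℝ E₂]

private lemma bdd (q : E → ℝ) : BddAbove
    {r : ℕ | ∃ P : Submodule ℝ E, (∀ x ∈ P, x ≠ 0 → 0 < q x) ∧ Module.finrank ℝ P = r} := by
  refine ⟨finrank ℝ E, ?_⟩
  rintro r ⟨P, _, rfl⟩
  exact Submodule.finrank_le P

lemma le_posIdx (q : E → ℝ) (P : Submodule ℝ E) (hP : ∀ x ∈ P, x ≠ 0 → 0 < q x) :
    finrank ℝ P ≤ posIdx q :=
  le_csSup (bdd q) ⟨P, hP, rfl⟩

lemma exists_posIdx (q : E → ℝ) :
    ∃ P : Submodule ℝ E, (∀ x ∈ P, x ≠ 0 → 0 < q x) ∧ finrank ℝ P = posIdx q := by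
  have h := Nat.sSup_mem (s := {r : ℕ | ∃ P : Submodule ℝ E, (∀ x ∈ P, x ≠ 0 → 0 < q x) ∧
    Module.finrank ℝ P = r}) ⟨0, ⊥, fun x hx hx' => absurd ((Submodule.mem_bot ℝ).1 hx) hx',
      finrank_bot ℝ E⟩ (bdd q)
  exact h

private lemma fr_le {F : Type} [AddCommGroup F] [Module ℝ F] [FiniteDimensional ℝ F]
    (f : F →ₗ[ℝ] E₁) (q₁ : E₁ → ℝ) (h0 : q₁ 0 ≤ 0) (h : ∀ x, x ≠ 0 → 0 < q₁ (f x)) :
    finrank ℝ F ≤ posIdx q₁ := by
  have hinj : Function.Injective f := by
    rw [injective_iff_map_eq_zero]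
    intro x hx
    by_contra hne
    have h1 := h x hne
    rw [hx] at h1
    exact absurd h1 (not_lt.2 h0)
  have h1 : finrank ℝ (LinearMap.range f) = finrank ℝ F :=
    LinearMap.finrank_range_of_inj hinj
  rw [← h1]
  apply le_posIdx
  rintro y ⟨x, rfl⟩ hy
  apply h x
  rintro rfl
  exact hy (map_zero _)

lemma posIdx_congr (e : E ≃ₗ[ℝ] E₁) (q : E → ℝ) (q₁ : E₁ → ℝ) (h : ∀ x, q₁ (e x) = q x) :
    posIdx q = posIdx q₁ := by
  have key : ∀ {F F₁ : Type} [AddCommGroup F] [Module ℝ F] [FiniteDimensional ℝ F]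
      [AddCommGroup F₁] [Module ℝ F₁] [FiniteDimensional ℝ F₁] (e : F ≃ₗ[ℝ] F₁) (q : F → ℝ)
      (q₁ : F₁ → ℝ) (_ : ∀ x, q₁ (e x) = q x), posIdx q ≤ posIdx q₁ := by
    intro F F₁ _ _ _ _ _ _ e q q₁ h
    obtain ⟨P, hP, hr⟩ := exists_posIdx q
    rw [← hr, ← LinearEquiv.finrank_map_eq e P]
    apply le_posIdx
    rintro y ⟨x, hx, rfl⟩ hy
    have h1 : q₁ (e x) = q x := h x
    have h2 : x ≠ 0 := by
      rintro rfl
      exact hy (map_zero _)
    have h3 := hP x hx h2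
    rw [← h1] at h3
    exact h3
  apply le_antisymm (key e q q₁ h)
  exact key e.symm q₁ q (fun x => by rw [← h, LinearEquiv.apply_symm_apply])

lemma negIdx_congr (e : E ≃ₗ[ℝ] E₁) (q : E → ℝ) (q₁ : E₁ → ℝ) (h : ∀ x, q₁ (e x) = q x) :
    negIdx q = negIdx q₁ :=
  posIdx_congr e _ _ (fun x => by rw [h])

lemma posIdx_add_le (κ : E₁ × E₂ →ₗ[ℝ] E) (q₁ : E₁ → ℝ) (q₂ : E₂ → ℝ) (q : E → ℝ)
    (h₁ : q₁ 0 = 0) (h₂ : q₂ 0 = 0) (h : ∀ x y, q (κ (x, y)) = q₁ x + q₂ y) :
    posIdx q₁ + posIdx q₂ ≤ posIdx q := by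
  obtain ⟨P₁, hP₁, hr₁⟩ := exists_posIdx q₁
  obtain ⟨P₂, hP₂, hr₂⟩ := exists_posIdx q₂
  have h0 : q 0 = 0 := by
    have := h 0 0
    rw [h₁, h₂, add_zero] at this
    rwa [show ((0 : E₁), (0 : E₂)) = 0 from rfl, map_zero] at this
  rw [← hr₁, ← hr₂, ← Module.finrank_prod]
  apply fr_le (κ ∘ₗ (P₁.subtype.prodMap P₂.subtype)) q h0.le
  rintro ⟨⟨x, hx⟩, ⟨y, hy⟩⟩ hne
  change 0 < q (κ (x, y))
  rw [h]
  have hx' : 0 ≤ q₁ x := by
    by_cases h4 : x = 0
    · rw [h4, h₁]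
    · exact (hP₁ x hx h4).le
  have hy' : 0 ≤ q₂ y := by
    by_cases h4 : y = 0
    · rw [h4, h₂]
    · exact (hP₂ y hy h4).le
  by_cases h4 : x = 0
  · have h5 : y ≠ 0 := by
      intro h6
      subst h4 h6
      exact hne rfl
    have := hP₂ y hy h5
    linarith
  · have := hP₁ x hx h4
    linarith

lemma negIdx_add_le (κ : E₁ × E₂ →ₗ[ℝ] E) (q₁ : E₁ → ℝ) (q₂ : E₂ → ℝ) (q : E → ℝ)
    (h₁ : q₁ 0 = 0) (h₂ : q₂ 0 = 0) (h : ∀ x y, q (κ (x, y)) = q₁ x + q₂ y) :
    negIdx q₁ + negIdx q₂ ≤ negIdx q :=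
  posIdx_add_le κ _ _ _ (by rw [h₁, neg_zero]) (by rw [h₂, neg_zero])
    (fun x y => by rw [h]; ring)

/-- reduction to a hyperplane and a quotient of it -/
lemma posIdx_red (π : E →ₗ[ℝ] E₁) (ℓ : E →ₗ[ℝ] ℝ) (q : E → ℝ) (q₁ : E₁ → ℝ) (h0 : q₁ 0 = 0)
    (h : ∀ x, ℓ x = 0 → q x = q₁ (π x)) : posIdx q ≤ posIdx q₁ + 1 := by
  obtain ⟨P, hP, hr⟩ := exists_posIdx q
  have h1 : finrank ℝ P ≤ finrank ℝ (P ⊓ LinearMap.ker ℓ : Submodule ℝ E) + 1 := by
    have h2 := LinearMap.finrank_range_add_finrank_ker (ℓ.domRestrict P)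
    have h3 : finrank ℝ (LinearMap.range (ℓ.domRestrict P)) ≤ 1 := by
      have := Submodule.finrank_le (LinearMap.range (ℓ.domRestrict P))
      rwa [Module.finrank_self] at this
    have h4 : finrank ℝ (LinearMap.ker (ℓ.domRestrict P)) ≤
        finrank ℝ (P ⊓ LinearMap.ker ℓ : Submodule ℝ E) := by
      have h5 : ((LinearMap.ker (ℓ.domRestrict P)).map P.subtype) ≤ P ⊓ LinearMap.ker ℓ := by
        rintro y ⟨x, hx, rfl⟩
        exact ⟨x.2, hx⟩
      have h6 := Submodule.finrank_mono h5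
      rwa [Submodule.finrank_map_subtype_eq] at h6
    omega
  rw [← hr]
  refine h1.trans (Nat.add_le_add_right ?_ 1)
  apply fr_le (π ∘ₗ (P ⊓ LinearMap.ker ℓ : Submodule ℝ E).subtype) q₁ h0.le
  rintro ⟨x, hx, hx'⟩ hne
  change 0 < q₁ (π x)
  rw [← h x hx']
  exact hP x hx (fun h' => hne (Subtype.ext h'))

lemma negIdx_red (π : E →ₗ[ℝ] E₁) (ℓ : E →ₗ[ℝ] ℝ) (q : E → ℝ) (q₁ : E₁ → ℝ) (h0 : q₁ 0 = 0)
    (h : ∀ x, ℓ x = 0 → q x = q₁ (π x)) : negIdx q ≤ negIdx q₁ + 1 :=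
  posIdx_red π ℓ _ _ (by rw [h0, neg_zero]) (fun x hx => by rw [h x hx])

lemma posIdx_add_negIdx_le (q : E → ℝ) : posIdx q + negIdx q ≤ finrank ℝ E := by
  obtain ⟨P, hP, hr⟩ := exists_posIdx q
  obtain ⟨N, hN, hr'⟩ := exists_posIdx (fun x => -q x)
  have h1 : P ⊓ N = ⊥ := by
    rw [Submodule.eq_bot_iff]
    rintro x ⟨hx, hx'⟩
    by_contra hne
    have h2 := hP x hx hne
    have h3 : 0 < -q x := hN x hx' hne
    linarith
  have h2 := Submodule.finrank_sup_add_finrank_inf_eq P N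
  rw [h1, finrank_bot, add_zero] at h2
  have h3 := Submodule.finrank_le (P ⊔ N)
  unfold negIdx
  omega

private lemma B_sum {ι : Type} [Fintype ι] (B : E →ₗ[ℝ] E →ₗ[ℝ] ℝ) (v : ι → E)
    (ho : ∀ i j, i ≠ j → B (v i) (v j) = 0) (c : ι → ℝ) :
    B (∑ i, c i • v i) (∑ i, c i • v i) = ∑ i, c i * c i * B (v i) (v i) := by
  classical
  rw [map_sum]
  apply Finset.sum_congr rfl
  intro i _
  rw [map_smul, map_sum, LinearMap.sum_apply, Finset.sum_eq_single i]
  · rw [map_smul, LinearMap.smul_apply, smul_eq_mul, smul_eq_mul]; ring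
  · intro j _ hj
    rw [map_smul, LinearMap.smul_apply, ho j i hj, smul_zero]
  · intro h; exact absurd (Finset.mem_univ i) h

lemma card_le_posIdx {ι : Type} [Fintype ι] (B : E →ₗ[ℝ] E →ₗ[ℝ] ℝ) (v : ι → E)
    (ho : ∀ i j, i ≠ j → B (v i) (v j) = 0) (hp : ∀ i, 0 < B (v i) (v i)) :
    Fintype.card ι ≤ posIdx (fun x => B x x) := by
  classical
  have hpos : ∀ c : ι → ℝ, c ≠ 0 → 0 < B (∑ i, c i • v i) (∑ i, c i • v i) := by
    intro c hc
    rw [B_sum B v ho]
    obtain ⟨i, hi⟩ := Function.ne_iff.1 hc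
    apply Finset.sum_pos' (fun j _ => mul_nonneg (mul_self_nonneg _) (hp j).le)
    exact ⟨i, Finset.mem_univ i, mul_pos (mul_self_pos.2 hi) (hp i)⟩
  have h1 := fr_le (Fintype.linearCombination ℝ v) (fun x => B x x) (by simp) (fun c hc => by
    simp only [Fintype.linearCombination_apply]
    exact hpos c hc)
  rwa [Module.finrank_fintype_fun_eq_card] at h1

lemma card_le_negIdx {ι : Type} [Fintype ι] (B : E →ₗ[ℝ] E →ₗ[ℝ] ℝ) (v : ι → E)
    (ho : ∀ i j, i ≠ j → B (v i) (v j) = 0) (hp : ∀ i, B (v i) (v i) < 0) :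
    Fintype.card ι ≤ negIdx (fun x => B x x) := by
  have h := card_le_posIdx (-B) v (fun i j hij => by
    rw [LinearMap.neg_apply, LinearMap.neg_apply, ho i j hij, neg_zero]) (fun i => by
    rw [LinearMap.neg_apply, LinearMap.neg_apply]
    have := hp i
    linarith)
  exact h

/-- Sylvester's law, the part which is needed -/
lemma finrank_le_inertia (B : E →ₗ[ℝ] E →ₗ[ℝ] ℝ) (hs : ∀ x y, B x y = B y x) :
    finrank ℝ E ≤ posIdx (fun x => B x x) + negIdx (fun x => B x x) +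
      finrank ℝ (LinearMap.ker B) := by
  classical
  obtain ⟨v, hv⟩ := LinearMap.BilinForm.exists_orthogonal_basis (B := B) ⟨hs⟩
  have ho : ∀ i j, i ≠ j → B (v i) (v j) = 0 := fun i j hij => hv hij
  have h1 : Fintype.card {i // 0 < B (v i) (v i)} ≤ posIdx (fun x => B x x) :=
    card_le_posIdx B (fun i : {i // 0 < B (v i) (v i)} => v i.1)
      (fun i j hij => ho _ _ (fun h => hij (Subtype.ext h))) (fun i => i.2)
  have h2 : Fintype.card {i // B (v i) (v i) < 0} ≤ negIdx (fun x => B x x) :=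
    card_le_negIdx B (fun i : {i // B (v i) (v i) < 0} => v i.1)
      (fun i j hij => ho _ _ (fun h => hij (Subtype.ext h))) (fun i => i.2)
  have h3 : Fintype.card {i // B (v i) (v i) = 0} ≤ finrank ℝ (LinearMap.ker B) := by
    have hk : ∀ i, B (v i) (v i) = 0 → v i ∈ LinearMap.ker B := by
      intro i hi
      rw [LinearMap.mem_ker]
      apply v.ext
      intro j
      by_cases hij : i = j
      · rw [← hij, hi]; rfl
      · rw [ho i j hij]; rfl
    have hli : LinearIndependent ℝ (fun i : {i // B (v i) (v i) = 0} =>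
        (⟨v i.1, hk i.1 i.2⟩ : LinearMap.ker B)) := by
      apply LinearIndependent.of_comp (LinearMap.ker B).subtype
      exact v.linearIndependent.comp (fun i : {i // B (v i) (v i) = 0} => i.1)
        Subtype.val_injective
    exact hli.fintype_card_le_finrank
  have h4 : finrank ℝ E = Fintype.card {i // 0 < B (v i) (v i)} +
      Fintype.card {i // B (v i) (v i) < 0} + Fintype.card {i // B (v i) (v i) = 0} := by
    rw [Fintype.card_subtype, Fintype.card_subtype, Fintype.card_subtype]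
    have h5 : (Finset.univ : Finset (Fin (finrank ℝ E))).card = finrank ℝ E := by
      rw [Finset.card_univ, Fintype.card_fin]
    refine h5.symm.trans ?_
    rw [← Finset.card_union_of_disjoint, ← Finset.card_union_of_disjoint]
    · congr 1
      ext i
      simp only [Finset.mem_univ, Finset.mem_union, Finset.mem_filter, true_and, true_iff]
      rcases lt_trichotomy (B (v i) (v i)) 0 with h | h | h
      · exact Or.inl (Or.inr h)
      · exact Or.inr h
      · exact Or.inl (Or.inl h)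
    · rw [Finset.disjoint_left]
      intro i hi hi'
      simp only [Finset.mem_univ, Finset.mem_union, Finset.mem_filter, true_and] at hi hi'
      rcases hi with h | h <;> linarith
    · rw [Finset.disjoint_left]
      intro i hi hi'
      simp only [Finset.mem_univ, Finset.mem_filter, true_and] at hi hi'
      linarith
  omega

end Pool.Agent.H53.HB
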