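import Pool.Agent.H53.HB.Mono

/-!
# The form on the kernel has a small radical

Sketch. `ker_inertia`: on `K = Ker` the form `L` is symmetric (`skew_word`). `L` is nondegenerate on `E`
(if `L x y = 0` for all `y` then `x = 0`: induction, triangular). `dim K ≥ dim E - r`; the kernel
of `L` on `K` embeds by `x ↦ L x` into the functionals on `E` which vanish on `K`, so it has
dimension at most `dim E - dim K ≤ r`. Then `finrank_le_inertia`.
-/

namespace Pool.Agent.H53.HB

open Module

section

variable {U : Type} [AddCommGroup U] [Module ℝ U] (ω : U →ₗ[ℝ] U →ₗ[ℝ] ℝ)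

private lemma Inert_finrank (w : List (Bool × U)) : finrank ℝ (word ω w).E = w.length := by
  induction w with
  | nil =>
    have h : finrank ℝ (word ω ([] : List (Bool × U))).E = finrank ℝ PUnit := rfl
    rw [h, finrank_zero_of_subsingleton, List.length_nil]
  | cons a w ih =>
    have h : finrank ℝ (word ω (a :: w)).E = finrank ℝ (ℝ × (word ω w).E) := rfl
    rw [h, Module.finrank_prod, Module.finrank_self, ih, List.length_cons, add_comm]

private lemma Inert_sgn (b : Bool) : sgn b ≠ 0 := by
  unfold sgn
  split_ifs <;> norm_num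

private lemma Inert_nondeg (w : List (Bool × U)) :
    ∀ x : (word ω w).E, (∀ y, (word ω w).L x y = 0) → x = 0 := by
  induction w with
  | nil =>
    intro x _
    exact Subsingleton.elim (α := PUnit) x 0
  | cons a w ih =>
    intro x hx
    obtain ⟨x1, x2⟩ : ℝ × (word ω w).E := x
    have h1 : ∀ (y1 : ℝ) (y2 : (word ω w).E), sgn a.1 * (x1 * y1) + (word ω w).L x2 y2 +
        ω (x1 • a.2) ((word ω w).V y2) = 0 := fun y1 y2 => hx (y1, y2)
    have hx1 : x1 = 0 := by
      have h2 := h1 1 0
      rw [map_zero, map_zero, map_zero, mul_one, add_zero, add_zero] at h2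
      exact (mul_eq_zero.1 h2).resolve_left (Inert_sgn a.1)
    have hx2 : x2 = 0 := by
      refine ih x2 fun y2 => ?_
      have h2 := h1 0 y2
      rw [hx1, mul_zero, mul_zero, zero_smul, map_zero, LinearMap.zero_apply, zero_add,
        add_zero] at h2
      exact h2
    subst hx1
    subst hx2
    rfl

end

/-- the form on the kernel has a small radical -/
theorem ker_inertia (m r : ℕ) (hr : finrank ℝ (LinearMap.range (ch m).flip) ≤ r)
    (l : List (Fin m → ℝ)) :
    l.length ≤ posIdx (fun x : Ker m (l.map fun v => (true, v)) => (word (ch m) _).q x.1) +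
      negIdx (fun x : Ker m (l.map fun v => (true, v)) => (word (ch m) _).q x.1) + 2 * r := by
  set w : List (Bool × (Fin m → ℝ)) := l.map fun v => (true, v) with hw
  set φ : (word (ch m) w).E →ₗ[ℝ] _ := (ch m).flip ∘ₗ (word (ch m) w).V with hφ
  have hK : Ker m w = LinearMap.ker φ := rfl
  have hlen : finrank ℝ (word (ch m) w).E = l.length := by
    rw [Inert_finrank, hw, List.length_map]
  -- the dimension of the kernel
  have hrn : finrank ℝ (LinearMap.range φ) + finrank ℝ (Ker m w) = l.length := by
    rw [hK, LinearMap.finrank_range_add_finrank_ker, hlen]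
  have hrange : finrank ℝ (LinearMap.range φ) ≤ r := by
    refine le_trans ?_ hr
    exact Submodule.finrank_mono (LinearMap.range_comp_le_range _ _)
  -- the form on the kernel
  set B : Ker m w →ₗ[ℝ] Ker m w →ₗ[ℝ] ℝ :=
    (word (ch m) w).L.compl₁₂ (Ker m w).subtype (Ker m w).subtype with hB
  have hBapp : ∀ x y : Ker m w, B x y = (word (ch m) w).L x.1 y.1 := fun _ _ => rfl
  have hsymm : ∀ x y : Ker m w, B x y = B y x := by
    intro x y
    have h1 := skew_word (ch m) (ch_alt m) w x.1 y.1
    have h2 : (ch m).flip ((word (ch m) w).V y.1) = 0 := y.2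
    have h3 : ch m ((word (ch m) w).V x.1) ((word (ch m) w).V y.1) = 0 := by
      have h4 := LinearMap.congr_fun h2 ((word (ch m) w).V x.1)
      rw [LinearMap.flip_apply, LinearMap.zero_apply] at h4
      exact h4
    rw [h3] at h1
    rw [hBapp, hBapp]
    exact sub_eq_zero.1 h1
  have hin := finrank_le_inertia B hsymm
  -- the radical
  have hrad : finrank ℝ (LinearMap.ker B) ≤ r := by
    have hmem : ∀ x : LinearMap.ker B, (word (ch m) w).L x.1.1 ∈ (Ker m w).dualAnnihilator := by
      intro x
      rw [Submodule.mem_dualAnnihilator]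
      intro y hy
      have h1 : B x.1 = 0 := x.2
      have h2 := LinearMap.congr_fun h1 ⟨y, hy⟩
      exact h2
    set f : LinearMap.ker B →ₗ[ℝ] (Ker m w).dualAnnihilator :=
      LinearMap.codRestrict _
        ((word (ch m) w).L ∘ₗ (Ker m w).subtype ∘ₗ (LinearMap.ker B).subtype) hmem with hf
    have hinj : Function.Injective f := by
      refine (injective_iff_map_eq_zero f).2 fun x hx => ?_
      have h1 : (word (ch m) w).L x.1.1 = 0 := congrArg Subtype.val hx
      have h2 := Inert_nondeg (ch m) w x.1.1 fun y => by
        rw [h1, LinearMap.zero_apply]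
      exact Subtype.ext (Subtype.ext h2)
    have h1 := LinearMap.finrank_le_finrank_of_injective hinj
    have h2 := Subspace.finrank_add_finrank_dualAnnihilator_eq (Ker m w)
    rw [hlen] at h2
    omega
  have hin' : finrank ℝ (Ker m w) ≤
      posIdx (fun x : Ker m w => (word (ch m) w).q x.1) +
      negIdx (fun x : Ker m w => (word (ch m) w).q x.1) + finrank ℝ (LinearMap.ker B) := hin
  omega

end Pool.Agent.H53.HB
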