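import Pool.Agent.H53.HB.Quo

/-!
# Letters modulo the radical

Sketch. Call data `A`, `B` weakly isomorphic if there is a linear equivalence `e` with
`B.q (e x) = A.q x`, `ω (B.V (e x)) u = ω (A.V x) u` and `ω u (B.V (e x)) = ω u (A.V x)` for all
`x, u`. This is compatible with `Dat.mul` (as `Dat.Iso.mul` in `Hur.lean`), and preserves the
indices. For `v, v'` with `ω x v = ω x v'` for all `x` the identity of `ℝ` is a weak isomorphism
of the data of the letters `(b, v)` and `(b, v')`. With `word_three` this gives `sg_letter`.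
-/

namespace Pool.Agent.H53.HB

open Module

variable {U : Type} [AddCommGroup U] [Module ℝ U] (ω : U →ₗ[ℝ] U →ₗ[ℝ] ℝ)

namespace Dat

/-- weak isomorphism: isomorphism of the quadratic forms together with the maps to `U` modulo the
radical -/
def WIso (A B : Dat U) : Prop :=
  ∃ e : A.E ≃ₗ[ℝ] B.E, (∀ x, B.q (e x) = A.q x) ∧
    (∀ x u, ω (B.V (e x)) u = ω (A.V x) u) ∧ ∀ x u, ω u (B.V (e x)) = ω u (A.V x)

lemma Iso.wIso {A B : Dat U} (h : Iso A B) : WIso ω A B := by
  obtain ⟨e, h1, h2⟩ := h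
  exact ⟨e, h1, fun x u => by rw [h2], fun x u => by rw [h2]⟩

lemma WIso.trans {A B C : Dat U} (h : WIso ω A B) (h' : WIso ω B C) : WIso ω A C := by
  obtain ⟨e, h1, h2, h3⟩ := h
  obtain ⟨f, h4, h5, h6⟩ := h'
  refine ⟨e.trans f, fun x => ?_, fun x u => ?_, fun x u => ?_⟩
  · rw [LinearEquiv.trans_apply, h4, h1]
  · rw [LinearEquiv.trans_apply, h5, h2]
  · rw [LinearEquiv.trans_apply, h6, h3]

lemma WIso.mul {A A' B B' : Dat U} (h : WIso ω A A') (h' : WIso ω B B') :
    WIso ω (Dat.mul ω A B) (Dat.mul ω A' B') := by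
  obtain ⟨e, h1, h2, h3⟩ := h
  obtain ⟨f, h4, h5, h6⟩ := h'
  refine ⟨LinearEquiv.prodCongr e f, ?_, ?_, ?_⟩
  · rintro ⟨x, y⟩
    change (Dat.mul ω A' B').q (e x, f y) = _
    rw [mul_q, mul_q, h1, h4, h2, h6]
  · rintro ⟨x, y⟩ u
    change ω ((Dat.mul ω A' B').V (e x, f y)) u = _
    rw [mul_V, mul_V, map_add, map_add, LinearMap.add_apply, LinearMap.add_apply, h2, h5]
  · rintro ⟨x, y⟩ u
    change ω u ((Dat.mul ω A' B').V (e x, f y)) = _
    rw [mul_V, mul_V, map_add, map_add, h3, h6]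

end Dat

lemma letter_wIso (hω : ω.IsAlt) (b : Bool) (v v' : U) (h : ∀ x, ω x v = ω x v') :
    Dat.WIso ω (word ω [(b, v)]) (word ω [(b, v')]) := by
  have h' : ∀ x, ω v x = ω v' x := by
    intro x
    rw [← hω.neg, ← hω.neg x v', h]
  refine ⟨LinearEquiv.refl ℝ (ℝ × PUnit), ?_, ?_, ?_⟩
  · have key : ∀ x : ℝ, sgn b * (x * x) + 0 + ω (x • v') (0 : U) =
        sgn b * (x * x) + 0 + ω (x • v) (0 : U) := by
      intro x
      simp
    exact fun p => key p.1
  · have key : ∀ (x : ℝ) (u : U), ω (x • v' + (0 : U)) u = ω (x • v + (0 : U)) u := by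
      intro x u
      rw [add_zero, add_zero, map_smul, map_smul, LinearMap.smul_apply, LinearMap.smul_apply, h']
    exact fun p u => key p.1 u
  · have key : ∀ (x : ℝ) (u : U), ω u (x • v' + (0 : U)) = ω u (x • v + (0 : U)) := by
      intro x u
      rw [add_zero, add_zero, map_smul, map_smul, h]
    exact fun p u => key p.1 u

theorem sg_letter (hω : ω.IsAlt) (u t : List (Bool × U)) (b : Bool) (v v' : U)
    (h : ∀ x, ω x v = ω x v') :
    sg ω (u ++ [(b, v)] ++ t) = sg ω (u ++ [(b, v')] ++ t) := by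
  have h1 := word_three ω u [(b, v)] t
  have h2 := word_three ω u [(b, v')] t
  obtain ⟨e, he, -, -⟩ := Dat.WIso.mul ω (Dat.WIso.mul ω ((Dat.Iso.refl (word ω u)).wIso ω)
    (letter_wIso ω hω b v v' h)) ((Dat.Iso.refl (word ω t)).wIso ω)
  rw [sg, sg, posIdx_iso h1, negIdx_iso h1, posIdx_iso h2, negIdx_iso h2,
    posIdx_congr e _ _ he, negIdx_congr e _ _ he]

theorem gen_rad (hω : ω.IsAlt) (v v' : U) (h : ∀ x, ω x v = ω x v') :
    gen ω hω v = gen ω hω v' := by
  apply Units.ext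
  rw [gen_val, gen_val, Con.eq, con_apply]
  intro u t
  have h := sg_letter ω hω u t true v v' h
  simpa using h

end Pool.Agent.H53.HB
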