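import Pool.Agent.H53.HB.FinR
import Pool.Agent.H53.HB.Letter

/-!
# The kernel of the map to the hyperelliptic mapping class group
-/

namespace Pool.Agent.H53.HB

open Module

/-- an element which acts trivially on the homology gives a central unit -/
lemma psi_central (m : ℕ) (z : Braid m) (hz : rho m z = 1) (x : Braid m) :
    psi m z * psi m x = psi m x * psi m z := by
  induction x using braid_induct with
  | h1 => simp
  | hg i =>
    rw [psi_of]
    have h := psi_conj m z (av m i)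
    rw [hz, mul_inv_eq_iff_eq_mul] at h
    exact h
  | hm x y hx hy => rw [map_mul, ← mul_assoc, hx, mul_assoc, hy, ← mul_assoc]
  | hi x hx =>
    rw [map_inv, eq_comm, inv_mul_eq_iff_eq_mul, ← mul_assoc, ← hx, mul_inv_cancel_right]

lemma rho_full_neg (g : ℕ) (v w : Fin (2 * g + 1) → ℝ) :
    ch (2 * g + 1) w (rho (2 * g + 1) (tw (2 * g + 1) (2 * g)) v) = -ch (2 * g + 1) w v := by
  have h1 : ∀ i < 2 * g + 1, ∀ w, ch (2 * g + 1) w
      (rho (2 * g + 1) (tw (2 * g + 1) (2 * g)) (av (2 * g + 1) i)) =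
        -ch (2 * g + 1) w (av (2 * g + 1) i) := by
    intro i hi w
    rcases Nat.lt_or_ge i (2 * g) with h | h
    · rw [rho_tw_neg (2 * g + 1) g i (by omega) h, map_neg]
    · have hi' : i = 2 * g := by omega
      subst hi'
      -- the sum of the classes with even numbers is in the radical
      have h2 : (fun j : Fin (2 * g + 1) => (1 : ℝ) * ev 0 j) =
          ∑ i ∈ Finset.range (2 * g), ev 0 i • av (2 * g + 1) i + av (2 * g + 1) (2 * g) := by
        have h3 := sum_av_eq (2 * g + 1) (fun i => ev 0 i)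
        rw [Finset.sum_range_succ, ev_even 0 (2 * g) ⟨g, by ring⟩, one_smul] at h3
        rw [h3]
        ext j
        rw [one_mul]
      have h4 : ∀ w, ch (2 * g + 1) w (∑ i ∈ Finset.range (2 * g), ev 0 i • av (2 * g + 1) i) =
          -ch (2 * g + 1) w (av (2 * g + 1) (2 * g)) := by
        intro w
        have h5 := ch_ev g 1 w
        rw [h2, map_add] at h5
        linarith
      have h6 : rho (2 * g + 1) (tw (2 * g + 1) (2 * g))
          (∑ i ∈ Finset.range (2 * g), ev 0 i • av (2 * g + 1) i) =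
            -∑ i ∈ Finset.range (2 * g), ev 0 i • av (2 * g + 1) i := by
        rw [map_sum, ← Finset.sum_neg_distrib]
        refine Finset.sum_congr rfl (fun i hi => ?_)
        rw [map_smul, rho_tw_neg (2 * g + 1) g i (by omega) (Finset.mem_range.1 hi), smul_neg]
      -- the radical is preserved
      have h7 : ch (2 * g + 1) w (rho (2 * g + 1) (tw (2 * g + 1) (2 * g))
          (fun j : Fin (2 * g + 1) => (1 : ℝ) * ev 0 j)) = 0 := by
        have h8 := rho_ch (2 * g + 1) (tw (2 * g + 1) (2 * g))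
          (rho (2 * g + 1) (tw (2 * g + 1) (2 * g))⁻¹ w)
          (fun j : Fin (2 * g + 1) => (1 : ℝ) * ev 0 j)
        rw [ch_ev, ← LinearEquiv.mul_apply, ← map_mul, mul_inv_cancel, map_one] at h8
        exact h8
      rw [h2, map_add, map_add, h6, map_neg, h4, neg_neg] at h7
      linarith
  rw [span_av (2 * g + 1) v, map_sum, map_sum, map_sum, ← Finset.sum_neg_distrib]
  refine Finset.sum_congr rfl (fun i _ => ?_)
  rw [map_smul, map_smul, map_smul, h1 i i.2, smul_neg]

/-- the elements of the kernel: their image in the quotient of the monoid of words, their degree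
and their action on homology -/
def Ok (g : ℕ) (x : Braid (2 * g + 1)) : Prop :=
  (∃ a b : ℤ, psi (2 * g + 1) x = psi (2 * g + 1) (tw (2 * g + 1) (2 * g + 1)) ^ a *
      psi (2 * g + 1) (tw (2 * g + 1) (2 * g) ^ 2) ^ b ∧
    Multiplicative.toAdd (deg (2 * g + 1) x) =
      a * ((2 * g + 1) * (2 * g + 2)) + b * (2 * g * (4 * g + 2))) ∧
  ∀ u w, ch (2 * g + 1) (rho (2 * g + 1) x u) w = ch (2 * g + 1) u w

lemma ok_mul (g : ℕ) (x y : Braid (2 * g + 1)) (hx : Ok g x) (hy : Ok g y) : Ok g (x * y) := by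
  obtain ⟨⟨a, b, h1, h2⟩, h3⟩ := hx
  obtain ⟨⟨a', b', h1', h2'⟩, h3'⟩ := hy
  refine ⟨⟨a + a', b + b', ?_, ?_⟩, fun u w => ?_⟩
  · have hc : Commute (psi (2 * g + 1) (tw (2 * g + 1) (2 * g + 1)))
        (psi (2 * g + 1) (tw (2 * g + 1) (2 * g) ^ 2)) :=
      psi_central _ _ (rho_tw_odd g) _
    rw [map_mul, h1, h1', zpow_add, zpow_add]
    have h4 := (hc.zpow_zpow a' b).eq
    simp only [mul_assoc]
    congr 1
    rw [← mul_assoc, ← mul_assoc, h4]
  · rw [MonoidHom.map_mul, toAdd_mul, h2, h2']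
    ring
  · rw [map_mul, LinearEquiv.mul_apply, h3, h3']

lemma ok_inv (g : ℕ) (x : Braid (2 * g + 1)) (hx : Ok g x) : Ok g x⁻¹ := by
  obtain ⟨⟨a, b, h1, h2⟩, h3⟩ := hx
  refine ⟨⟨-a, -b, ?_, ?_⟩, fun u w => ?_⟩
  · have hc : Commute (psi (2 * g + 1) (tw (2 * g + 1) (2 * g + 1)))
        (psi (2 * g + 1) (tw (2 * g + 1) (2 * g) ^ 2)) :=
      psi_central _ _ (rho_tw_odd g) _
    rw [map_inv, h1, mul_inv_rev, ← zpow_neg, ← zpow_neg, (hc.zpow_zpow (-a) (-b)).eq]
  · rw [MonoidHom.map_inv, toAdd_inv, h2]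
    ring
  · rw [← h3 (rho (2 * g + 1) x⁻¹ u) w, ← LinearEquiv.mul_apply, ← map_mul, mul_inv_cancel,
      map_one]
    rfl

lemma ok_one (g : ℕ) : Ok g 1 :=
  ⟨⟨0, 0, by simp, by simp⟩, fun u w => by simp⟩

lemma ok_conj (g : ℕ) (x y : Braid (2 * g + 1)) (hx : Ok g x) : Ok g (y * x * y⁻¹) := by
  obtain ⟨⟨a, b, h1, h2⟩, h3⟩ := hx
  refine ⟨⟨a, b, ?_, ?_⟩, fun u w => ?_⟩
  · have hc : Commute (psi (2 * g + 1) y) (psi (2 * g + 1) (tw (2 * g + 1) (2 * g + 1))) :=
      (psi_central _ _ (rho_tw_odd g) _ : Commute _ _).symm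
    have hc' : Commute (psi (2 * g + 1) y) (psi (2 * g + 1) (tw (2 * g + 1) (2 * g) ^ 2)) :=
      (psi_central _ _ (rho_tw_even _ g (by omega)) _ : Commute _ _).symm
    have h4 : Commute (psi (2 * g + 1) y) (psi (2 * g + 1) x) := by
      rw [h1]
      exact (hc.zpow_right a).mul_right (hc'.zpow_right b)
    rw [map_mul, map_mul, map_inv, h4.eq, mul_inv_cancel_right, h1]
  · rw [MonoidHom.map_mul, MonoidHom.map_mul, MonoidHom.map_inv, toAdd_mul, toAdd_mul, toAdd_inv,
      h2]
    ring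
  · rw [map_mul, map_mul, LinearEquiv.mul_apply, LinearEquiv.mul_apply]
    have h5 : ∀ u w, ch (2 * g + 1) (rho (2 * g + 1) y u) w =
        ch (2 * g + 1) u (rho (2 * g + 1) y⁻¹ w) := by
      intro u w
      rw [← rho_ch (2 * g + 1) y u (rho (2 * g + 1) y⁻¹ w), ← LinearEquiv.mul_apply
        (rho (2 * g + 1) y) (rho (2 * g + 1) y⁻¹), ← map_mul, mul_inv_cancel, map_one]
      rfl
    rw [h5, h3, ← h5, ← LinearEquiv.mul_apply, ← map_mul, mul_inv_cancel, map_one]
    rfl

theorem ok_of_mem (g : ℕ) (x : Braid (2 * g + 1)) (hx : x ∈ hyp (2 * g + 1) g) : Ok g x := by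
  let S : Subgroup (Braid (2 * g + 1)) :=
    { carrier := {x | Ok g x}
      mul_mem' := fun {x y} hx hy => ok_mul g x y hx hy
      one_mem' := ok_one g
      inv_mem' := fun {x} hx => ok_inv g x hx }
  have hS : S.Normal := ⟨fun x hx y => ok_conj g x y hx⟩
  have h1 : hyp (2 * g + 1) g ≤ S := by
    refine Subgroup.normalClosure_le_normal ?_
    rintro y ((rfl | rfl) | ⟨i, hi, rfl⟩)
    · refine ⟨⟨0, 1, by simp, ?_⟩, fun u w => ?_⟩
      · rw [tw_sq, MonoidHom.map_pow, deg_range _ _ (by omega), ← ofAdd_nsmul, toAdd_ofAdd,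
          nsmul_eq_mul]
        push_cast
        ring
      · rw [rho_tw_even _ g (by omega)]
        rfl
    · refine ⟨⟨1, 0, by simp, ?_⟩, fun u w => ?_⟩
      · rw [tw, MonoidHom.map_pow, deg_range _ _ le_rfl, ← ofAdd_nsmul, toAdd_ofAdd, nsmul_eq_mul]
        push_cast
        ring
      · rw [rho_tw_odd]
        rfl
    · have h2 : psi (2 * g + 1) (tw (2 * g + 1) (2 * g)) *
          gen (ch (2 * g + 1)) (ch_alt _) (av (2 * g + 1) i) *
            (psi (2 * g + 1) (tw (2 * g + 1) (2 * g)))⁻¹ =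
              gen (ch (2 * g + 1)) (ch_alt _) (av (2 * g + 1) i) := by
        rw [psi_conj, ← gen_neg _ _ (av (2 * g + 1) i)]
        refine gen_rad _ _ _ _ (fun w => ?_)
        rw [rho_full_neg, map_neg]
      refine ⟨⟨0, 0, ?_, ?_⟩, fun u w => ?_⟩
      · rw [zpow_zero, zpow_zero, one_mul, map_mul, map_mul, map_mul, map_inv, map_inv,
          psi_sig _ i hi, h2, mul_inv_cancel]
      · rw [MonoidHom.map_mul, MonoidHom.map_mul, MonoidHom.map_mul, MonoidHom.map_inv,
          MonoidHom.map_inv, toAdd_mul, toAdd_mul, toAdd_mul, toAdd_inv, toAdd_inv]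
        ring
      · have h3 : ∀ u w, ch (2 * g + 1) (rho (2 * g + 1) (tw (2 * g + 1) (2 * g)) u) w =
            -ch (2 * g + 1) u w := by
          intro u w
          rw [← (ch_alt (2 * g + 1)).neg, rho_full_neg, neg_neg, ← (ch_alt (2 * g + 1)).neg]
        have h4 : ∀ u w, ch (2 * g + 1) (rho (2 * g + 1) (tw (2 * g + 1) (2 * g))⁻¹ u) w =
            -ch (2 * g + 1) u w := by
          intro u w
          have h5 := h3 (rho (2 * g + 1) (tw (2 * g + 1) (2 * g))⁻¹ u) w
          rw [← LinearEquiv.mul_apply, ← map_mul, mul_inv_cancel, map_one] at h5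
          have h6 : ((1 : (Fin (2 * g + 1) → ℝ) ≃ₗ[ℝ] (Fin (2 * g + 1) → ℝ)) u) = u := rfl
          rw [h6] at h5
          linarith
        have h5 : ∀ (y : Braid (2 * g + 1)) (u w : Fin (2 * g + 1) → ℝ),
            ch (2 * g + 1) (rho (2 * g + 1) y u) w =
              ch (2 * g + 1) u (rho (2 * g + 1) y⁻¹ w) := by
          intro y u w
          rw [← rho_ch (2 * g + 1) y u (rho (2 * g + 1) y⁻¹ w), ← LinearEquiv.mul_apply
            (rho (2 * g + 1) y) (rho (2 * g + 1) y⁻¹), ← map_mul, mul_inv_cancel, map_one]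
          rfl
        rw [map_mul, map_mul, map_mul, LinearEquiv.mul_apply, LinearEquiv.mul_apply,
          LinearEquiv.mul_apply, h3, h5, h4, neg_neg, ← h5, ← LinearEquiv.mul_apply, ← map_mul,
          mul_inv_cancel, map_one]
        rfl
  exact h1 hx

end Pool.Agent.H53.HB
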