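import Pool.Agent.H53.HB.Exp
import Pool.Agent.H53.HB.Inert

/-!
# The indices of the form of a factorization
-/

namespace Pool.Agent.H53.HB

open Module

/-- the classes of the vanishing cycles -/
noncomputable def vcv (m : ℕ) (F : List (Braid m × ℕ)) : List (Fin m → ℝ) :=
  F.map fun p => if p.2 = 0 then rho m p.1 (av m 0) else 0

lemma pos_vcv (m : ℕ) (F : List (Braid m × ℕ)) : pos (vcv m F) = vc m F := by
  unfold pos vcv vc
  rw [List.map_map]
  rfl

lemma tv_zero (m : ℕ) : tv (ch m) (ch_alt m) 0 = 1 := by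
  ext u
  simp [tv_apply]

lemma tv_rho (m : ℕ) (c : Braid m) (v : Fin m → ℝ) :
    tv (ch m) (ch_alt m) (rho m c v) = rho m c * tv (ch m) (ch_alt m) v * (rho m c)⁻¹ := by
  have h : ∀ w, rho m c ((rho m c)⁻¹ w) = w := by
    intro w
    rw [← LinearEquiv.mul_apply, mul_inv_cancel]
    rfl
  refine LinearEquiv.ext fun u => ?_
  rw [LinearEquiv.mul_apply, LinearEquiv.mul_apply, tv_apply, tv_apply, map_add, map_smul, h]
  congr 2
  rw [← rho_ch m c ((rho m c)⁻¹ u) v, h]

lemma tv_map_rho (m : ℕ) (c : Braid m) (l : List (Fin m → ℝ)) :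
    ((l.map (rho m c)).map (tv (ch m) (ch_alt m))).prod =
      rho m c * (l.map (tv (ch m) (ch_alt m))).prod * (rho m c)⁻¹ := by
  induction l with
  | nil => simp
  | cons a l ih =>
    rw [List.map_cons, List.map_cons, List.prod_cons, ih, List.map_cons, List.prod_cons, tv_rho]
    group

lemma tv_vcv (m : ℕ) (hm : 0 < m) (F : List (Braid m × ℕ)) (hF : ∀ p ∈ F, 2 * p.2 ≤ m) :
    ((vcv m F).map (tv (ch m) (ch_alt m))).prod = rho m (fprod m F) := by
  induction F with
  | nil => simp [vcv, fprod]
  | cons p F ih =>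
    have ih' := ih (fun p' hp' => hF p' (by simp [hp']))
    have h1 : vcv m (p :: F) = (if p.2 = 0 then rho m p.1 (av m 0) else 0) :: vcv m F := rfl
    rw [h1, List.map_cons, List.prod_cons, ih', fprod_cons, map_mul (rho m) _ (fprod m F)]
    congr 1
    unfold fac
    by_cases h : p.2 = 0
    · rw [if_pos h, if_pos h, tv_rho, map_mul, map_mul, map_inv, rho_sig m 0 hm]
    · rw [if_neg h, if_neg h, tv_zero, map_mul, map_mul, map_inv,
        rho_tw_even m p.2 (hF p (by simp)), mul_one, mul_inv_cancel]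

/-- splitting off the blocks -/
lemma split_ex (m : ℕ) (F : List (Braid m × ℕ)) (hF : ∀ p ∈ F, 2 * p.2 ≤ m) :
    ∀ u t : List (Bool × (Fin m → ℝ)),
      posIdx (word (ch m) (u ++ vc m F ++ t)).q + sm (fun h => 6 * h ^ 2 + 4 * h) F ≤
          posIdx (word (ch m) (u ++ pos (ex m F) ++ t)).q ∧
        negIdx (word (ch m) (u ++ vc m F ++ t)).q + sm (fun h => 2 * h ^ 2) F ≤
          negIdx (word (ch m) (u ++ pos (ex m F) ++ t)).q := by
  induction F with
  | nil => intro u t; exact ⟨le_refl _, le_refl _⟩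
  | cons p F ih =>
    intro u t
    have ih' := ih (fun p' hp' => hF p' (by simp [hp']))
    have hsm : ∀ f : ℕ → ℕ, sm f (p :: F) = f p.2 + sm f F := by
      intro f
      simp [sm]
    rw [vc_cons, ex_cons, hsm, hsm]
    unfold exl
    by_cases h : p.2 = 0
    · rw [if_pos h, if_pos h, h]
      have h1 := ih' (u ++ [(true, rho m p.1 (av m 0))]) t
      have h2 : u ++ pos ([rho m p.1 (av m 0)] ++ ex m F) ++ t =
          u ++ [(true, rho m p.1 (av m 0))] ++ pos (ex m F) ++ t := by
        simp [pos]
      have h3 : u ++ (true, rho m p.1 (av m 0)) :: vc m F ++ t =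
          u ++ [(true, rho m p.1 (av m 0))] ++ vc m F ++ t := by
        simp
      rw [h2, h3]
      omega
    · rw [if_neg h, if_neg h]
      have h1 := ih' (u ++ [(true, 0)]) t
      have hb : (((blk m (2 * p.2) (4 * p.2 + 2)).map (rho m p.1)).map
          (tv (ch m) (ch_alt m))).prod = 1 := by
        rw [tv_map_rho, tv_blk_even m p.2 (hF p (by simp)), mul_one, mul_inv_cancel]
      have h2 := word_split (ch m) (ch_alt m) (u ++ [(true, 0)]) (pos (ex m F) ++ t) _ hb
      have h3 := std_even m p.2 (hF p (by simp))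
      have h4 := idx_map (ch m) (rho m p.1).toLinearMap (fun a b => rho_ch m p.1 a b)
        (pos (blk m (2 * p.2) (4 * p.2 + 2)))
      have h5 : (pos (blk m (2 * p.2) (4 * p.2 + 2))).map
          (fun a => (a.1, (rho m p.1).toLinearMap a.2)) =
            ((blk m (2 * p.2) (4 * p.2 + 2)).map (rho m p.1)).map fun v => (true, v) := by
        rw [List.map_map, List.map_map]
        rfl
      rw [h5] at h4
      have h6 : u ++ pos (0 :: (blk m (2 * p.2) (4 * p.2 + 2)).map (rho m p.1) ++ ex m F) ++ t =
          u ++ [(true, 0)] ++ ((blk m (2 * p.2) (4 * p.2 + 2)).map (rho m p.1)).map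
            (fun v => (true, v)) ++ (pos (ex m F) ++ t) := by
        simp [pos]
      have h7 : u ++ (true, (0 : Fin m → ℝ)) :: vc m F ++ t =
          u ++ [(true, 0)] ++ vc m F ++ t := by
        simp
      rw [h6, h7]
      have h8 : u ++ [(true, (0 : Fin m → ℝ))] ++ (pos (ex m F) ++ t) =
          u ++ [(true, 0)] ++ pos (ex m F) ++ t := by
        simp
      rw [h8] at h2
      omega

/-- splitting off the zero letters -/
lemma split_vc (m : ℕ) (F : List (Braid m × ℕ)) :
    ∀ u t : List (Bool × (Fin m → ℝ)),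
      posIdx (word (ch m) (u ++ vc m (F.filter fun p => decide (p.2 = 0)) ++ t)).q + red F ≤
          posIdx (word (ch m) (u ++ vc m F ++ t)).q := by
  induction F with
  | nil => intro u t; exact le_refl _
  | cons p F ih =>
    intro u t
    rw [vc_cons, red_cons]
    by_cases h : p.2 = 0
    · rw [List.filter_cons_of_pos (by simp [h]), vc_cons, if_pos h, if_pos h]
      have h1 := ih (u ++ [(true, rho m p.1 (av m 0))]) t
      have h2 : ∀ l : List (Bool × (Fin m → ℝ)), u ++ (true, rho m p.1 (av m 0)) :: l ++ t =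
          u ++ [(true, rho m p.1 (av m 0))] ++ l ++ t := by
        simp
      rw [h2, h2]
      omega
    · rw [List.filter_cons_of_neg (by simp [h]), if_neg h, if_neg h]
      have h1 := ih u t
      have h2 := word_split (ch m) (ch_alt m) u (vc m F ++ t) [0] (by simp [tv_zero])
      have h3 : 1 ≤ posIdx (word (ch m) ([(0 : Fin m → ℝ)].map fun v => (true, v))).q := by
        refine card_le_posIdx (ι := Unit)
          (word (ch m) ([(0 : Fin m → ℝ)].map fun v => (true, v))).L
          (fun _ => ((1 : ℝ), PUnit.unit)) (fun i j hij => absurd rfl hij) (fun _ => ?_)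
        change 0 < (Dat.mul (ch m) (Dat.single (sgn true) (0 : Fin m → ℝ)) Dat.one).L
          ((1 : ℝ), PUnit.unit) ((1 : ℝ), PUnit.unit)
        rw [Dat.mul_L, Dat.single_L, Dat.one_L, Dat.one_V, map_zero, sgn, if_pos rfl]
        norm_num
      have h5 : u ++ (true, (0 : Fin m → ℝ)) :: vc m F ++ t =
          u ++ [(0 : Fin m → ℝ)].map (fun v => (true, v)) ++ (vc m F ++ t) := by
        simp
      rw [h5]
      have h6 : u ++ (vc m F ++ t) = u ++ vc m F ++ t := by simp
      rw [h6] at h2
      omega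

end Pool.Agent.H53.HB
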