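import Pool.Agent.H53.HB.Hur

/-!
# The monodromy of a word, splitting off a block with trivial monodromy

Sketch. `skew_word`: induction (for a single letter use `ω v v = 0`; for a product: direct).
`hasMon_word`: induction. Single `(1, v)`: `Y u = ω u v`, `M u = u - ω u v v = (tv v)⁻¹ u`. Product
of `D₁` with `Y₁, M₁` and `D₂` with `Y₂, M₂`: `Y u = (Y₁ u, Y₂ (M₁ u))`, `M = M₂ ∘ M₁`; indeed
`L₁ (Y₁ u, z₁) + L₂ (Y₂ M₁ u, z₂) + ω (u - M₁ u, V₂ z₂) = ω (u, V₁ z₁ + V₂ z₂)`.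
`dat_split`: here `V (Y u) = 0` and `L (z, Y u) = L (Y u, z) = ω (u, V z)`. Use `posIdx_add_le` for
`κ ((x, z), b) = (x, (Y u' + b, z))` with `u' = (V z - V x) / 2`:
`q (x, Y u' + b, z) = q_A x + q_B b + q_C z + ω (V x, V z)`.
`word_split`: from `dat_split`, `hasMon_word` and `word_append_iso` (of `Hur.lean`).

-/

namespace Pool.Agent.H53.HB

open Module

variable {U : Type} [AddCommGroup U] [Module ℝ U] (ω : U →ₗ[ℝ] U →ₗ[ℝ] ℝ)

lemma skew_mul (hω : ω.IsAlt) (A B : Dat U) (hA : A.Skew ω) (hB : B.Skew ω) :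
    (Dat.mul ω A B).Skew ω := by
  rintro ⟨x, y⟩ ⟨x', y'⟩
  rw [Dat.mul_L, Dat.mul_L, Dat.mul_V, Dat.mul_V]
  have h1 := hA x x'
  have h2 := hB y y'
  have h3 : ω (A.V x') (B.V y) = -ω (B.V y) (A.V x') := by rw [← hω.neg (B.V y)]
  simp only [map_add, LinearMap.add_apply]
  linarith

lemma skew_single (hω : ω.IsAlt) (ε : ℝ) (v : U) : (Dat.single ε v).Skew ω := by
  intro (x : ℝ) (y : ℝ)
  change ε * (x * y) - ε * (y * x) = ω (x • v) (y • v)
  rw [map_smul, map_smul, LinearMap.smul_apply, hω.self_eq_zero]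
  simp only [smul_eq_mul]
  ring

lemma skew_word (hω : ω.IsAlt) (w : List (Bool × U)) : (word ω w).Skew ω := by
  induction w with
  | nil =>
    intro x y
    change (Dat.one : Dat U).L x y - (Dat.one : Dat U).L y x =
      ω ((Dat.one : Dat U).V x) ((Dat.one : Dat U).V y)
    rw [Dat.one_L, Dat.one_L, Dat.one_V, Dat.one_V]
    simp
  | cons a w ih =>
    exact skew_mul ω hω _ _ (skew_single ω hω _ _) ih

lemma hasMon_mul (A B : Dat U) (Y₁ : U →ₗ[ℝ] A.E) (Y₂ : U →ₗ[ℝ] B.E) (M₁ M₂ : U →ₗ[ℝ] U)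
    (hA : A.HasMon ω Y₁ M₁) (hB : B.HasMon ω Y₂ M₂) :
    (Dat.mul ω A B).HasMon ω (Y₁.prod (Y₂ ∘ₗ M₁)) (M₂ ∘ₗ M₁) := by
  constructor
  · rintro u ⟨x, y⟩
    change (Dat.mul ω A B).L (Y₁ u, Y₂ (M₁ u)) (x, y) = ω u ((Dat.mul ω A B).V (x, y))
    rw [Dat.mul_L, Dat.mul_V, hA.1, hB.1, hA.2]
    simp only [map_add, map_sub, LinearMap.sub_apply]
    ring
  · intro u
    change (Dat.mul ω A B).V (Y₁ u, Y₂ (M₁ u)) = u - M₂ (M₁ u)
    rw [Dat.mul_V, hA.2, hB.2]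
    abel

lemma hasMon_single (hω : ω.IsAlt) (v : U) :
    (Dat.single (sgn true) v).HasMon ω (ω.flip v)
      ((tv ω hω v)⁻¹ : U ≃ₗ[ℝ] U).toLinearMap := by
  refine ⟨fun u (z : ℝ) => ?_, fun u => ?_⟩
  · change sgn true * ((ω u v) * z) = ω u (z • v)
    rw [map_smul, smul_eq_mul]
    simp only [sgn, if_true]
    ring
  · change (ω u v) • v = u - (u - ω u v • v)
    abel

lemma hasMon_word (hω : ω.IsAlt) (l : List U) :
    ∃ Y, (word ω (l.map fun v => (true, v))).HasMon ω Y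
      (((l.map (tv ω hω)).prod)⁻¹ : U ≃ₗ[ℝ] U).toLinearMap := by
  induction l with
  | nil =>
    refine ⟨0, ?_, ?_⟩
    · intro u z
      have : (word ω (([] : List U).map fun v => (true, v))).V z = 0 := rfl
      rw [this]
      simp
    · intro u
      simp
  | cons v l ih =>
    obtain ⟨Y, hY⟩ := ih
    have h1 := hasMon_single ω hω v
    have h2 := hasMon_mul ω _ _ _ _ _ _ h1 hY
    have h3 : ((((v :: l).map (tv ω hω)).prod)⁻¹ : U ≃ₗ[ℝ] U).toLinearMap =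
        (((l.map (tv ω hω)).prod)⁻¹ : U ≃ₗ[ℝ] U).toLinearMap ∘ₗ
          ((tv ω hω v)⁻¹ : U ≃ₗ[ℝ] U).toLinearMap := by
      rw [List.map_cons, List.prod_cons, mul_inv_rev]
      rfl
    rw [h3]
    exact ⟨_, h2⟩

theorem dat_split (hω : ω.IsAlt) (A B C : Dat U) (hB : B.Skew ω) (Y : U →ₗ[ℝ] B.E)
    (hY : B.HasMon ω Y LinearMap.id) :
    posIdx (Dat.mul ω A C).q + posIdx B.q ≤ posIdx (Dat.mul ω A (Dat.mul ω B C)).q ∧
      negIdx (Dat.mul ω A C).q + negIdx B.q ≤ negIdx (Dat.mul ω A (Dat.mul ω B C)).q := by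
  have hVY : ∀ u, B.V (Y u) = 0 := by
    intro u
    rw [hY.2]
    simp
  have hLY : ∀ u z, B.L z (Y u) = ω u (B.V z) := by
    intro u z
    have h1 := hB (Y u) z
    rw [hVY, hY.1] at h1
    simp only [map_zero, LinearMap.zero_apply] at h1
    linarith
  have hqY : ∀ u b, B.q (b + Y u) = B.q b + 2 * ω u (B.V b) := by
    intro u b
    unfold Dat.q
    simp only [map_add, LinearMap.add_apply]
    rw [hLY, hY.1, hLY, hVY, map_zero]
    ring
  -- the map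
  let T : (Dat.mul ω A C).E →ₗ[ℝ] U :=
    (2⁻¹ : ℝ) • (C.V ∘ₗ LinearMap.snd ℝ A.E C.E - A.V ∘ₗ LinearMap.fst ℝ A.E C.E)
  let κ : (Dat.mul ω A C).E × B.E →ₗ[ℝ] (Dat.mul ω A (Dat.mul ω B C)).E :=
    LinearMap.prod (LinearMap.fst ℝ A.E C.E ∘ₗ LinearMap.fst ℝ (A.E × C.E) B.E)
      (LinearMap.prod
        (LinearMap.snd ℝ (A.E × C.E) B.E + Y ∘ₗ T ∘ₗ LinearMap.fst ℝ (A.E × C.E) B.E)
        (LinearMap.snd ℝ A.E C.E ∘ₗ LinearMap.fst ℝ (A.E × C.E) B.E))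
  have hκ : ∀ (x : (Dat.mul ω A C).E) (b : B.E),
      (Dat.mul ω A (Dat.mul ω B C)).q (κ (x, b)) = (Dat.mul ω A C).q x + B.q b := by
    rintro ⟨x, z⟩ b
    have h1 : κ ((x, z), b) =
        (x, (b + Y ((2⁻¹ : ℝ) • (C.V z - A.V x)), z)) := rfl
    rw [h1]
    change A.q x + (B.q (b + Y ((2⁻¹ : ℝ) • (C.V z - A.V x))) + C.q z +
        ω (B.V (b + Y ((2⁻¹ : ℝ) • (C.V z - A.V x)))) (C.V z)) +
        ω (A.V x) (B.V (b + Y ((2⁻¹ : ℝ) • (C.V z - A.V x))) + C.V z) =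
      A.q x + C.q z + ω (A.V x) (C.V z) + B.q b
    rw [hqY, map_add B.V, hVY, add_zero]
    simp only [map_add, map_smul, map_sub, LinearMap.smul_apply, LinearMap.sub_apply,
      smul_eq_mul]
    have h2 : ω (B.V b) (C.V z) = -ω (C.V z) (B.V b) := by rw [← hω.neg (C.V z)]
    rw [h2]
    ring
  have h0 : (Dat.mul ω A C).q 0 = 0 := by unfold Dat.q; simp
  have h0' : B.q 0 = 0 := by unfold Dat.q; simp
  exact ⟨posIdx_add_le κ _ _ _ h0 h0' hκ, negIdx_add_le κ _ _ _ h0 h0' hκ⟩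

lemma iso_trans {A B C : Dat U} (h : A.Iso B) (h' : B.Iso C) : A.Iso C := by
  obtain ⟨e, h1, h2⟩ := h
  obtain ⟨f, h3, h4⟩ := h'
  exact ⟨e.trans f, fun x => by rw [LinearEquiv.trans_apply, h3, h1],
    fun x => by rw [LinearEquiv.trans_apply, h4, h2]⟩

lemma iso_mul_right (A : Dat U) {B B' : Dat U} (h : B.Iso B') :
    (Dat.mul ω A B).Iso (Dat.mul ω A B') := by
  obtain ⟨e, h1, h2⟩ := h
  refine ⟨(LinearEquiv.refl ℝ A.E).prodCongr e, ?_, ?_⟩
  · rintro ⟨x, y⟩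
    change (Dat.mul ω A B').q (x, e y) = (Dat.mul ω A B).q (x, y)
    rw [Dat.mul_q, Dat.mul_q, h1, h2]
  · rintro ⟨x, y⟩
    change (Dat.mul ω A B').V (x, e y) = (Dat.mul ω A B).V (x, y)
    rw [Dat.mul_V, Dat.mul_V, h2]

lemma iso_idx {A B : Dat U} (h : A.Iso B) : posIdx A.q = posIdx B.q ∧ negIdx A.q = negIdx B.q := by
  obtain ⟨e, h1, _⟩ := h
  exact ⟨posIdx_congr e _ _ h1, negIdx_congr e _ _ h1⟩

/-- a block with trivial monodromy splits off -/
theorem word_split (hω : ω.IsAlt) (u t : List (Bool × U)) (l : List U)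
    (hl : (l.map (tv ω hω)).prod = 1) :
    posIdx (word ω (u ++ t)).q + posIdx (word ω (l.map fun v => (true, v))).q ≤
        posIdx (word ω (u ++ l.map (fun v => (true, v)) ++ t)).q ∧
      negIdx (word ω (u ++ t)).q + negIdx (word ω (l.map fun v => (true, v))).q ≤
        negIdx (word ω (u ++ l.map (fun v => (true, v)) ++ t)).q := by
  obtain ⟨Y, hY⟩ := hasMon_word ω hω l
  rw [hl] at hY
  have hY' : (word ω (l.map fun v => (true, v))).HasMon ω Y LinearMap.id := hY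
  have h1 := dat_split ω hω (word ω u) (word ω (l.map fun v => (true, v))) (word ω t)
    (skew_word ω hω _) Y hY'
  have h2 := iso_idx (word_append_iso ω u t)
  have h3 : (word ω (u ++ l.map (fun v => (true, v)) ++ t)).Iso
      (Dat.mul ω (word ω u) (Dat.mul ω (word ω (l.map fun v => (true, v))) (word ω t))) := by
    rw [List.append_assoc]
    exact iso_trans (word_append_iso ω _ _) (iso_mul_right ω _ (word_append_iso ω _ _))
  have h4 := iso_idx h3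
  rw [h2.1, h2.2, h4.1, h4.2]
  exact h1

end Pool.Agent.H53.HB
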