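import Pool.Agent.H53.HB.FDefs

/-!
# Orthogonality of the eigenvectors

Sketch. `C α C β = cos (α - β) + sin (α + β)` for `C t = cos t + sin t`. For fixed `i` the sum over
`j` of `C (..) C (..)` is `k` if `a = a'` and `0` otherwise: geometric sums over `j < k` of
`exp (2 π I n j / k)`, `k ∤ n`, vanish; for `a + a' = k` the phase of the sine sum is
`(π (a + a') / k) i - π i = 0`. Then `∑ i < r, sin (π b (i+1)/(r+1)) sin (π b' (i+1)/(r+1)) =
(r+1)/2` if `b = b'` and `0` otherwise. Checked numerically.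
-/

namespace Pool.Agent.H53.HB

open Finset Real

private lemma sin_ne (k : ℕ) (n : ℤ) (hk : 0 < k) (hn : ¬ (k : ℤ) ∣ n) :
    sin (π * n / k) ≠ 0 := by
  intro h
  rw [Real.sin_eq_zero_iff] at h
  obtain ⟨m, hm⟩ := h
  apply hn
  refine ⟨m, ?_⟩
  have hk' : (k : ℝ) ≠ 0 := by positivity
  have h2 : (m : ℝ) * k = n := by
    have h3 : π * ((m : ℝ) * k) = π * n := by
      field_simp at hm
      nlinarith [hm, pi_pos]
    exact mul_left_cancel₀ pi_ne_zero h3
  have h4 : m * (k : ℤ) = n := by exact_mod_cast h2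
  rw [← h4]
  ring

private lemma sum_cos (k : ℕ) (n : ℤ) (φ : ℝ) (hk : 0 < k) (hn : ¬ (k : ℤ) ∣ n) :
    ∑ j ∈ range k, cos (2 * π * n / k * j + φ) = 0 := by
  have hk' : (k : ℝ) ≠ 0 := by positivity
  have key : ∀ m : ℕ, 2 * sin (π * n / k) * ∑ j ∈ range m, cos (2 * π * n / k * j + φ) =
      sin (2 * π * n / k * m - π * n / k + φ) - sin (-(π * n / k) + φ) := by
    intro m
    induction m with
    | zero => simp
    | succ m ih =>
      rw [sum_range_succ, mul_add, ih]
      have e1 : 2 * π * n / k * ((m + 1 : ℕ) : ℝ) - π * n / k + φ =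
          (2 * π * n / k * m + φ) + π * n / k := by
        push_cast
        ring
      have e2 : 2 * π * n / k * (m : ℝ) - π * n / k + φ =
          (2 * π * n / k * m + φ) - π * n / k := by ring
      rw [e1, e2, Real.sin_add (2 * π * n / k * m + φ) (π * n / k),
        Real.sin_sub (2 * π * n / k * m + φ) (π * n / k)]
      ring
  have h := key k
  have e : 2 * π * n / k * (k : ℝ) - π * n / k + φ = (-(π * n / k) + φ) + n * (2 * π) := by
    field_simp
    ring
  rw [e, Real.sin_add_int_mul_two_pi, sub_self] at h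
  have h0 := sin_ne k n hk hn
  rcases mul_eq_zero.1 h with h1 | h1
  · exact absurd (by linarith : sin (π * n / k) = 0) h0
  · exact h1

private lemma sum_cos2 (r : ℕ) (n : ℤ) (hn : ¬ ((2 * (r + 1) : ℕ) : ℤ) ∣ n) :
    ∑ i ∈ range r, cos (π * n * (i + 1) / (r + 1)) = -(1 + cos (π * n)) / 2 := by
  have hr : ((r : ℝ) + 1) ≠ 0 := by positivity
  set x : ℝ := π * n / ((2 * (r + 1) : ℕ) : ℝ) with hx
  have hx0 : sin x ≠ 0 := sin_ne (2 * (r + 1)) n (by omega) hn
  have hx2 : π * n / (r + 1) = 2 * x := by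
    rw [hx]
    push_cast
    field_simp
  have key : ∀ m : ℕ, 2 * sin x * ∑ i ∈ range m, cos (π * n * (i + 1) / (r + 1)) =
      sin (2 * x * m + x) - sin x := by
    intro m
    induction m with
    | zero => simp
    | succ m ih =>
      rw [sum_range_succ, mul_add, ih]
      have e0 : π * n * ((m : ℝ) + 1) / (r + 1) = 2 * x * (m + 1) := by
        rw [← hx2]
        ring
      have e1 : 2 * x * ((m + 1 : ℕ) : ℝ) + x = 2 * x * (m + 1) + x := by push_cast; ring
      have e2 : 2 * x * (m : ℝ) + x = 2 * x * (m + 1) - x := by ring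
      rw [e0, e1, e2, Real.sin_add (2 * x * (m + 1)) x, Real.sin_sub (2 * x * (m + 1)) x]
      ring
  have h := key r
  have e : 2 * x * (r : ℝ) + x = π * n - x := by
    have : 2 * x * ((r : ℝ) + 1) = π * n := by
      rw [← hx2]
      field_simp
    linarith
  have hs : sin (π * n) = 0 := by
    rw [mul_comm]
    exact Real.sin_int_mul_pi n
  rw [e, Real.sin_sub, hs] at h
  have h2 : sin x * (2 * ∑ i ∈ range r, cos (π * n * (i + 1) / (r + 1)) + (1 + cos (π * n))) = 0 := by
    linarith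
  rcases mul_eq_zero.1 h2 with h1 | h1
  · exact absurd h1 hx0
  · linarith

private lemma sum_sin (r b b' : ℕ) (hb : 1 ≤ b) (hr : b ≤ r) (hb' : 1 ≤ b') (hr' : b' ≤ r) :
    ∑ i ∈ range r, sin (π * b * (i + 1) / (r + 1)) * sin (π * b' * (i + 1) / (r + 1)) =
      if b = b' then ((r : ℝ) + 1) / 2 else 0 := by
  have e : ∀ i ∈ range r, sin (π * b * ((i : ℝ) + 1) / (r + 1)) * sin (π * b' * (i + 1) / (r + 1)) =
      (cos (π * ((b : ℤ) - b' : ℤ) * (i + 1) / (r + 1)) -
        cos (π * ((b : ℤ) + b' : ℤ) * (i + 1) / (r + 1))) / 2 := by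
    intro i _
    have e1 : π * (((b : ℤ) - b' : ℤ) : ℝ) * ((i : ℝ) + 1) / (r + 1) =
        π * b * (i + 1) / (r + 1) - π * b' * (i + 1) / (r + 1) := by
      push_cast
      ring
    have e2 : π * (((b : ℤ) + b' : ℤ) : ℝ) * ((i : ℝ) + 1) / (r + 1) =
        π * b * (i + 1) / (r + 1) + π * b' * (i + 1) / (r + 1) := by
      push_cast
      ring
    rw [e1, e2, Real.cos_sub, Real.cos_add]
    ring
  rw [sum_congr rfl e, ← sum_div, sum_sub_distrib]
  have hp : ¬ ((2 * (r + 1) : ℕ) : ℤ) ∣ ((b : ℤ) + b' : ℤ) := by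
    rintro ⟨c, hc⟩
    push_cast at hc
    have h1 : 0 < c := by nlinarith
    nlinarith
  rw [sum_cos2 r _ hp]
  by_cases h : b = b'
  · subst h
    rw [if_pos rfl]
    have h2 : cos (π * (((b : ℤ) + b : ℤ) : ℝ)) = 1 := by
      have : π * (((b : ℤ) + b : ℤ) : ℝ) = (b : ℤ) * (2 * π) := by
        push_cast
        ring
      rw [this, Real.cos_int_mul_two_pi]
    rw [h2]
    simp
  · rw [if_neg h]
    have hm : ¬ ((2 * (r + 1) : ℕ) : ℤ) ∣ ((b : ℤ) - b' : ℤ) := by
      rintro ⟨c, hc⟩
      push_cast at hc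
      have hne : (b : ℤ) - b' ≠ 0 := by
        intro h0
        apply h
        omega
      have hc0 : c ≠ 0 := by
        rintro rfl
        simp at hc
        exact hne hc
      rcases lt_or_gt_of_ne hc0 with h1 | h1
      · have : c ≤ -1 := by omega
        nlinarith
      · have : 1 ≤ c := by omega
        nlinarith
    rw [sum_cos2 r _ hm]
    have h2 : cos (π * (((b : ℤ) + b' : ℤ) : ℝ)) = cos (π * (((b : ℤ) - b' : ℤ) : ℝ)) := by
      have : π * (((b : ℤ) + b' : ℤ) : ℝ) = π * (((b : ℤ) - b' : ℤ) : ℝ) + (b' : ℤ) * (2 * π) := by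
        push_cast
        ring
      rw [this, Real.cos_add_int_mul_two_pi]
    rw [h2]
    ring

private lemma sum_j (k a a' i : ℕ) (ha : 1 ≤ a) (hk : a < k) (ha' : 1 ≤ a') (hk' : a' < k) :
    ∑ j ∈ range k,
      (cos (π * a / k * (2 * j + i) - π * i / 2) + sin (π * a / k * (2 * j + i) - π * i / 2)) *
      (cos (π * a' / k * (2 * j + i) - π * i / 2) + sin (π * a' / k * (2 * j + i) - π * i / 2)) =
      if a = a' then (k : ℝ) else 0 := by
  have hk0 : 0 < k := by omega
  have hkr : (k : ℝ) ≠ 0 := by positivity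
  have e : ∀ j ∈ range k,
      (cos (π * a / k * (2 * (j : ℝ) + i) - π * i / 2) +
        sin (π * a / k * (2 * j + i) - π * i / 2)) *
      (cos (π * a' / k * (2 * j + i) - π * i / 2) + sin (π * a' / k * (2 * j + i) - π * i / 2)) =
      cos (2 * π * ((a : ℤ) - a' : ℤ) / k * j + π * (a - a') / k * i) +
      cos (2 * π * ((a : ℤ) + a' : ℤ) / k * j + (π * (a + a') / k * i - π * i - π / 2)) := by
    intro j _
    set α : ℝ := π * a / k * (2 * (j : ℝ) + i) - π * i / 2 with hα
    set β : ℝ := π * a' / k * (2 * (j : ℝ) + i) - π * i / 2 with hβ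
    have e1 : 2 * π * (((a : ℤ) - a' : ℤ) : ℝ) / k * j + π * (a - a') / k * i = α - β := by
      rw [hα, hβ]
      push_cast
      ring
    have e2 : 2 * π * (((a : ℤ) + a' : ℤ) : ℝ) / k * j + (π * (a + a') / k * i - π * i - π / 2) =
        (α + β) - π / 2 := by
      rw [hα, hβ]
      push_cast
      ring
    rw [e1, e2, Real.cos_sub_pi_div_two, Real.cos_sub α β, Real.sin_add α β]
    ring
  rw [sum_congr rfl e, sum_add_distrib]
  have h2 : ∑ j ∈ range k, cos (2 * π * ((a : ℤ) + a' : ℤ) / k * j +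
      (π * (a + a') / k * i - π * i - π / 2)) = 0 := by
    by_cases hd : (k : ℤ) ∣ ((a : ℤ) + a' : ℤ)
    · obtain ⟨c, hc⟩ := hd
      have hc1 : c = 1 := by
        have h1 : 0 < c := by nlinarith
        have h3 : c < 2 := by nlinarith
        omega
      rw [hc1, mul_one] at hc
      apply sum_eq_zero
      intro j _
      rw [hc]
      have hc' : (a : ℝ) + a' = k := by exact_mod_cast hc
      rw [hc']
      have e3 : 2 * π * ((k : ℤ) : ℝ) / k * (j : ℝ) + (π * k / k * i - π * i - π / 2) =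
          (j : ℤ) * (2 * π) - π / 2 := by
        push_cast
        field_simp
        ring
      rw [e3, Real.cos_sub_pi_div_two]
      have := Real.sin_int_mul_pi ((j : ℤ) * 2)
      rw [← this]
      congr 1
      push_cast
      ring
    · exact sum_cos k _ _ hk0 hd
  rw [h2, add_zero]
  by_cases h : a = a'
  · subst h
    rw [if_pos rfl]
    simp
  · rw [if_neg h]
    apply sum_cos k _ _ hk0
    rintro ⟨c, hc⟩
    have hc0 : c ≠ 0 := by
      rintro rfl
      apply h
      omega
    rcases lt_or_gt_of_ne hc0 with h1 | h1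
    · have : c ≤ -1 := by omega
      nlinarith
    · have : 1 ≤ c := by omega
      nlinarith

theorem md_orth (r k a b a' b' : ℕ) (ha : 1 ≤ a) (hk : a < k) (ha' : 1 ≤ a') (hk' : a' < k)
    (hb : 1 ≤ b) (hr : b ≤ r) (hb' : 1 ≤ b') (hr' : b' ≤ r) :
    ∑ j ∈ range k, ∑ i ∈ range r, md r k a b j i * md r k a' b' j i =
      if a = a' ∧ b = b' then (k : ℝ) * (r + 1) / 2 else 0 := by
  rw [sum_comm]
  have e : ∀ i ∈ range r, ∑ j ∈ range k, md r k a b j i * md r k a' b' j i =
      (if a = a' then (k : ℝ) else 0) *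
        (sin (π * b * (i + 1) / (r + 1)) * sin (π * b' * (i + 1) / (r + 1))) := by
    intro i _
    rw [← sum_j k a a' i ha hk ha' hk', sum_mul]
    apply sum_congr rfl
    intro j _
    simp only [md]
    ring
  rw [sum_congr rfl e, ← mul_sum, sum_sin r b b' hb hr hb' hr']
  by_cases h1 : a = a' <;> by_cases h2 : b = b' <;> simp [h1, h2]
  ring

end Pool.Agent.H53.HB
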