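import Pool.Agent.H53.HB.Hur

/-!
# The quotient of the monoid of words and the map from the braid group

The relations of the braid group follow from Hurwitz moves and the change of the sign of a vector.
-/

namespace Pool.Agent.H53.HB

open Module

variable {U : Type} [AddCommGroup U] [Module ℝ U] (ω : U →ₗ[ℝ] U →ₗ[ℝ] ℝ)

/-- two words are congruent if they may be exchanged in every word without a change of the
signature -/
def con : Con (FreeMonoid (Bool × U)) where
  r w w' := ∀ u t : List (Bool × U), sg ω (u ++ w.toList ++ t) = sg ω (u ++ w'.toList ++ t)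
  iseqv := ⟨fun _ _ _ => rfl, fun h u t => (h u t).symm, fun h h' u t => (h u t).trans (h' u t)⟩
  mul' := by
    intro w x y z h h' u t
    have h1 := h u (y.toList ++ t)
    have h2 := h' (u ++ x.toList) t
    simp only [FreeMonoid.toList_mul, List.append_assoc] at h1 h2 ⊢
    exact h1.trans h2

lemma con_apply (w w' : FreeMonoid (Bool × U)) :
    (con ω) w w' ↔
      ∀ u t : List (Bool × U), sg ω (u ++ w.toList ++ t) = sg ω (u ++ w'.toList ++ t) := Iff.rfl

/-- the unit of the quotient given by a positive letter -/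
noncomputable def gen (hω : ω.IsAlt) (v : U) : (con ω).Quotientˣ where
  val := (FreeMonoid.of (true, v) : (con ω).Quotient)
  inv := (FreeMonoid.of (false, v) : (con ω).Quotient)
  val_inv := by
    rw [← Con.coe_mul, ← Con.coe_one, Con.eq, con_apply]
    intro u t
    have := sg_cancel ω hω u t true v
    simpa using this
  inv_val := by
    rw [← Con.coe_mul, ← Con.coe_one, Con.eq, con_apply]
    intro u t
    have := sg_cancel ω hω u t false v
    simpa using this

lemma gen_val (hω : ω.IsAlt) (v : U) :
    ((gen ω hω v : (con ω).Quotientˣ) : (con ω).Quotient) =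
      (FreeMonoid.of (true, v) : (con ω).Quotient) := rfl

lemma gen_mul (hω : ω.IsAlt) (w v : U) :
    gen ω hω w * gen ω hω v = gen ω hω (tv ω hω w v) * gen ω hω w := by
  apply Units.ext
  rw [Units.val_mul, Units.val_mul, gen_val, gen_val, gen_val, ← Con.coe_mul, ← Con.coe_mul,
    Con.eq, con_apply]
  intro u t
  have h := sg_hurwitz ω hω u t (true, tv ω hω w v) (true, w)
  have h1 : tv ω hω w v - (sgn true * ω (tv ω hω w v) w) • w = v := by
    rw [tv_apply, map_add, map_smul, LinearMap.add_apply, LinearMap.smul_apply,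
      hω.self_eq_zero w, sgn, if_pos rfl]
    simp
  rw [h1] at h
  simpa using h.symm

lemma gen_conj (hω : ω.IsAlt) (w v : U) :
    gen ω hω w * gen ω hω v * (gen ω hω w)⁻¹ = gen ω hω (tv ω hω w v) := by
  rw [gen_mul, mul_inv_cancel_right]

lemma gen_neg (hω : ω.IsAlt) (v : U) : gen ω hω (-v) = gen ω hω v := by
  apply Units.ext
  rw [gen_val, gen_val, Con.eq, con_apply]
  intro u t
  have h := sg_neg ω u t true v
  simpa using h.symm

lemma gen_braid (hω : ω.IsAlt) (a b : U) (h : ω a b = 1) :
    gen ω hω a * gen ω hω b * gen ω hω a = gen ω hω b * gen ω hω a * gen ω hω b := by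
  have h' : ω b a = -1 := by rw [← hω.neg, h]
  have h1 : gen ω hω a * gen ω hω b = gen ω hω (b - a) * gen ω hω a := by
    rw [gen_mul, tv_apply, h']
    congr 2
    module
  have h2 : gen ω hω b * gen ω hω (a - b) = gen ω hω a * gen ω hω b := by
    rw [gen_mul, tv_apply, map_sub, LinearMap.sub_apply, h, hω.self_eq_zero b]
    congr 2
    module
  have h3 : gen ω hω (a - b) = gen ω hω (b - a) := by rw [← gen_neg, neg_sub]
  rw [h3] at h2
  calc gen ω hω a * gen ω hω b * gen ω hω a
      = gen ω hω b * gen ω hω (b - a) * gen ω hω a := by rw [h2]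
    _ = gen ω hω b * (gen ω hω (b - a) * gen ω hω a) := mul_assoc _ _ _
    _ = gen ω hω b * (gen ω hω a * gen ω hω b) := by rw [← h1]
    _ = gen ω hω b * gen ω hω a * gen ω hω b := (mul_assoc _ _ _).symm

lemma gen_comm (hω : ω.IsAlt) (a b : U) (h : ω a b = 0) :
    gen ω hω a * gen ω hω b = gen ω hω b * gen ω hω a := by
  have h' : ω b a = 0 := by rw [← hω.neg, h, neg_zero]
  rw [gen_mul, tv_apply, h', zero_smul, add_zero]

/-- the map from the braid group -/
noncomputable def psi (m : ℕ) : Braid m →* ((con (ch m)).Quotient)ˣ :=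
  PresentedGroup.toGroup (f := fun i : Fin m => gen (ch m) (ch_alt m) (av m i)) (by
    rintro r ⟨i, j, ⟨hij, rfl⟩ | ⟨hij, rfl⟩⟩
    · simp only [map_mul, map_inv, FreeGroup.lift_apply_of]
      rw [mul_inv_eq_one]
      refine gen_braid _ _ _ _ ?_
      rw [ch_av m i j i.2 j.2, if_pos hij]
    · simp only [map_mul, map_inv, FreeGroup.lift_apply_of]
      rw [mul_inv_eq_one]
      refine gen_comm _ _ _ _ ?_
      rw [ch_av m i j i.2 j.2, if_neg (by omega), if_neg (by omega)])

lemma psi_of (m : ℕ) (i : Fin m) :
    psi m (PresentedGroup.of i) = gen (ch m) (ch_alt m) (av m i) := by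
  rw [psi, PresentedGroup.toGroup.of]

lemma rho_of (m : ℕ) (i : Fin m) :
    rho m (PresentedGroup.of i) = tv (ch m) (ch_alt m) (av m i) := by
  rw [rho, PresentedGroup.toGroup.of]

lemma psi_sig (m i : ℕ) (hi : i < m) : psi m (sig m i) = gen (ch m) (ch_alt m) (av m i) := by
  rw [sig, dif_pos hi, psi_of]

lemma braid_induct (m : ℕ) {P : Braid m → Prop} (h1 : P 1)
    (hg : ∀ i : Fin m, P (PresentedGroup.of i)) (hm : ∀ x y, P x → P y → P (x * y))
    (hi : ∀ x, P x → P x⁻¹) (x : Braid m) : P x := by
  have hx : x ∈ Subgroup.closure (Set.range (PresentedGroup.of : Fin m → Braid m)) := by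
    rw [PresentedGroup.closure_range_of]
    exact Subgroup.mem_top x
  induction hx using Subgroup.closure_induction with
  | mem x hx =>
    obtain ⟨i, rfl⟩ := hx
    exact hg i
  | one => exact h1
  | mul x y _ _ h h' => exact hm x y h h'
  | inv x _ h => exact hi x h

lemma psi_conj (m : ℕ) (x : Braid m) (v : Fin m → ℝ) :
    psi m x * gen (ch m) (ch_alt m) v * (psi m x)⁻¹ = gen (ch m) (ch_alt m) (rho m x v) := by
  revert v
  induction x using braid_induct with
  | h1 => intro v; simp
  | hg i => intro v; rw [psi_of, rho_of, gen_conj]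
  | hm x y hx hy =>
    intro v
    rw [map_mul, map_mul, LinearEquiv.mul_apply, ← hx, ← hy]
    group
  | hi x hx =>
    intro v
    have h := hx (rho m x⁻¹ v)
    have h2 : rho m x (rho m x⁻¹ v) = v := by
      rw [← LinearEquiv.mul_apply, ← map_mul, mul_inv_cancel, map_one]
      rfl
    rw [h2] at h
    rw [← h, map_inv]
    group

lemma rho_ch (m : ℕ) (x : Braid m) (u v : Fin m → ℝ) :
    ch m (rho m x u) (rho m x v) = ch m u v := by
  revert u v
  induction x using braid_induct with
  | h1 => intro u v; simp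
  | hg i =>
    intro u v
    rw [rho_of, tv_apply, tv_apply]
    simp only [map_add, map_smul, LinearMap.add_apply, LinearMap.smul_apply,
      (ch_alt m).self_eq_zero, smul_eq_mul]
    have h : ch m (av m i) v = - ch m v (av m i) := by rw [(ch_alt m).neg]
    rw [h]
    ring
  | hm x y hx hy =>
    intro u v
    rw [map_mul, LinearEquiv.mul_apply, LinearEquiv.mul_apply, hx, hy]
  | hi x hx =>
    intro u v
    have h := hx (rho m x⁻¹ u) (rho m x⁻¹ v)
    have h2 : ∀ w, rho m x (rho m x⁻¹ w) = w := by
      intro w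
      rw [← LinearEquiv.mul_apply, ← map_mul, mul_inv_cancel, map_one]
      rfl
    rw [h2, h2] at h
    exact h.symm

lemma gen_prod (hω : ω.IsAlt) (l : List U) :
    (((l.map (gen ω hω)).prod : (con ω).Quotientˣ) : (con ω).Quotient) =
      ((FreeMonoid.ofList (l.map fun v => (true, v)) : FreeMonoid (Bool × U)) :
        (con ω).Quotient) := by
  induction l with
  | nil => rfl
  | cons a l ih =>
    rw [List.map_cons, List.prod_cons, Units.val_mul, ih, gen_val, ← Con.coe_mul, List.map_cons,
      FreeMonoid.ofList_cons]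

lemma sg_eq_of_prod_eq (hω : ω.IsAlt) (l l' : List U)
    (h : (l.map (gen ω hω)).prod = (l'.map (gen ω hω)).prod) :
    sg ω (l.map fun v => (true, v)) = sg ω (l'.map fun v => (true, v)) := by
  have h1 := congrArg (fun x : (con ω).Quotientˣ => (x : (con ω).Quotient)) h
  simp only [gen_prod] at h1
  rw [Con.eq, con_apply] at h1
  simpa using h1 [] []

end Pool.Agent.H53.HB
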