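import Pool.Agent.H53.HB.FDefs

/-!
# Coordinates for the word of a power of a Coxeter element

Sketch. Two recursions. (1) For a list `l` of length `r` of vectors there is a linear map
`(ℕ → ℝ) → (word l).E`, `x ↦ (x 0, map of the tail applied to x (· + 1))`, with explicit `L` and
`V = ∑ i < r, x i • l[i]`; for `l = [av 0, …, av (r-1)]`, by `ch_av`,
`L = ∑ i < r, x i y i + ∑ i < r - 1, x i y (i+1)`. (2) For the `k`-fold concatenation use
`word (l ++ w)` against `Dat.mul (word l) (word w)` (in `Hur.lean` there is `word_append_iso` for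
`q`; here one needs the same for `L`; a linear map which preserves `L` and `V` is enough), with
`ω (V x_j', V x_j) = ∑ i < r - 1, (x j' i * y j (i+1) - x j' (i+1) * y j i)`.
-/

namespace Pool.Agent.H53.HB

open Finset

private theorem Vec_append {U : Type} [AddCommGroup U] [Module ℝ U] (ω : U →ₗ[ℝ] U →ₗ[ℝ] ℝ)
    (w : List (Bool × U)) : ∀ l : List (Bool × U),
    ∃ P : (word ω l).E × (word ω w).E →ₗ[ℝ] (word ω (l ++ w)).E,
      (∀ a b a' b', (word ω (l ++ w)).L (P (a, b)) (P (a', b')) =
        (word ω l).L a a' + (word ω w).L b b' + ω ((word ω l).V a) ((word ω w).V b')) ∧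
      ∀ a b, (word ω (l ++ w)).V (P (a, b)) = (word ω l).V a + (word ω w).V b
  | [] => by
    refine ⟨LinearMap.snd ℝ _ _, fun a b a' b' => ?_, fun a b => ?_⟩
    · have h1 : (word ω ([] : List (Bool × U))).L a a' = 0 := rfl
      have h2 : (word ω ([] : List (Bool × U))).V a = 0 := rfl
      rw [h1, h2, map_zero, LinearMap.zero_apply, zero_add, add_zero]
      rfl
    · have h2 : (word ω ([] : List (Bool × U))).V a = 0 := rfl
      rw [h2, zero_add]
      rfl
  | c :: l => by
    obtain ⟨P, hL, hV⟩ := Vec_append ω w l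
    let Q : (ℝ × (word ω l).E) × (word ω w).E →ₗ[ℝ] ℝ × (word ω (l ++ w)).E :=
      (LinearMap.fst ℝ ℝ (word ω l).E ∘ₗ LinearMap.fst ℝ _ _).prod
        (P ∘ₗ ((LinearMap.snd ℝ ℝ (word ω l).E ∘ₗ LinearMap.fst ℝ _ _).prod
          (LinearMap.snd ℝ _ _)))
    refine ⟨Q, ?_, ?_⟩
    · rintro ⟨x, a⟩ b ⟨x', a'⟩ b'
      change (Dat.mul ω (Dat.single (sgn c.1) c.2) (word ω (l ++ w))).L (x, P (a, b))
        (x', P (a', b')) = (Dat.mul ω (Dat.single (sgn c.1) c.2) (word ω l)).L (x, a) (x', a') +
        (word ω w).L b b' + ω ((Dat.mul ω (Dat.single (sgn c.1) c.2) (word ω l)).V (x, a))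
          ((word ω w).V b')
      rw [Dat.mul_L, Dat.mul_L, Dat.mul_V, hL, hV, map_add, map_add, LinearMap.add_apply]
      ring
    · rintro ⟨x, a⟩ b
      change (Dat.mul ω (Dat.single (sgn c.1) c.2) (word ω (l ++ w))).V (x, P (a, b)) =
        (Dat.mul ω (Dat.single (sgn c.1) c.2) (word ω l)).V (x, a) + (word ω w).V b
      rw [Dat.mul_V, Dat.mul_V, hV, add_assoc]

private theorem Vec_consL {U : Type} [AddCommGroup U] [Module ℝ U] (ω : U →ₗ[ℝ] U →ₗ[ℝ] ℝ)
    (w : List (Bool × U)) (v : U) (x x' : ℝ) (a a' : (word ω w).E) :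
    (word ω ((true, v) :: w)).L ((x, a) : ℝ × (word ω w).E) ((x', a') : ℝ × (word ω w).E) =
      x * x' + (word ω w).L a a' + x * ω v ((word ω w).V a') := by
  have h : (word ω ((true, v) :: w)).L ((x, a) : ℝ × (word ω w).E) ((x', a') : ℝ × (word ω w).E) =
      sgn true * (x * x') + (word ω w).L a a' + ω (x • v) ((word ω w).V a') := rfl
  rw [h, map_smul, LinearMap.smul_apply, smul_eq_mul, sgn, if_pos rfl, one_mul]

private theorem Vec_consV {U : Type} [AddCommGroup U] [Module ℝ U] (ω : U →ₗ[ℝ] U →ₗ[ℝ] ℝ)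
    (w : List (Bool × U)) (v : U) (x : ℝ) (a : (word ω w).E) :
    (word ω ((true, v) :: w)).V ((x, a) : ℝ × (word ω w).E) = x • v + (word ω w).V a := rfl

private theorem Vec_list {U : Type} [AddCommGroup U] [Module ℝ U] (ω : U →ₗ[ℝ] U →ₗ[ℝ] ℝ) (n : ℕ) :
    ∀ f : ℕ → U, ∃ κ : (ℕ → ℝ) →ₗ[ℝ] (word ω (((List.range n).map f).map fun v => (true, v))).E,
      (∀ x y, (word ω _).L (κ x) (κ y) = ∑ i ∈ range n, x i * y i +
        ∑ j ∈ range n, ∑ i ∈ range j, x i * y j * ω (f i) (f j)) ∧
      ∀ x, (word ω _).V (κ x) = ∑ i ∈ range n, x i • f i := by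
  induction n with
  | zero =>
    intro f
    refine ⟨0, fun x y => ?_, fun x => ?_⟩
    · rw [LinearMap.zero_apply, map_zero, LinearMap.zero_apply]
      simp
    · rw [LinearMap.zero_apply, map_zero]
      simp
  | succ n ih =>
    intro f
    obtain ⟨κ, hL, hV⟩ := ih (fun i => f (i + 1))
    have hl : ((List.range (n + 1)).map f).map (fun v => (true, v)) =
        (true, f 0) :: ((List.range n).map (fun i => f (i + 1))).map (fun v => (true, v)) := by
      rw [List.range_succ_eq_map]
      simp [List.map_map, Function.comp_def]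
    rw [hl]
    let s : (ℕ → ℝ) →ₗ[ℝ] (ℕ → ℝ) := LinearMap.funLeft ℝ ℝ (fun i : ℕ => i + 1)
    have hs : ∀ x i, s x i = x (i + 1) := fun x i => rfl
    let K : (ℕ → ℝ) →ₗ[ℝ] ℝ ×
        (word ω (((List.range n).map (fun i => f (i + 1))).map fun v => (true, v))).E :=
      (LinearMap.proj 0).prod (κ ∘ₗ s)
    refine ⟨K, fun x y => ?_, fun x => ?_⟩
    · refine (Vec_consL ω _ (f 0) (x 0) (y 0) (κ (s x)) (κ (s y))).trans ?_
      rw [hL, hV]
      rw [Finset.sum_range_succ' (fun i => x i * y i), Finset.sum_range_succ' (fun j =>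
        ∑ i ∈ range j, x i * y j * ω (f i) (f j))]
      simp only [Finset.sum_range_succ' (fun i => x i * y _ * ω (f i) (f _)), Finset.sum_add_distrib,
        Finset.range_zero, Finset.sum_empty, hs, map_sum, map_smul,
        smul_eq_mul]
      rw [Finset.mul_sum]
      have : ∀ i ∈ range n, x 0 * (y (i + 1) * ω (f 0) (f (i + 1))) =
          x 0 * y (i + 1) * ω (f 0) (f (i + 1)) := fun i _ => by ring
      rw [Finset.sum_congr rfl this]
      ring
    · refine (Vec_consV ω _ (f 0) (x 0) (κ (s x))).trans ?_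
      rw [hV, Finset.sum_range_succ' (fun i => x i • f i), add_comm]
      rfl

private theorem Vec_diag (a : ℕ → ℕ → ℝ) (n : ℕ) :
    ∑ i ∈ range n, ∑ j ∈ range n, a i j * (if i + 1 = j then 1 else 0) =
      ∑ i ∈ range (n - 1), a i (i + 1) := by
  cases n with
  | zero => simp
  | succ n =>
    have h : ∀ i ∈ range (n + 1), ∑ j ∈ range (n + 1), a i j * (if i + 1 = j then (1 : ℝ) else 0) =
        if i < n then a i (i + 1) else 0 := by
      intro i _
      simp only [mul_ite, mul_one, mul_zero]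
      rw [Finset.sum_ite_eq]
      simp only [mem_range, Nat.add_lt_add_iff_right]
    rw [Finset.sum_congr rfl h, Finset.sum_range_succ, if_neg (lt_irrefl n), add_zero,
      Nat.add_sub_cancel]
    exact Finset.sum_congr rfl fun i hi => if_pos (mem_range.1 hi)

private theorem Vec_tri (a : ℕ → ℕ → ℝ) (n : ℕ) :
    ∑ j ∈ range n, ∑ i ∈ range j, a i j * (if i + 1 = j then 1 else 0) =
      ∑ i ∈ range (n - 1), a i (i + 1) := by
  cases n with
  | zero => simp
  | succ n =>
    rw [Finset.sum_range_succ', Finset.range_zero, Finset.sum_empty, add_zero, Nat.add_sub_cancel]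
    refine Finset.sum_congr rfl fun j _ => ?_
    rw [Finset.sum_range_succ, if_pos rfl, mul_one, Finset.sum_eq_zero, zero_add]
    intro i hi
    rw [if_neg, mul_zero]
    have := mem_range.1 hi
    omega

private theorem Vec_pair (m r : ℕ) (hr : r ≤ m) (x z : ℕ → ℝ) :
    ch m (∑ i ∈ range r, x i • av m i) (∑ i ∈ range r, z i • av m i) =
      ∑ i ∈ range (r - 1), (x i * z (i + 1) - x (i + 1) * z i) := by
  have h1 : ch m (∑ i ∈ range r, x i • av m i) (∑ i ∈ range r, z i • av m i) =
      ∑ i ∈ range r, ∑ j ∈ range r, x i * z j * ch m (av m i) (av m j) := by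
    rw [map_sum, Finset.sum_comm (f := fun i j => x i * z j * ch m (av m i) (av m j))]
    refine Finset.sum_congr rfl fun j _ => ?_
    rw [map_smul, map_sum, LinearMap.sum_apply, smul_eq_mul, Finset.mul_sum]
    refine Finset.sum_congr rfl fun i _ => ?_
    rw [map_smul, LinearMap.smul_apply, smul_eq_mul]
    ring
  have h2 : ∀ i ∈ range r, ∀ j ∈ range r, x i * z j * ch m (av m i) (av m j) =
      x i * z j * (if i + 1 = j then 1 else 0) - x i * z j * (if j + 1 = i then 1 else 0) := by
    intro i hi j hj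
    rw [ch_av m i j ((mem_range.1 hi).trans_le hr) ((mem_range.1 hj).trans_le hr)]
    by_cases h3 : i + 1 = j
    · rw [if_pos h3, if_pos h3, if_neg (by omega)]
      ring
    · rw [if_neg h3, if_neg h3]
      split_ifs <;> ring
  rw [h1, Finset.sum_congr rfl fun i hi => Finset.sum_congr rfl (h2 i hi)]
  simp only [Finset.sum_sub_distrib]
  rw [Vec_diag (fun i j => x i * z j), Finset.sum_comm (f := fun i j => x i * z j *
    (if j + 1 = i then (1 : ℝ) else 0)), Vec_diag (fun j i => x i * z j)]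

private theorem Vec_block (m r : ℕ) (hr : r ≤ m) :
    ∃ κ : (ℕ → ℝ) →ₗ[ℝ] (word (ch m) (((List.range r).map (av m)).map fun v => (true, v))).E,
      (∀ x y, (word (ch m) _).L (κ x) (κ y) =
        ∑ i ∈ range r, x i * y i + ∑ i ∈ range (r - 1), x i * y (i + 1)) ∧
      ∀ x, (word (ch m) _).V (κ x) = ∑ i ∈ range r, x i • av m i := by
  obtain ⟨κ, hL, hV⟩ := Vec_list (ch m) r (av m)
  refine ⟨κ, fun x y => ?_, hV⟩
  rw [hL, ← Vec_tri (fun i j => x i * y j)]
  congr 1
  refine Finset.sum_congr rfl fun j hj => Finset.sum_congr rfl fun i hi => ?_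
  have hj' := mem_range.1 hj
  have hi' := mem_range.1 hi
  rw [ch_av m i j (by omega) (by omega)]
  congr 1
  split_ifs <;> first | rfl | omega

theorem exists_vec (m r k : ℕ) (hr : r ≤ m) :
    ∃ κ : (ℕ → ℕ → ℝ) →ₗ[ℝ] (word (ch m) ((blk m r k).map fun v => (true, v))).E,
      (∀ x y, (word (ch m) _).L (κ x) (κ y) = Lf r k x y) ∧
        ∀ x, (word (ch m) _).V (κ x) = ∑ i ∈ range r, (∑ j ∈ range k, x j i) • av m i := by
  induction k with
  | zero =>
    refine ⟨0, fun x y => ?_, fun x => ?_⟩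
    · rw [LinearMap.zero_apply, map_zero, LinearMap.zero_apply]
      simp [Lf]
    · rw [LinearMap.zero_apply, map_zero]
      simp
  | succ k ih =>
    obtain ⟨κ, hL, hV⟩ := ih
    obtain ⟨β, hβL, hβV⟩ := Vec_block m r hr
    obtain ⟨P, hPL, hPV⟩ := Vec_append (ch m) ((blk m r k).map fun v => (true, v))
      (((List.range r).map (av m)).map fun v => (true, v))
    have hl : (blk m r (k + 1)).map (fun v => (true, v)) =
        ((List.range r).map (av m)).map (fun v => (true, v)) ++
          (blk m r k).map (fun v => (true, v)) := by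
      unfold blk
      rw [List.replicate_succ, List.flatten_cons, List.map_append]
    rw [hl]
    let s : (ℕ → ℕ → ℝ) →ₗ[ℝ] (ℕ → ℕ → ℝ) := LinearMap.funLeft ℝ (ℕ → ℝ) (fun j : ℕ => j + 1)
    have hs : ∀ x j i, s x j i = x (j + 1) i := fun x j i => rfl
    refine ⟨P ∘ₗ ((β ∘ₗ LinearMap.proj 0).prod (κ ∘ₗ s)), fun x y => ?_, fun x => ?_⟩
    · change (word (ch m) _).L (P (β (x 0), κ (s x))) (P (β (y 0), κ (s y))) = _
      rw [hPL, hβL, hL, hβV, hV, Vec_pair m r hr]
      unfold Lf
      rw [Finset.sum_range_succ' (fun j => ∑ i ∈ range r, x j i * y j i +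
        ∑ i ∈ range (r - 1), x j i * y j (i + 1)), Finset.sum_range_succ' (fun j =>
        ∑ j' ∈ range j, ∑ i ∈ range (r - 1), (x j' i * y j (i + 1) - x j' (i + 1) * y j i))]
      have h1 : ∀ j ∈ range k, ∑ j' ∈ range (j + 1), ∑ i ∈ range (r - 1),
          (x j' i * y (j + 1) (i + 1) - x j' (i + 1) * y (j + 1) i) =
          ∑ j' ∈ range j, ∑ i ∈ range (r - 1),
            (s x j' i * s y j (i + 1) - s x j' (i + 1) * s y j i) +
          ∑ i ∈ range (r - 1), (x 0 i * s y j (i + 1) - x 0 (i + 1) * s y j i) := by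
        intro j _
        rw [Finset.sum_range_succ']
        rfl
      rw [Finset.sum_congr rfl h1, Finset.sum_add_distrib (s := range k) (f := fun j =>
        ∑ j' ∈ range j, ∑ i ∈ range (r - 1),
            (s x j' i * s y j (i + 1) - s x j' (i + 1) * s y j i))]
      have h2 : ∑ j ∈ range k, ∑ i ∈ range (r - 1), (x 0 i * s y j (i + 1) - x 0 (i + 1) * s y j i) =
          ∑ i ∈ range (r - 1), (x 0 i * ∑ j ∈ range k, s y j (i + 1) -
            x 0 (i + 1) * ∑ j ∈ range k, s y j i) := by
        rw [Finset.sum_comm]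
        refine Finset.sum_congr rfl fun i _ => ?_
        rw [Finset.sum_sub_distrib, Finset.mul_sum, Finset.mul_sum]
      rw [h2]
      simp only [Finset.range_zero, Finset.sum_empty, add_zero, hs]
      ring
    · change (word (ch m) _).V (P (β (x 0), κ (s x))) = _
      rw [hPV, hβV, hV, ← Finset.sum_add_distrib]
      refine Finset.sum_congr rfl fun i _ => ?_
      rw [Finset.sum_range_succ' (fun j => x j i), ← add_smul, add_comm]
      rfl

end Pool.Agent.H53.HB
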