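import Pool.Agent.H53.HB.Quo
import Pool.Agent.H53.HB.Mono
import Pool.Agent.H53.HB.Hyp
import Pool.Agent.H53.HB.Cox
import Pool.Agent.H53.HB.Dual
import Pool.Agent.H53.HB.Four
import Pool.Agent.H53.HB.Orth
import Pool.Agent.H53.HB.Count
import Pool.Agent.H53.HB.Vec

/-!
# The indices of the words of full twists
-/

namespace Pool.Agent.H53.HB

open Module

/-- the word of positive letters -/
abbrev pos {U : Type} (l : List U) : List (Bool × U) := l.map fun v => (true, v)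

lemma blk_prod (m r k : ℕ) {G : Type} [Monoid G] (f : (Fin m → ℝ) → G) :
    ((blk m r k).map f).prod = (((List.range r).map fun i => f (av m i)).prod) ^ k := by
  unfold blk
  induction k with
  | zero => simp
  | succ k ih =>
    rw [List.replicate_succ, List.flatten_cons, List.map_append, List.prod_append, ih, pow_succ',
      List.map_map]
    rfl

lemma tv_prod (m r : ℕ) (hr : r ≤ m) :
    ((List.range r).map fun i => tv (ch m) (ch_alt m) (av m i)).prod =
      rho m ((List.range r).map (sig m)).prod := by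
  rw [map_list_prod, List.map_map]
  congr 1
  refine List.map_congr_left (fun i hi => ?_)
  rw [Function.comp_apply, rho_sig m i (lt_of_lt_of_le (List.mem_range.1 hi) hr)]

lemma gen_prod_range (m r : ℕ) (hr : r ≤ m) :
    ((List.range r).map fun i => gen (ch m) (ch_alt m) (av m i)).prod =
      psi m ((List.range r).map (sig m)).prod := by
  rw [map_list_prod, List.map_map]
  congr 1
  refine List.map_congr_left (fun i hi => ?_)
  rw [Function.comp_apply, psi_sig m i (lt_of_lt_of_le (List.mem_range.1 hi) hr)]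

lemma tw_sq (m h : ℕ) :
    tw m (2 * h) ^ 2 = ((List.range (2 * h)).map (sig m)).prod ^ (4 * h + 2) := by
  rw [tw, ← pow_mul]
  congr 1
  ring

lemma tv_blk_even (m h : ℕ) (hm : 2 * h ≤ m) :
    ((blk m (2 * h) (4 * h + 2)).map (tv (ch m) (ch_alt m))).prod = 1 := by
  rw [blk_prod, tv_prod m _ hm, ← map_pow, ← tw_sq, rho_tw_even m h hm]

lemma tv_blk_odd (g : ℕ) :
    ((blk (2 * g + 1) (2 * g + 1) (2 * g + 2)).map (tv (ch (2 * g + 1)) (ch_alt _))).prod = 1 := by
  rw [blk_prod, tv_prod _ _ le_rfl, ← map_pow]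
  exact rho_tw_odd g

lemma gen_blk_even (m h : ℕ) (hm : 2 * h ≤ m) :
    ((blk m (2 * h) (4 * h + 2)).map (gen (ch m) (ch_alt m))).prod = psi m (tw m (2 * h) ^ 2) := by
  rw [blk_prod, gen_prod_range m _ hm, ← map_pow, ← tw_sq]

lemma gen_blk_odd (g : ℕ) :
    ((blk (2 * g + 1) (2 * g + 1) (2 * g + 2)).map (gen (ch (2 * g + 1)) (ch_alt _))).prod =
      psi (2 * g + 1) (tw (2 * g + 1) (2 * g + 1)) := by
  rw [blk_prod, gen_prod_range _ _ le_rfl, ← map_pow]
  rfl

lemma length_blk (m r k : ℕ) : (blk m r k).length = k * r := by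
  unfold blk
  rw [List.length_flatten]
  simp

/-- the map to the radical quotient: membership in the kernel -/
lemma mem_Ker (m : ℕ) (w : List (Bool × (Fin m → ℝ))) (x : (word (ch m) w).E) :
    x ∈ Ker m w ↔ ∀ u, ch m u ((word (ch m) w).V x) = 0 := by
  unfold Ker
  rw [LinearMap.mem_ker]
  constructor
  · intro h u
    have := congrArg (fun f => f u) h
    simpa using this
  · intro h
    refine LinearMap.ext fun u => ?_
    simpa using h u

section Modes

variable (m r k : ℕ) (κ : (ℕ → ℕ → ℝ) →ₗ[ℝ] (word (ch m) (pos (blk m r k))).E)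
  (hL : ∀ x y, (word (ch m) (pos (blk m r k))).L (κ x) (κ y) = Lf r k x y)
  (hV : ∀ x, (word (ch m) (pos (blk m r k))).V (κ x) =
    ∑ i ∈ Finset.range r, (∑ j ∈ Finset.range k, x j i) • av m i)

include hV in
lemma md_mem (a b : ℕ) (ha : 1 ≤ a) (hk : a < k) :
    κ (md r k a b) ∈ Ker m (pos (blk m r k)) := by
  rw [mem_Ker]
  intro u
  rw [hV, Finset.sum_eq_zero, map_zero]
  intro i _
  rw [sum_md r k a b ha hk i, zero_smul]

/-- the form on the kernel -/
noncomputable def KB (w : List (Bool × (Fin m → ℝ))) : Ker m w →ₗ[ℝ] Ker m w →ₗ[ℝ] ℝ :=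
  (word (ch m) w).L.compl₁₂ (Ker m w).subtype (Ker m w).subtype

lemma KB_apply (w : List (Bool × (Fin m → ℝ))) (x y : Ker m w) :
    KB m w x y = (word (ch m) w).L x.1 y.1 := rfl

include hL in
lemma L_md (a b a' b' : ℕ) (ha : 1 ≤ a) (hk : a < k) (ha' : 1 ≤ a') (hk' : a' < k)
    (hb : 1 ≤ b) (hr : b ≤ r) (hb' : 1 ≤ b') (hr' : b' ≤ r) :
    (word (ch m) (pos (blk m r k))).L (κ (md r k a b)) (κ (md r k a' b')) =
      mu r k a b * (if a = a' ∧ b = b' then (k : ℝ) * (r + 1) / 2 else 0) := by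
  rw [hL, Lf_md r k a b ha hk _ (fun i _ => sum_md r k a' b' ha' hk' i),
    md_orth r k a b a' b' ha hk ha' hk' hb hr hb' hr']

end Modes

theorem std_pos (m r k : ℕ) (hrm : r ≤ m) (s : Finset (ℕ × ℕ))
    (hs : ∀ p ∈ s, 1 ≤ p.1 ∧ p.1 < k ∧ 1 ≤ p.2 ∧ p.2 ≤ r ∧ 0 < mu r k p.1 p.2) :
    s.card ≤ posIdx (fun x : Ker m (pos (blk m r k)) => (word (ch m) _).q x.1) := by
  obtain ⟨κ, hL, hV⟩ := exists_vec m r k hrm
  have h := card_le_posIdx (ι := s) (KB m (pos (blk m r k)))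
    (fun p => ⟨κ (md r k p.1.1 p.1.2),
      md_mem m r k κ hV _ _ (hs p.1 p.2).1 (hs p.1 p.2).2.1⟩) ?_ ?_
  · rw [Fintype.card_coe] at h
    exact h
  · intro p p' hpp
    obtain ⟨h1, h2, h3, h4, h5⟩ := hs p.1 p.2
    obtain ⟨h1', h2', h3', h4', h5'⟩ := hs p'.1 p'.2
    rw [KB_apply]
    refine (L_md m r k κ hL p.1.1 p.1.2 p'.1.1 p'.1.2 h1 h2 h1' h2' h3 h4 h3' h4').trans ?_
    rw [if_neg, mul_zero]
    intro h
    exact hpp (Subtype.ext (Prod.ext h.1 h.2))
  · intro p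
    obtain ⟨h1, h2, h3, h4, h5⟩ := hs p.1 p.2
    rw [KB_apply]
    have h7 := L_md m r k κ hL p.1.1 p.1.2 p.1.1 p.1.2 h1 h2 h1 h2 h3 h4 h3 h4
    rw [if_pos ⟨rfl, rfl⟩] at h7
    refine lt_of_lt_of_eq ?_ h7.symm
    have hk : (0 : ℝ) < k := by
      have : 0 < k := by omega
      exact_mod_cast this
    positivity

theorem std_neg (m r k : ℕ) (hrm : r ≤ m) (s : Finset (ℕ × ℕ))
    (hs : ∀ p ∈ s, 1 ≤ p.1 ∧ p.1 < k ∧ 1 ≤ p.2 ∧ p.2 ≤ r ∧ mu r k p.1 p.2 < 0) :
    s.card ≤ negIdx (fun x : Ker m (pos (blk m r k)) => (word (ch m) _).q x.1) := by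
  obtain ⟨κ, hL, hV⟩ := exists_vec m r k hrm
  have h := card_le_negIdx (ι := s) (KB m (pos (blk m r k)))
    (fun p => ⟨κ (md r k p.1.1 p.1.2),
      md_mem m r k κ hV _ _ (hs p.1 p.2).1 (hs p.1 p.2).2.1⟩) ?_ ?_
  · rw [Fintype.card_coe] at h
    exact h
  · intro p p' hpp
    obtain ⟨h1, h2, h3, h4, h5⟩ := hs p.1 p.2
    obtain ⟨h1', h2', h3', h4', h5'⟩ := hs p'.1 p'.2
    rw [KB_apply]
    refine (L_md m r k κ hL p.1.1 p.1.2 p'.1.1 p'.1.2 h1 h2 h1' h2' h3 h4 h3' h4').trans ?_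
    rw [if_neg, mul_zero]
    intro h
    exact hpp (Subtype.ext (Prod.ext h.1 h.2))
  · intro p
    obtain ⟨h1, h2, h3, h4, h5⟩ := hs p.1 p.2
    rw [KB_apply]
    have h7 := L_md m r k κ hL p.1.1 p.1.2 p.1.1 p.1.2 h1 h2 h1 h2 h3 h4 h3 h4
    rw [if_pos ⟨rfl, rfl⟩] at h7
    refine lt_of_eq_of_lt h7 ?_
    have hk : (0 : ℝ) < k := by
      have : 0 < k := by omega
      exact_mod_cast this
    have h6 : (0 : ℝ) < (k : ℝ) * (r + 1) / 2 := by positivity
    exact mul_neg_of_neg_of_pos h5 h6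

/-- the hyperbolic planes for a word of a chain -/
lemma hyp_blk (m h r k : ℕ) (hrm : r ≤ m) (hh : 2 * h ≤ r) (hk : 0 < k)
    (h1 : ((blk m r k).map (tv (ch m) (ch_alt m))).prod = 1) :
    2 * h + posIdx (fun x : Ker m (pos (blk m r k)) => (word (ch m) _).q x.1) ≤
        posIdx (word (ch m) (pos (blk m r k))).q ∧
      2 * h + negIdx (fun x : Ker m (pos (blk m r k)) => (word (ch m) _).q x.1) ≤
        negIdx (word (ch m) (pos (blk m r k))).q := by
  obtain ⟨κ, hL, hV⟩ := exists_vec m r k hrm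
  obtain ⟨Y, hY⟩ := hasMon_word (ch m) (ch_alt m) (blk m r k)
  obtain ⟨u, hu⟩ := exists_dual m h (hh.trans hrm)
  rw [h1] at hY
  refine dat_hyp (ch m) (word (ch m) (pos (blk m r k))) (skew_word (ch m) (ch_alt m) _) Y ?_ u
    (fun i => κ (fun j' i' => if j' = 0 ∧ i' = i.val then 1 else 0)) ?_ _ ?_
  · refine ⟨hY.1, fun v => ?_⟩
    rw [hY.2 v]
    simp
  · intro i j
    have h2 : (word (ch m) (pos (blk m r k))).V
        (κ (fun j' i' => if j' = 0 ∧ i' = j.val then 1 else 0)) = av m j := by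
      rw [hV, Finset.sum_eq_single j.val, Finset.sum_eq_single 0]
      · simp
      · intro b _ hb; simp [hb]
      · intro h; exact absurd (Finset.mem_range.2 hk) h
      · intro b _ hb; simp [hb]
      · intro h; exact absurd (Finset.mem_range.2 (by omega)) h
    rw [h2]
    exact hu i j
  · intro x hx v
    exact (mem_Ker m _ x).1 hx v

/-- the square of the full twist on `2 h + 1` strands -/
theorem std_even (m h : ℕ) (hm : 2 * h ≤ m) :
    6 * h ^ 2 + 4 * h ≤ posIdx (word (ch m) (pos (blk m (2 * h) (4 * h + 2)))).q ∧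
      2 * h ^ 2 ≤ negIdx (word (ch m) (pos (blk m (2 * h) (4 * h + 2)))).q := by
  obtain ⟨s, hs, hsc⟩ := card_pos_even h
  obtain ⟨s', hs', hsc'⟩ := card_neg_even h
  have h1 := std_pos m (2 * h) (4 * h + 2) hm s hs
  have h2 := std_neg m (2 * h) (4 * h + 2) hm s' hs'
  have h3 := hyp_blk m h (2 * h) (4 * h + 2) hm le_rfl (by omega) (tv_blk_even m h hm)
  constructor <;> omega

end Pool.Agent.H53.HB
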