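import Pool.Agent.H53.HB.Std

/-!
# The indices of the word of the full twist on an even number of strands
-/

namespace Pool.Agent.H53.HB

open Module Finset

/-- the coefficients of a vector of the radical -/
noncomputable def ev (_j i : ℕ) : ℝ := if Even i then 1 else 0

lemma ev_even (j i : ℕ) (h : Even i) : ev j i = 1 := if_pos h

lemma ev_odd (j i : ℕ) (h : ¬ Even i) : ev j i = 0 := if_neg h

lemma sum_ev (g j : ℕ) (f : ℕ → ℝ) :
    ∑ i ∈ range (2 * g), (f i * ev j (i + 1) - f (i + 1) * ev j i) = 0 := by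
  induction g with
  | zero => simp
  | succ g ih =>
    rw [show 2 * (g + 1) = 2 * g + 1 + 1 from by ring, sum_range_succ, sum_range_succ, ih,
      ev_odd j (2 * g + 1) (by rw [Nat.not_even_iff_odd]; exact ⟨g, rfl⟩),
      ev_even j (2 * g) ⟨g, by ring⟩, ev_even j (2 * g + 1 + 1) ⟨g + 1, by ring⟩]
    ring

lemma Lf_ev (g k : ℕ) (x : ℕ → ℕ → ℝ) :
    Lf (2 * g + 1) k x ev = ∑ j ∈ range k, (∑ i ∈ range (2 * g + 1), x j i * ev j i +
      ∑ i ∈ range (2 * g), x j i * ev j (i + 1)) := by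
  unfold Lf
  rw [Nat.add_sub_cancel, add_eq_left]
  refine sum_eq_zero (fun j _ => sum_eq_zero (fun j' _ => ?_))
  exact sum_ev g j (x j')

lemma Lf_ev_zero (g k : ℕ) (x : ℕ → ℕ → ℝ) (hx : ∀ i, ∑ j ∈ range k, x j i = 0) :
    Lf (2 * g + 1) k x ev = 0 := by
  rw [Lf_ev, sum_add_distrib, sum_comm, sum_comm (s := range k) (t := range (2 * g))]
  have h1 : ∀ i i', ∑ j ∈ range k, x j i * ev j i' = 0 := by
    intro i i'
    have : ∑ j ∈ range k, x j i * ev j i' = (∑ j ∈ range k, x j i) * ev 0 i' := by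
      rw [sum_mul]
      rfl
    rw [this, hx, zero_mul]
  rw [sum_eq_zero (fun i _ => h1 i i), sum_eq_zero (fun i _ => h1 i (i + 1)), add_zero]

lemma Lf_ev_pos (g k : ℕ) (hk : 0 < k) : 0 < Lf (2 * g + 1) k ev ev := by
  rw [Lf_ev]
  refine sum_pos (fun j _ => ?_) ⟨0, mem_range.2 hk⟩
  refine add_pos_of_pos_of_nonneg ?_ (sum_nonneg (fun i _ => ?_))
  · refine sum_pos' (fun i _ => mul_self_nonneg _) ⟨0, mem_range.2 (by omega), ?_⟩
    rw [ev_even j 0 ⟨0, rfl⟩]
    norm_num
  · unfold ev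
    split_ifs <;> norm_num

lemma ch_ev (g : ℕ) (c : ℝ) (u : Fin (2 * g + 1) → ℝ) :
    ch (2 * g + 1) u (fun j => c * ev 0 j) = 0 := by
  rw [ch_apply]
  refine sum_eq_zero (fun i _ => ?_)
  rw [← mul_sum]
  have h : ∑ j : Fin (2 * g + 1), c * ev 0 j * cm (2 * g + 1) i j = 0 := by
    have h1 : ∀ j : Fin (2 * g + 1), c * ev 0 j * cm (2 * g + 1) i j =
        (if (i : ℕ) + 1 = j then c * ev 0 ((i : ℕ) + 1) else 0) -
          (if (j : ℕ) + 1 = i then c * ev 0 ((i : ℕ) + 1) else 0) := by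
      intro j
      simp only [cm, Matrix.of_apply]
      by_cases h1 : (i : ℕ) + 1 = j
      · rw [if_pos h1, if_pos h1, if_neg (by omega), h1]
        ring
      · rw [if_neg h1, if_neg h1]
        by_cases h2 : (j : ℕ) + 1 = i
        · rw [if_pos h2, if_pos h2, ← h2]
          have h3 : ev 0 ((j : ℕ) + 1 + 1) = ev 0 j := by
            unfold ev
            congr 1
            simp [Nat.even_add_one]
          rw [h3]
          ring
        · rw [if_neg h2, if_neg h2]
          ring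
    rw [sum_congr rfl (fun j _ => h1 j), sum_sub_distrib]
    by_cases hi : Even (i : ℕ)
    · have h2 : ev 0 ((i : ℕ) + 1) = 0 := ev_odd _ _ (by simpa [Nat.even_add_one] using hi)
      simp [h2]
    · have h3 : (i : ℕ) < 2 * g := by
        have := i.2
        rcases Nat.lt_or_ge (i : ℕ) (2 * g) with h | h
        · exact h
        · exact absurd ⟨g, by omega⟩ hi
      have h4 : 0 < (i : ℕ) := by
        rcases Nat.eq_zero_or_pos (i : ℕ) with h | h
        · exact absurd (h ▸ ⟨0, rfl⟩) hi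
        · exact h
      rw [sum_eq_single (⟨(i : ℕ) + 1, by omega⟩ : Fin (2 * g + 1)),
        sum_eq_single (⟨(i : ℕ) - 1, by omega⟩ : Fin (2 * g + 1))]
      · rw [if_pos rfl, if_pos (by simp; omega), sub_self]
      · intro b _ hb
        rw [if_neg]
        intro h
        exact hb (Fin.ext (by simp; omega))
      · intro h; exact absurd (mem_univ _) h
      · intro b _ hb
        rw [if_neg]
        intro h
        exact hb (Fin.ext (by simp; omega))
      · intro h; exact absurd (mem_univ _) h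
  rw [h, mul_zero]

lemma sum_av_eq (m : ℕ) (c : ℕ → ℝ) :
    ∑ i ∈ range m, c i • av m i = fun j : Fin m => c j := by
  ext j
  rw [Finset.sum_apply, sum_eq_single (j : ℕ)]
  · simp [av]
  · intro b _ hb
    have : (j : ℕ) ≠ b := fun h => hb h.symm
    simp [av, this]
  · intro h
    exact absurd (mem_range.2 j.2) h

/-- the full twist on `2 g + 2` strands -/
theorem std_odd (g : ℕ) :
    3 * g ^ 2 + 5 * g + 2 ≤
        posIdx (word (ch (2 * g + 1)) (pos (blk (2 * g + 1) (2 * g + 1) (2 * g + 2)))).q ∧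
      g ^ 2 + g ≤
        negIdx (word (ch (2 * g + 1)) (pos (blk (2 * g + 1) (2 * g + 1) (2 * g + 2)))).q := by
  obtain ⟨s, hs, hsc⟩ := card_pos_odd g
  obtain ⟨s', hs', hsc'⟩ := card_neg_odd g
  have h2 := std_neg (2 * g + 1) (2 * g + 1) (2 * g + 2) le_rfl s' hs'
  have h3 := hyp_blk (2 * g + 1) g (2 * g + 1) (2 * g + 2) le_rfl (by omega) (by omega)
    (tv_blk_odd g)
  have h1 : s.card + 1 ≤ posIdx (fun x : Ker (2 * g + 1)
      (pos (blk (2 * g + 1) (2 * g + 1) (2 * g + 2))) => (word (ch (2 * g + 1)) _).q x.1) := by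
    obtain ⟨κ, hL, hV⟩ := exists_vec (2 * g + 1) (2 * g + 1) (2 * g + 2) le_rfl
    have hev : κ ev ∈ Ker (2 * g + 1) (pos (blk (2 * g + 1) (2 * g + 1) (2 * g + 2))) := by
      rw [mem_Ker]
      intro u
      have h4 : (word (ch (2 * g + 1)) (pos (blk (2 * g + 1) (2 * g + 1) (2 * g + 2)))).V
          (κ ev) = fun j : Fin (2 * g + 1) => ((2 * g + 2 : ℕ) : ℝ) * ev 0 j := by
        rw [hV, sum_av_eq (2 * g + 1) (fun i => ∑ j ∈ range (2 * g + 2), ev j i)]
        ext j
        have : ∀ j', ev j' (j : ℕ) = ev 0 j := fun _ => rfl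
        simp only [this, sum_const, card_range, nsmul_eq_mul]
      rw [h4]
      exact ch_ev g _ u
    have hmd : ∀ p ∈ s, (word (ch (2 * g + 1))
        (pos (blk (2 * g + 1) (2 * g + 1) (2 * g + 2)))).V
          (κ (md (2 * g + 1) (2 * g + 2) p.1 p.2)) = 0 := by
      intro p hp
      rw [hV]
      refine sum_eq_zero (fun i _ => ?_)
      rw [sum_md _ _ _ _ (hs p hp).1 (hs p hp).2.1, zero_smul]
    have h5 : ∀ p ∈ s, (word (ch (2 * g + 1))
        (pos (blk (2 * g + 1) (2 * g + 1) (2 * g + 2)))).L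
          (κ (md (2 * g + 1) (2 * g + 2) p.1 p.2)) (κ ev) = 0 := by
      intro p hp
      refine (hL _ _).trans (Lf_ev_zero g _ _ (fun i => ?_))
      exact sum_md _ _ _ _ (hs p hp).1 (hs p hp).2.1 i
    have h6 : ∀ p ∈ s, (word (ch (2 * g + 1))
        (pos (blk (2 * g + 1) (2 * g + 1) (2 * g + 2)))).L (κ ev)
          (κ (md (2 * g + 1) (2 * g + 2) p.1 p.2)) = 0 := by
      intro p hp
      have h7 := skew_word (ch (2 * g + 1)) (ch_alt _)
        (pos (blk (2 * g + 1) (2 * g + 1) (2 * g + 2))) (κ ev)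
          (κ (md (2 * g + 1) (2 * g + 2) p.1 p.2))
      rw [h5 p hp, hmd p hp, map_zero, sub_zero] at h7
      exact h7
    have h := card_le_posIdx (ι := Option s)
      (KB (2 * g + 1) (pos (blk (2 * g + 1) (2 * g + 1) (2 * g + 2))))
      (fun o => o.elim ⟨κ ev, hev⟩ (fun p => ⟨κ (md (2 * g + 1) (2 * g + 2) p.1.1 p.1.2),
        md_mem _ _ _ κ hV _ _ (hs p.1 p.2).1 (hs p.1 p.2).2.1⟩)) ?_ ?_
    · rw [Fintype.card_option, Fintype.card_coe] at h
      exact h
    · rintro (_ | p) (_ | p') hpp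
      · exact absurd rfl hpp
      · exact h6 p'.1 p'.2
      · exact h5 p.1 p.2
      · obtain ⟨h1, h2, h3, h4, h5⟩ := hs p.1 p.2
        obtain ⟨h1', h2', h3', h4', h5'⟩ := hs p'.1 p'.2
        refine (L_md _ _ _ κ hL p.1.1 p.1.2 p'.1.1 p'.1.2 h1 h2 h1' h2' h3 h4 h3' h4').trans ?_
        rw [if_neg, mul_zero]
        intro h
        exact hpp (congrArg some (Subtype.ext (Prod.ext h.1 h.2)))
    · rintro (_ | p)
      · exact lt_of_lt_of_eq (Lf_ev_pos g _ (by omega)) (hL _ _).symm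
      · obtain ⟨h1, h2, h3, h4, h5⟩ := hs p.1 p.2
        have h7 := L_md _ _ _ κ hL p.1.1 p.1.2 p.1.1 p.1.2 h1 h2 h1 h2 h3 h4 h3 h4
        rw [if_pos ⟨rfl, rfl⟩] at h7
        refine lt_of_lt_of_eq ?_ h7.symm
        positivity
  constructor
  · omega
  · omega

end Pool.Agent.H53.HB
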